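import Mathlib
import Pool.Agent.Helper133.Brouwer

/-! A cover of a ball of an `n`-dimensional normed space by small open sets has a point in at least
`n + 1` of them. -/

set_option autoImplicit false

open Metric Set MeasureTheory

noncomputable section

namespace Pool.Agent.V11111.MD

theorem cover_ball {E : Type} [NormedAddCommGroup E] [NormedSpace ℝ E] [FiniteDimensional ℝ E]
    (r : ℝ) (hr : 0 < r) {ι : Type} [Fintype ι] (V : ι → Set E) (hV : ∀ i, IsOpen (V i))
    (hcov : closedBall (0 : E) r ⊆ ⋃ i, V i)
    (hdiam : ∀ i, ∀ x ∈ V i ∩ closedBall (0 : E) r, ∀ y ∈ V i ∩ closedBall (0 : E) r, ‖x - y‖ < r)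
    (k : ℕ) (hk : ∀ x ∈ closedBall (0 : E) r, {i | x ∈ V i}.ncard ≤ k) :
    Module.finrank ℝ E + 1 ≤ k := by
  classical
  by_contra hcon
  push Not at hcon
  have hkn : k ≤ Module.finrank ℝ E := by omega
  let _ : MeasurableSpace E := borel E
  have : BorelSpace E := ⟨rfl⟩
  set B := closedBall (0 : E) r with hB
  have hBc : IsCompact B := isCompact_closedBall 0 r
  obtain ⟨f, hf⟩ := PartitionOfUnity.exists_isSubordinate isClosed_closedBall V hV hcov
  -- points
  have hp : ∀ i, ∃ p : E, (V i ∩ B).Nonempty → p ∈ V i ∩ B := by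
    intro i
    by_cases h : (V i ∩ B).Nonempty
    · exact ⟨h.some, fun _ => h.some_mem⟩
    · exact ⟨0, fun h' => absurd h' h⟩
  choose p hp using hp
  set g : E → E := fun x => ∑ i, f i x • p i with hg
  have hgc : Continuous g := by
    rw [hg]
    exact continuous_finsetSum _ fun i _ => (f i).continuous.smul continuous_const
  have hsum : ∀ x ∈ B, ∑ i, f i x = 1 := by
    intro x hx
    have := f.sum_eq_one hx
    rwa [finsum_eq_sum_of_fintype] at this
  have hmem : ∀ i x, f i x ≠ 0 → x ∈ V i := by
    intro i x hx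
    exact hf i (subset_tsupport _ hx)
  have hgx : ∀ x ∈ B, ‖g x - x‖ < r := by
    intro x hx
    have e1 : g x - x = ∑ i, f i x • (p i - x) := by
      simp only [smul_sub, Finset.sum_sub_distrib, ← Finset.sum_smul, hsum x hx, one_smul]
      rfl
    have e2 : ∀ i, f i x ≠ 0 → ‖p i - x‖ < r := by
      intro i hi
      have hxi : x ∈ V i ∩ B := ⟨hmem i x hi, hx⟩
      exact hdiam i _ (hp i ⟨x, hxi⟩) x hxi
    have hex : ∃ i, f i x ≠ 0 := by
      by_contra h
      push Not at h
      have := hsum x hx
      simp [h] at this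
    rw [e1]
    calc ‖∑ i, f i x • (p i - x)‖ ≤ ∑ i, ‖f i x • (p i - x)‖ := norm_sum_le _ _
      _ < ∑ i, f i x * r := by
          apply Finset.sum_lt_sum
          · intro i _
            rw [norm_smul, Real.norm_eq_abs, abs_of_nonneg (f.nonneg i x)]
            by_cases h0 : f i x = 0
            · simp [h0]
            · exact mul_le_mul_of_nonneg_left (e2 i h0).le (f.nonneg i x)
          · obtain ⟨i, hi⟩ := hex
            refine ⟨i, Finset.mem_univ i, ?_⟩
            rw [norm_smul, Real.norm_eq_abs, abs_of_nonneg (f.nonneg i x)]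
            exact mul_lt_mul_of_pos_left (e2 i hi) (lt_of_le_of_ne (f.nonneg i x) (Ne.symm hi))
      _ = r := by rw [← Finset.sum_mul, hsum x hx, one_mul]
  -- uniform bound
  have h0B : (0 : E) ∈ B := by simp [hB, hr.le]
  obtain ⟨x₀, hx₀, hmax⟩ := hBc.exists_isMaxOn ⟨0, h0B⟩
    ((hgc.sub continuous_id).norm.continuousOn (s := B))
  set δ := r - ‖g x₀ - x₀‖ with hδ
  have hδ0 : 0 < δ := by
    have := hgx x₀ hx₀
    linarith
  have hgδ : ∀ x ∈ B, ‖g x - x‖ ≤ r - δ := by
    intro x hx
    have := hmax hx
    simp only [id] at this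
    have h2 : ‖g x - x‖ ≤ ‖g x₀ - x₀‖ := this
    linarith
  -- the image of `g` lies in finitely many proper affine subspaces
  set W : Set E := ⋃ s ∈ {s : Finset ι | s.card ≤ k},
    (affineSpan ℝ ((s.image p : Finset E) : Set E) : Set E) with hW
  have hgW : ∀ x ∈ B, g x ∈ W := by
    intro x hx
    set s : Finset ι := Finset.univ.filter (fun i => f i x ≠ 0) with hs
    have hcard : s.card ≤ k := by
      refine le_trans ?_ (hk x hx)
      rw [Set.ncard_eq_toFinset_card']
      apply Finset.card_le_card
      intro i hi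
      simp only [Set.mem_toFinset, Set.mem_ofPred_eq]
      exact hmem i x (Finset.mem_filter.1 hi).2
    refine Set.mem_biUnion (x := s) hcard ?_
    have e1 : g x = ∑ i ∈ s, f i x • p i := by
      rw [hg, hs, Finset.sum_filter]
      refine Finset.sum_congr rfl fun i _ => ?_
      by_cases h0 : f i x = 0 <;> simp [h0]
    have e2 : ∑ i ∈ s, f i x = 1 := by
      rw [← hsum x hx, hs, Finset.sum_filter]
      refine Finset.sum_congr rfl fun i _ => ?_
      by_cases h0 : f i x = 0 <;> simp [h0]
    have h3 : g x ∈ convexHull ℝ ((s.image p : Finset E) : Set E) := by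
      rw [e1]
      refine Convex.sum_mem (convex_convexHull ℝ _) (fun i _ => f.nonneg i x) e2 ?_
      intro i hi
      apply subset_convexHull
      simp only [Finset.coe_image]
      exact ⟨i, hi, rfl⟩
    exact convexHull_subset_affineSpan _ h3
  have hWn : (Measure.addHaar : Measure E) W = 0 := by
    rw [hW]
    refine (measure_biUnion_null_iff (Set.toFinite _).countable).2 ?_
    intro s hs
    apply Measure.addHaar_affineSubspace
    intro htop
    have hE : vectorSpan ℝ ((s.image p : Finset E) : Set E) = ⊤ := by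
      rw [← direction_affineSpan, htop, AffineSubspace.direction_top]
    rcases Nat.eq_zero_or_pos s.card with h0 | h0
    · rw [Finset.card_eq_zero.1 h0] at htop
      simp at htop
    · have h2 := finrank_vectorSpan_image_finset_le ℝ p s (n := s.card - 1) (by omega)
      rw [hE, finrank_top] at h2
      have : s.card ≤ k := hs
      omega
  have hball : 0 < (Measure.addHaar : Measure E) (ball 0 δ) := measure_ball_pos _ _ hδ0
  have hex : ∃ q ∈ ball (0 : E) δ, q ∉ W := by
    by_contra h
    push Not at h
    have : (Measure.addHaar : Measure E) (ball 0 δ) ≤ (Measure.addHaar : Measure E) W :=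
      measure_mono h
    rw [hWn] at this
    exact absurd hball (not_lt.2 this)
  obtain ⟨q, hq, hqW⟩ := hex
  -- the retraction
  set ret : E → E := fun x => (max 1 (‖x‖ / r))⁻¹ • x with hret
  have hretc : Continuous ret := by
    rw [hret]
    refine Continuous.smul (Continuous.inv₀ (by fun_prop) ?_) continuous_id
    intro x
    have : (1 : ℝ) ≤ max 1 (‖x‖ / r) := le_max_left _ _
    positivity
  have hretB : ∀ x, ret x ∈ B := by
    intro x
    rw [hB, mem_closedBall_zero_iff, hret]
    simp only
    rw [norm_smul, norm_inv, Real.norm_eq_abs, abs_of_nonneg (by positivity)]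
    rw [inv_mul_le_iff₀ (by positivity)]
    have : ‖x‖ / r ≤ max 1 (‖x‖ / r) := le_max_right _ _
    rw [div_le_iff₀ hr] at this
    exact this
  have hretid : ∀ x, ‖x‖ = r → ret x = x := by
    intro x hx
    rw [hret]
    simp [hx, div_self hr.ne']
  set G : E → E := fun x => g (ret x) - q with hG
  have hG0 : ∀ x, G x ≠ 0 := by
    intro x h0
    apply hqW
    have := hgW _ (hretB x)
    rwa [sub_eq_zero.1 h0] at this
  have hGc : Continuous G := (hgc.comp hretc).sub continuous_const
  obtain ⟨x, hx⟩ := Pool.Agent.Helper133.Brouwer.brouwer (fun x => - ((r / ‖G x‖) • G x))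
    (((continuous_const.div hGc.norm (fun x => norm_ne_zero_iff.2 (hG0 x))).smul hGc).neg) r (by
      intro x
      rw [norm_neg, norm_smul, Real.norm_eq_abs, abs_of_nonneg (by positivity)]
      rw [div_mul_cancel₀ _ (norm_ne_zero_iff.2 (hG0 x))])
  have hxn : ‖x‖ = r := by
    rw [← hx, norm_neg, norm_smul, Real.norm_eq_abs, abs_of_nonneg (by positivity),
      div_mul_cancel₀ _ (norm_ne_zero_iff.2 (hG0 x))]
  have hxB : x ∈ B := by rw [hB, mem_closedBall_zero_iff, hxn]
  have e1 : G x = g x - q := by rw [hG]; simp only; rw [hretid x hxn]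
  set c := r / ‖G x‖ with hc
  have hc0 : 0 < c := div_pos hr (norm_pos_iff.2 (hG0 x))
  have e2 : g x - x = q - (1 + c⁻¹) • x := by
    have h3 : c • G x = - x := by
      have : - (c • G x) = x := hx
      exact neg_eq_iff_eq_neg.1 this
    have h4 : G x = - (c⁻¹ • x) := by
      rw [← smul_neg, ← h3, smul_smul, inv_mul_cancel₀ hc0.ne', one_smul]
    rw [e1] at h4
    rw [eq_add_of_sub_eq h4, add_smul, one_smul]
    abel
  have e3 := hgδ x hxB
  rw [e2] at e3
  have e4 : (1 + c⁻¹) * r - ‖q‖ ≤ ‖q - (1 + c⁻¹) • x‖ := by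
    have := norm_sub_norm_le ((1 + c⁻¹) • x) q
    rw [norm_smul, hxn, Real.norm_eq_abs, abs_of_pos (by positivity), norm_sub_rev] at this
    exact this
  have e5 : ‖q‖ < δ := by simpa using hq
  have e6 : 0 < c⁻¹ * r := by positivity
  nlinarith

end Pool.Agent.V11111.MD
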