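import Mathlib
import Pool.Agent.V11111.MD.Defs

/-! Compactness facts for dual groups, and covers. -/

set_option autoImplicit false

open Filter Topology Set

noncomputable section

namespace Pool.Agent.V11111.MD

section
variable {A : Type} [AddCommGroup A]

theorem Dual.cont_toFun : Continuous (Dual.toFun (A := A)) := continuous_induced_dom

theorem Dual.cont_eval (a : A) : Continuous fun χ : Dual A => χ.toFun a :=
  (continuous_apply a).comp Dual.cont_toFun

instance : CompactSpace (Dual A) := by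
  have hr : IsClosed (Set.range (Dual.toFun (A := A))) := by
    have : Set.range (Dual.toFun (A := A)) =
        ⋂ a : A, ⋂ b : A, {f : A → AddCircle (1 : ℝ) | f (a + b) = f a + f b} := by
      ext f
      simp only [Set.mem_range, Set.mem_iInter]
      constructor
      · rintro ⟨χ, rfl⟩ a b
        exact χ.add a b
      · intro h
        exact ⟨⟨f, fun a b => h a b⟩, rfl⟩
    rw [this]
    refine isClosed_iInter fun a => isClosed_iInter fun b => ?_
    exact isClosed_eq (continuous_apply _)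
      (show Continuous fun f : A → AddCircle (1 : ℝ) => f a + f b from by fun_prop)
  have hinj : Function.Injective (Dual.toFun (A := A)) := by
    intro χ ψ h
    exact Dual.ext h
  have hemb : IsClosedEmbedding (Dual.toFun (A := A)) :=
    ⟨⟨⟨rfl⟩, hinj⟩, hr⟩
  exact hemb.compactSpace

/-- the additive map of a character -/
def Dual.hom (χ : Dual A) : A →+ AddCircle (1 : ℝ) := AddMonoidHom.mk' χ.toFun χ.add

theorem Dual.hom_apply (χ : Dual A) (a : A) : χ.hom a = χ.toFun a := rfl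

theorem CMetric.nonneg {X : Type} [TopologicalSpace X] (ρ : CMetric X) (x y : X) :
    0 ≤ ρ.ρ x y := by
  have h := ρ.triangle x y x
  rw [ρ.self, ρ.symm y x] at h
  linarith

theorem CMetric.bounded {X : Type} [TopologicalSpace X] [CompactSpace X] (ρ : CMetric X) :
    ∃ D : ℝ, 0 < D ∧ ∀ x y, ρ.ρ x y ≤ D := by
  obtain ⟨D, hD⟩ := (isCompact_univ (X := X × X)).exists_bound_of_continuousOn
    ρ.cont.continuousOn
  refine ⟨max D 1, by positivity, fun x y => ?_⟩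
  exact ((le_abs_self _).trans (hD (x, y) trivial)).trans (le_max_left _ _)

theorem close_of_agree (ρ : CMetric (Dual A)) (δ : ℝ) (hδ : 0 < δ) :
    ∃ K : Finset A, ∃ ε : ℝ, 0 < ε ∧ ∀ χ ψ : Dual A,
      (∀ a ∈ K, ‖χ.toFun a - ψ.toFun a‖ < ε) → ρ.ρ χ ψ < δ := by
  classical
  have hT : IsCompact {p : Dual A × Dual A | δ ≤ ρ.ρ p.1 p.2} :=
    (isClosed_le continuous_const ρ.cont).isCompact
  obtain ⟨t, ht⟩ := hT.elim_finite_subcover
    (fun q : A × ℕ => {p : Dual A × Dual A |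
      1 / ((q.2 : ℝ) + 1) < ‖p.1.toFun q.1 - p.2.toFun q.1‖})
    (fun q => isOpen_lt continuous_const
      (((Dual.cont_eval q.1).comp continuous_fst).sub
        ((Dual.cont_eval q.1).comp continuous_snd)).norm) (by
      intro p hp
      have hne : p.1 ≠ p.2 := by
        intro h
        have : ρ.ρ p.1 p.2 = 0 := by rw [h, ρ.self]
        have h2 : δ ≤ ρ.ρ p.1 p.2 := hp
        linarith
      have : ∃ a, p.1.toFun a ≠ p.2.toFun a := by
        by_contra h
        push Not at h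
        exact hne (Dual.ext (funext h))
      obtain ⟨a, ha⟩ := this
      obtain ⟨n, hn⟩ := exists_nat_one_div_lt (norm_pos_iff.2 (sub_ne_zero.2 ha))
      exact Set.mem_iUnion.2 ⟨(a, n), hn⟩)
  refine ⟨t.image Prod.fst, 1 / ((t.sup Prod.snd : ℕ) + 1), by positivity, fun χ ψ h => ?_⟩
  by_contra hcon
  push Not at hcon
  have := ht (show (χ, ψ) ∈ {p : Dual A × Dual A | δ ≤ ρ.ρ p.1 p.2} from hcon)
  simp only [Set.mem_iUnion] at this
  obtain ⟨q, hq, hq2⟩ := this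
  have h1 := h q.1 (Finset.mem_image_of_mem _ hq)
  have h2 : 1 / ((q.2 : ℝ) + 1) < ‖χ.toFun q.1 - ψ.toFun q.1‖ := hq2
  have h3 : (q.2 : ℝ) ≤ (t.sup Prod.snd : ℕ) := by
    exact_mod_cast Finset.le_sup (f := Prod.snd) hq
  have h4 : 1 / (((t.sup Prod.snd : ℕ) : ℝ) + 1) ≤ 1 / ((q.2 : ℝ) + 1) := by
    exact one_div_le_one_div_of_le (by positivity) (by linarith)
  linarith

theorem agree_of_close (ρ : CMetric (Dual A)) (K : Finset A) (ε : ℝ) (hε : 0 < ε) :
    ∃ δ : ℝ, 0 < δ ∧ ∀ χ ψ : Dual A, ρ.ρ χ ψ < δ → ∀ a ∈ K, ‖χ.toFun a - ψ.toFun a‖ < ε := by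
  classical
  have hcl : IsClosed {p : Dual A × Dual A | ∃ a ∈ K, ε ≤ ‖p.1.toFun a - p.2.toFun a‖} := by
    have : {p : Dual A × Dual A | ∃ a ∈ K, ε ≤ ‖p.1.toFun a - p.2.toFun a‖} =
        ⋃ a ∈ K, {p : Dual A × Dual A | ε ≤ ‖p.1.toFun a - p.2.toFun a‖} := by
      ext p; simp
    rw [this]
    refine isClosed_biUnion_finset fun a _ => ?_
    exact isClosed_le continuous_const
      (((Dual.cont_eval a).comp continuous_fst).sub
        ((Dual.cont_eval a).comp continuous_snd)).norm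
  rcases Set.eq_empty_or_nonempty {p : Dual A × Dual A | ∃ a ∈ K, ε ≤ ‖p.1.toFun a - p.2.toFun a‖}
    with he | hne
  · refine ⟨1, one_pos, fun χ ψ _ a ha => ?_⟩
    by_contra h
    push Not at h
    have : (χ, ψ) ∈ {p : Dual A × Dual A | ∃ a ∈ K, ε ≤ ‖p.1.toFun a - p.2.toFun a‖} := ⟨a, ha, h⟩
    rw [he] at this
    exact this
  · obtain ⟨p, hp, hmin⟩ := hcl.isCompact.exists_isMinOn hne
      (f := fun p : Dual A × Dual A => ρ.ρ p.1 p.2) ρ.cont.continuousOn
    have hpos : 0 < ρ.ρ p.1 p.2 := by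
      rcases eq_or_lt_of_le (ρ.nonneg p.1 p.2) with h | h
      · exfalso
        obtain ⟨a, _, ha⟩ := hp
        rw [ρ.eq_of_zero _ _ h.symm, sub_self, norm_zero] at ha
        linarith
      · exact h
    refine ⟨ρ.ρ p.1 p.2, hpos, fun χ ψ h a ha => ?_⟩
    by_contra hcon
    push Not at hcon
    have h1 : ρ.ρ p.1 p.2 ≤ ρ.ρ χ ψ := hmin (show (χ, ψ) ∈ _ from ⟨a, ha, hcon⟩)
    linarith

theorem leb (U : Set (Set (Dual A))) (hU : IsFinOpenCover U) :
    ∃ K : Finset A, ∃ ε : ℝ, 0 < ε ∧ ∀ S : Set (Dual A), S.Nonempty →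
      (∀ χ ∈ S, ∀ ψ ∈ S, ∀ a ∈ K, ‖χ.toFun a - ψ.toFun a‖ < ε) → ∃ u ∈ U, S ⊆ u := by
  classical
  have h1 : ∀ χ : Dual A, ∃ u ∈ U, ∃ K : Finset A, ∃ ε : ℝ, 0 < ε ∧
      ∀ ψ : Dual A, (∀ a ∈ K, ‖ψ.toFun a - χ.toFun a‖ < 2 * ε) → ψ ∈ u := by
    intro χ
    have hχ : χ ∈ ⋃₀ U := by rw [hU.cover]; trivial
    obtain ⟨u, hu, hχu⟩ := hχ
    refine ⟨u, hu, ?_⟩
    obtain ⟨w, hw, hwu⟩ := isOpen_induced_iff.1 (hU.isOpen u hu)
    have hχw : χ.toFun ∈ w := by rw [← hwu] at hχu; exact hχu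
    obtain ⟨K, v, hv, hvw⟩ := isOpen_pi_iff.1 hw _ hχw
    have h2 : ∀ a : A, ∃ ε : ℝ, 0 < ε ∧ (a ∈ K → Metric.ball (χ.toFun a) ε ⊆ v a) := by
      intro a
      by_cases ha : a ∈ K
      · obtain ⟨ε, hε, hb⟩ := Metric.isOpen_iff.1 (hv a ha).1 _ (hv a ha).2
        exact ⟨ε, hε, fun _ => hb⟩
      · exact ⟨1, one_pos, fun h => absurd h ha⟩
    choose e he heb using h2
    have h3 : ∃ ε : ℝ, 0 < ε ∧ ∀ a ∈ K, 2 * ε ≤ e a := by
      rcases K.eq_empty_or_nonempty with hK | hK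
      · exact ⟨1, one_pos, by simp [hK]⟩
      · refine ⟨K.inf' hK e / 2, ?_, fun a ha => ?_⟩
        · have : 0 < K.inf' hK e := by
            rw [Finset.lt_inf'_iff]
            exact fun a _ => he a
          linarith
        · have := Finset.inf'_le e ha
          linarith
    obtain ⟨ε, hε, hεe⟩ := h3
    refine ⟨K, ε, hε, fun ψ hψ => ?_⟩
    have : ψ.toFun ∈ w := by
      apply hvw
      intro a ha
      apply heb a ha
      rw [Metric.mem_ball, dist_eq_norm]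
      exact (hψ a ha).trans_le (hεe a ha)
    rw [← hwu]
    exact this
  choose u hu K ε hε hK using h1
  have hopen : ∀ χ, IsOpen {ψ : Dual A | ∀ a ∈ K χ, ‖ψ.toFun a - χ.toFun a‖ < ε χ} := by
    intro χ
    have : {ψ : Dual A | ∀ a ∈ K χ, ‖ψ.toFun a - χ.toFun a‖ < ε χ} =
        ⋂ a ∈ K χ, {ψ : Dual A | ‖ψ.toFun a - χ.toFun a‖ < ε χ} := by
      ext p; simp
    rw [this]
    refine isOpen_biInter_finset fun a _ => ?_
    exact isOpen_lt ((Dual.cont_eval a).sub continuous_const).norm continuous_const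
  obtain ⟨t, ht⟩ := (isCompact_univ (X := Dual A)).elim_finite_subcover _ hopen (by
    intro χ _
    exact Set.mem_iUnion.2 ⟨χ, fun a _ => by rw [sub_self, norm_zero]; exact hε χ⟩)
  have h4 : ∃ ε0 : ℝ, 0 < ε0 ∧ ∀ χ ∈ t, ε0 ≤ ε χ := by
    rcases t.eq_empty_or_nonempty with hK | hK
    · exact ⟨1, one_pos, by simp [hK]⟩
    · refine ⟨t.inf' hK ε, ?_, fun a ha => Finset.inf'_le ε ha⟩
      rw [Finset.lt_inf'_iff]
      exact fun a _ => hε a
  obtain ⟨ε0, hε0, hεt⟩ := h4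
  refine ⟨t.biUnion K, ε0, hε0, fun S hS hsm => ?_⟩
  obtain ⟨χ, hχ⟩ := hS
  have := ht (show χ ∈ Set.univ from trivial)
  simp only [Set.mem_iUnion] at this
  obtain ⟨χ0, hχ0, hb⟩ := this
  refine ⟨u χ0, hu χ0, fun ψ hψ => hK χ0 ψ fun a ha => ?_⟩
  have e1 := hb a ha
  have e2 := hsm ψ hψ χ hχ a (Finset.mem_biUnion.2 ⟨χ0, hχ0, ha⟩)
  have e3 := hεt χ0 hχ0
  calc ‖ψ.toFun a - χ0.toFun a‖ = ‖(ψ.toFun a - χ.toFun a) + (χ.toFun a - χ0.toFun a)‖ := by
        rw [sub_add_sub_cancel]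
    _ ≤ ‖ψ.toFun a - χ.toFun a‖ + ‖χ.toFun a - χ0.toFun a‖ := norm_add_le _ _
    _ < 2 * ε χ0 := by linarith

end

section
variable {X : Type} [TopologicalSpace X]

theorem hasCover_exists (U : Set (Set X)) (hU : IsFinOpenCover U) {d : ℕ} (Z : Set (Fin d → X)) :
    ∃ k, HasCover U Z k := by
  classical
  have hfin : U.Finite := hU.finite
  set V : Set (Set (Fin d → X)) := Set.range fun u : Fin d → U =>
    Set.pi Set.univ fun a => (u a : Set X) with hV
  have : Finite U := hfin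
  have hVf : V.Finite := Set.finite_range _
  refine ⟨V.ncard, V, hVf, ?_, ?_, ?_⟩
  · rintro _ ⟨u, rfl⟩
    refine ⟨isOpen_set_pi Set.finite_univ fun a _ => hU.isOpen _ (u a).2,
      fun a => (u a : Set X), fun a => (u a).2, Set.inter_subset_left⟩
  · intro z _
    have h1 : ∀ a, ∃ u : U, z a ∈ (u : Set X) := by
      intro a
      have : z a ∈ ⋃₀ U := by rw [hU.cover]; trivial
      obtain ⟨u, hu, hz⟩ := this
      exact ⟨⟨u, hu⟩, hz⟩
    choose u hu using h1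
    exact ⟨_, ⟨u, rfl⟩, fun a _ => hu a⟩
  · intro z _
    have : {v | v ∈ V ∧ z ∈ v}.ncard ≤ V.ncard := Set.ncard_le_ncard (fun v hv => hv.1) hVf
    omega

theorem le_coverDim (U : Set (Set X)) (hU : IsFinOpenCover U) {d : ℕ} (Z : Set (Fin d → X))
    (hZ : Z.Nonempty) (n : ℕ) (h : ∀ k, HasCover U Z k → n ≤ k) :
    (((n : ℕ) : ℝ) : EReal) ≤ coverDim U Z := by
  unfold coverDim
  rw [if_neg hZ.ne_empty]
  have h1 : HasCover U Z (sInf {k : ℕ | HasCover U Z k}) :=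
    Nat.sInf_mem (s := {k : ℕ | HasCover U Z k}) (hasCover_exists U hU Z)
  exact_mod_cast h _ h1

theorem coverDim_le (U : Set (Set X)) {d : ℕ} (Z : Set (Fin d → X)) (k : ℕ)
    (h : HasCover U Z k) : coverDim U Z ≤ (((k : ℕ) : ℝ) : EReal) := by
  unfold coverDim
  split_ifs with hZ
  · exact bot_le
  · exact_mod_cast Nat.sInf_le (s := {k : ℕ | HasCover U Z k}) h

end

end Pool.Agent.V11111.MD
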