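import Mathlib
import Pool.Agent.V11111.MD.Spec

/-! Local comparison of the operators `N* N` on different `Γ`-like spaces. -/

set_option autoImplicit false

open Matrix Finset
open scoped Pointwise

noncomputable section

namespace Pool.Agent.V11111.MD

section
variable {Γ : Type} [Group Γ] [DecidableEq Γ] {m : ℕ} {κ : Type} [Fintype κ] [DecidableEq κ]
variable {X : Type}

/-- `δ_(x,l) ↦ ∑ c(q,g,l) δ_(x g⁻¹, q)` -/
def Nf (G : Finset Γ) (c : κ → Γ → Fin m → ℤ) (τ : Γ → Equiv.Perm X) :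
    (X × Fin m →₀ ℝ) →ₗ[ℝ] (X × κ →₀ ℝ) :=
  Finsupp.linearCombination ℝ fun p =>
    ∑ g ∈ G, ∑ q : κ, Finsupp.single ((τ g)⁻¹ p.1, q) (c q g p.2 : ℝ)

/-- `δ_(x,q) ↦ ∑ c(q,g,l) δ_(x g, l)` -/
def Nt (G : Finset Γ) (c : κ → Γ → Fin m → ℤ) (τ : Γ → Equiv.Perm X) :
    (X × κ →₀ ℝ) →ₗ[ℝ] (X × Fin m →₀ ℝ) :=
  Finsupp.linearCombination ℝ fun p =>
    ∑ g ∈ G, ∑ l : Fin m, Finsupp.single (τ g p.1, l) (c p.2 g l : ℝ)

/-- `1 - t N* N` -/
def Qf (G : Finset Γ) (c : κ → Γ → Fin m → ℤ) (τ : Γ → Equiv.Perm X) (t : ℝ) :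
    (X × Fin m →₀ ℝ) →ₗ[ℝ] (X × Fin m →₀ ℝ) :=
  LinearMap.id - t • (Nt G c τ ∘ₗ Nf G c τ)

/-- right multiplication -/
def mR (Γ : Type) [Group Γ] : Γ → Equiv.Perm Γ := fun g => Equiv.mulRight g

/-- supported over the set `W` -/
def Sup (W : Finset Γ) {L : Type} (f : Γ × L →₀ ℝ) : Prop := ∀ p ∈ f.support, p.1 ∈ W

/-- the transport of a function by `c : Γ → X` -/
def tp (c : Γ → X) (L : Type) : (Γ × L →₀ ℝ) →ₗ[ℝ] (X × L →₀ ℝ) :=
  Finsupp.lmapDomain ℝ ℝ (fun p : Γ × L => (c p.1, p.2))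

/-- neighbourhoods -/
def nb (G : Finset Γ) : ℕ → Finset Γ
  | 0 => {1}
  | n + 1 => nb G n ∪ (nb G n * G) ∪ (nb G n * G⁻¹)

theorem nb_mul (G : Finset Γ) (n : ℕ) (u g : Γ) (hu : u ∈ nb G n) (hg : g ∈ G) :
    u * g ∈ nb G (n + 1) := by
  simp only [nb, Finset.mem_union]
  exact Or.inl (Or.inr (Finset.mul_mem_mul hu hg))

theorem nb_mul_inv (G : Finset Γ) (n : ℕ) (u g : Γ) (hu : u ∈ nb G n) (hg : g ∈ G) :
    u * g⁻¹ ∈ nb G (n + 1) := by
  simp only [nb, Finset.mem_union]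
  exact Or.inr (Finset.mul_mem_mul hu (Finset.inv_mem_inv hg))

theorem nb_le (G : Finset Γ) (n : ℕ) : nb G n ⊆ nb G (n + 1) := by
  intro u hu
  simp only [nb, Finset.mem_union]
  exact Or.inl (Or.inl hu)

theorem nb_mono (G : Finset Γ) {n k : ℕ} (h : n ≤ k) : nb G n ⊆ nb G k := by
  induction h with
  | refl => exact Finset.Subset.refl _
  | step _ ih => exact ih.trans (nb_le G _)

/-- `c` respects the (partial) right multiplications at the points of `W` -/
def Compat (G : Finset Γ) (τ : Γ → Equiv.Perm X) (W : Finset Γ) (c : Γ → X) : Prop :=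
  ∀ u ∈ W, ∀ g ∈ G, c (u * g) = τ g (c u) ∧ c (u * g⁻¹) = (τ g)⁻¹ (c u)

omit [DecidableEq Γ] in
theorem Sup.zero (W : Finset Γ) {L : Type} : Sup W (0 : Γ × L →₀ ℝ) := by
  intro p hp; simp at hp

omit [DecidableEq Γ] in
theorem Sup.add {W : Finset Γ} {L : Type} {f g : Γ × L →₀ ℝ} (hf : Sup W f) (hg : Sup W g) :
    Sup W (f + g) := by
  classical
  intro p hp
  rcases Finset.mem_union.1 (Finsupp.support_add hp) with h | h
  · exact hf p h
  · exact hg p h

omit [DecidableEq Γ] in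
theorem Sup.smul {W : Finset Γ} {L : Type} {f : Γ × L →₀ ℝ} (hf : Sup W f) (t : ℝ) :
    Sup W (t • f) := by
  intro p hp
  exact hf p (Finsupp.support_smul hp)

omit [DecidableEq Γ] in
theorem Sup.sum {W : Finset Γ} {L : Type} {ι : Type} (s : Finset ι) (f : ι → Γ × L →₀ ℝ)
    (hf : ∀ i ∈ s, Sup W (f i)) : Sup W (∑ i ∈ s, f i) := by
  classical
  induction s using Finset.induction_on with
  | empty => simp only [Finset.sum_empty]; exact Sup.zero W
  | insert a s ha ih =>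
    rw [Finset.sum_insert ha]
    exact (hf a (Finset.mem_insert_self a s)).add
      (ih fun i hi => hf i (Finset.mem_insert_of_mem hi))

omit [DecidableEq Γ] in
theorem Sup.single {W : Finset Γ} {L : Type} (p : Γ × L) (t : ℝ) (hp : p.1 ∈ W) :
    Sup W (Finsupp.single p t) := by
  intro q hq
  have := Finsupp.support_single_subset hq
  rw [Finset.mem_singleton] at this
  rw [this]; exact hp

omit [DecidableEq Γ] in
theorem Sup.mono {W W' : Finset Γ} {L : Type} {f : Γ × L →₀ ℝ} (hf : Sup W f) (h : W ⊆ W') :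
    Sup W' f := fun p hp => h (hf p hp)

omit [DecidableEq Γ] in
theorem lin_eq {W : Finset Γ} {L : Type} {V : Type} [AddCommGroup V] [Module ℝ V]
    (A B : (Γ × L →₀ ℝ) →ₗ[ℝ] V) (h : ∀ p : Γ × L, p.1 ∈ W → A (Finsupp.single p 1) =
      B (Finsupp.single p 1)) (f : Γ × L →₀ ℝ) (hf : Sup W f) : A f = B f := by
  classical
  have e : f = ∑ p ∈ f.support, f p • Finsupp.single p 1 := by
    conv_lhs => rw [← Finsupp.sum_single f]
    rw [Finsupp.sum]
    refine Finset.sum_congr rfl fun p _ => ?_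
    rw [Finsupp.smul_single, smul_eq_mul, mul_one]
  rw [e, map_sum, map_sum]
  refine Finset.sum_congr rfl fun p hp => ?_
  rw [map_smul, map_smul, h p (hf p hp)]

omit [DecidableEq Γ] in
theorem lin_sup {W W' : Finset Γ} {L L' : Type} (A : (Γ × L →₀ ℝ) →ₗ[ℝ] (Γ × L' →₀ ℝ))
    (h : ∀ p : Γ × L, p.1 ∈ W → Sup W' (A (Finsupp.single p 1))) (f : Γ × L →₀ ℝ)
    (hf : Sup W f) : Sup W' (A f) := by
  classical
  have e : f = ∑ p ∈ f.support, f p • Finsupp.single p 1 := by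
    conv_lhs => rw [← Finsupp.sum_single f]
    rw [Finsupp.sum]
    refine Finset.sum_congr rfl fun p _ => ?_
    rw [Finsupp.smul_single, smul_eq_mul, mul_one]
  rw [e, map_sum]
  refine Sup.sum _ _ fun p hp => ?_
  rw [map_smul]
  exact (h p (hf p hp)).smul _

variable (G : Finset Γ) (c : κ → Γ → Fin m → ℤ)

omit [DecidableEq κ] in
theorem Nf_sup (n : ℕ) (f : Γ × Fin m →₀ ℝ) (hf : Sup (nb G n) f) :
    Sup (nb G (n + 1)) (Nf G c (mR Γ) f) := by
  refine lin_sup _ (fun p hp => ?_) f hf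
  rw [Nf, Finsupp.linearCombination_single, one_smul]
  refine Sup.sum _ _ fun g hg => Sup.sum _ _ fun q _ => Sup.single _ _ ?_
  exact nb_mul_inv G n p.1 g hp hg

omit [DecidableEq κ] in
theorem Nt_sup (n : ℕ) (f : Γ × κ →₀ ℝ) (hf : Sup (nb G n) f) :
    Sup (nb G (n + 1)) (Nt G c (mR Γ) f) := by
  refine lin_sup _ (fun p hp => ?_) f hf
  rw [Nt, Finsupp.linearCombination_single, one_smul]
  refine Sup.sum _ _ fun g hg => Sup.sum _ _ fun q _ => Sup.single _ _ ?_
  exact nb_mul G n p.1 g hp hg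

omit [DecidableEq κ] in
theorem Nf_tp (τ : Γ → Equiv.Perm X) (W : Finset Γ) (a : Γ → X) (ha : Compat G τ W a)
    (f : Γ × Fin m →₀ ℝ) (hf : Sup W f) :
    tp a κ (Nf G c (mR Γ) f) = Nf G c τ (tp a (Fin m) f) := by
  refine lin_eq (tp a κ ∘ₗ Nf G c (mR Γ)) (Nf G c τ ∘ₗ tp a (Fin m)) (fun p hp => ?_) f hf
  rw [LinearMap.comp_apply, LinearMap.comp_apply, tp, tp, Nf, Nf,
    Finsupp.linearCombination_single, one_smul, Finsupp.lmapDomain_apply,
    Finsupp.lmapDomain_apply, Finsupp.mapDomain_single, Finsupp.linearCombination_single, one_smul]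
  rw [Finsupp.mapDomain_finsetSum]
  refine Finset.sum_congr rfl fun g hg => ?_
  rw [Finsupp.mapDomain_finsetSum]
  refine Finset.sum_congr rfl fun q _ => ?_
  rw [Finsupp.mapDomain_single]
  congr 2
  exact (ha p.1 hp g hg).2

omit [DecidableEq κ] in
theorem Nt_tp (τ : Γ → Equiv.Perm X) (W : Finset Γ) (a : Γ → X) (ha : Compat G τ W a)
    (f : Γ × κ →₀ ℝ) (hf : Sup W f) :
    tp a (Fin m) (Nt G c (mR Γ) f) = Nt G c τ (tp a κ f) := by
  refine lin_eq (tp a (Fin m) ∘ₗ Nt G c (mR Γ)) (Nt G c τ ∘ₗ tp a κ) (fun p hp => ?_) f hf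
  rw [LinearMap.comp_apply, LinearMap.comp_apply, tp, tp, Nt, Nt,
    Finsupp.linearCombination_single, one_smul, Finsupp.lmapDomain_apply,
    Finsupp.lmapDomain_apply, Finsupp.mapDomain_single, Finsupp.linearCombination_single, one_smul]
  rw [Finsupp.mapDomain_finsetSum]
  refine Finset.sum_congr rfl fun g hg => ?_
  rw [Finsupp.mapDomain_finsetSum]
  refine Finset.sum_congr rfl fun q _ => ?_
  rw [Finsupp.mapDomain_single]
  congr 2
  exact (ha p.1 hp g hg).1

omit [DecidableEq κ] in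
theorem Qf_pow_sup (t : ℝ) (n : ℕ) (l : Fin m) :
    Sup (nb G (2 * n)) ((Qf G c (mR Γ) t ^ n) (Finsupp.single (1, l) 1)) := by
  induction n with
  | zero =>
    exact Sup.single _ _ (by simp [nb])
  | succ n ih =>
    rw [pow_succ', Module.End.mul_apply]
    have h1 := Nf_sup G c _ _ ih
    have h2 := Nt_sup G c _ _ h1
    rw [Qf, LinearMap.sub_apply, LinearMap.id_apply, LinearMap.smul_apply, LinearMap.comp_apply,
      sub_eq_add_neg, ← neg_smul]
    exact (ih.mono (nb_mono G (by omega))).add (h2.smul _)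

omit [DecidableEq κ] in
/-- The powers of `1 - t N* N` at the base point are transported. -/
theorem Qf_pow_tp (t : ℝ) (τ : Γ → Equiv.Perm X) (a : Γ → X) (n : ℕ)
    (ha : Compat G τ (nb G (2 * n)) a) (l : Fin m) :
    tp a (Fin m) ((Qf G c (mR Γ) t ^ n) (Finsupp.single (1, l) 1)) =
      (Qf G c τ t ^ n) (Finsupp.single (a 1, l) 1) := by
  have key : ∀ k, k ≤ n → tp a (Fin m) ((Qf G c (mR Γ) t ^ k) (Finsupp.single (1, l) 1)) =
      (Qf G c τ t ^ k) (Finsupp.single (a 1, l) 1) := by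
    intro k
    induction k with
    | zero =>
      intro _
      simp [tp, Finsupp.lmapDomain_apply, Finsupp.mapDomain_single]
    | succ k ih =>
      intro hk
      rw [pow_succ', pow_succ', Module.End.mul_apply, Module.End.mul_apply, ← ih (by omega)]
      set f := (Qf G c (mR Γ) t ^ k) (Finsupp.single (1, l) 1) with hf
      have hfs : Sup (nb G (2 * k)) f := Qf_pow_sup G c t k l
      have h1 : Compat G τ (nb G (2 * k)) a := fun u hu => ha u (nb_mono G (by omega) hu)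
      have h2 : Compat G τ (nb G (2 * k + 1)) a := fun u hu => ha u (nb_mono G (by omega) hu)
      rw [Qf, Qf, LinearMap.sub_apply, LinearMap.id_apply, LinearMap.smul_apply,
        LinearMap.comp_apply, LinearMap.sub_apply, LinearMap.id_apply, LinearMap.smul_apply,
        LinearMap.comp_apply, map_sub, map_smul, Nt_tp G c τ _ a h2 _ (Nf_sup G c _ _ hfs),
        Nf_tp G c τ _ a h1 _ hfs]
  exact key n le_rfl

/-- sum of squares -/
def ssq {Z : Type} (f : Z →₀ ℝ) : ℝ := ∑ z ∈ f.support, f z ^ 2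

omit [DecidableEq Γ] in
theorem ssq_tp {L : Type} (W : Finset Γ) (a : Γ → X) (ha : Set.InjOn a W) (f : Γ × L →₀ ℝ)
    (hf : Sup W f) : ssq (tp a L f) = ssq f := by
  classical
  have hinj : Set.InjOn (fun p : Γ × L => (a p.1, p.2)) (f.support : Set _) := by
    intro p hp q hq h
    simp only [Prod.mk.injEq] at h
    exact Prod.ext (ha (hf p hp) (hf q hq) h.1) h.2
  unfold ssq tp
  rw [Finsupp.lmapDomain_apply]
  have hs : (Finsupp.mapDomain (fun p : Γ × L => (a p.1, p.2)) f).support =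
      f.support.image (fun p : Γ × L => (a p.1, p.2)) := by
    rw [Finsupp.mapDomain_support_of_injOn _ hinj]
  rw [hs, Finset.sum_image hinj]
  refine Finset.sum_congr rfl fun p hp => ?_
  rw [Finsupp.mapDomain_apply' (f.support : Set _) f subset_rfl hinj hp]

end

end Pool.Agent.V11111.MD
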