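import Mathlib
import Pool.Agent.V11111.MD.FinSide

/-! Limits along the sofic approximation. -/

set_option autoImplicit false

open Matrix Finset Filter Topology
open scoped Pointwise

noncomputable section

namespace Pool.Agent.V11111.MD

variable {Γ : Type} [Group Γ]

theorem Sofic.d_pos (S : Sofic Γ) : ∀ᶠ i in atTop, 0 < S.d i :=
  (S.tendsto.eventually_gt_atTop 0)

theorem Sofic.compl_lim (S : Sofic Γ) (p : (i : ℕ) → Fin (S.d i) → Prop)
    (h : Tendsto (fun i => ({a | p i a}.ncard : ℝ) / S.d i) atTop (𝓝 1)) :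
    Tendsto (fun i => ({a | ¬ p i a}.ncard : ℝ) / S.d i) atTop (𝓝 0) := by
  have h1 : Tendsto (fun i => 1 - ({a | p i a}.ncard : ℝ) / S.d i) atTop (𝓝 (1 - 1)) :=
    h.const_sub 1
  rw [sub_self] at h1
  refine h1.congr' ?_
  filter_upwards [S.d_pos] with i hi
  have h2 := Set.ncard_add_ncard_compl {a | p i a}
  rw [Nat.card_fin] at h2
  have h3 : {a | p i a}ᶜ = {a | ¬ p i a} := rfl
  rw [h3] at h2
  have hd : (0 : ℝ) < S.d i := by exact_mod_cast hi
  rw [eq_div_iff hd.ne', sub_mul, one_mul, div_mul_cancel₀ _ hd.ne']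
  rw [sub_eq_iff_eq_add]
  have : ((({a | p i a}.ncard + {a | ¬ p i a}.ncard : ℕ)) : ℝ) = S.d i := by rw [h2]
  push_cast at this
  linarith

/-- a point is good -/
def Sofic.Good (S : Sofic Γ) (P Q : Finset (Γ × Γ)) (i : ℕ) (a : Fin (S.d i)) : Prop :=
  (∀ p ∈ P, S.σ i (p.1 * p.2) a = S.σ i p.1 (S.σ i p.2 a)) ∧ ∀ p ∈ Q, S.σ i p.1 a ≠ S.σ i p.2 a

theorem Sofic.bad_lim (S : Sofic Γ) (P Q : Finset (Γ × Γ)) (hQ : ∀ p ∈ Q, p.1 ≠ p.2) :
    Tendsto (fun i => ({a | ¬ S.Good P Q i a}.ncard : ℝ) / S.d i) atTop (𝓝 0) := by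
  have h1 : Tendsto (fun i => ∑ p ∈ P, ({a | ¬ S.σ i (p.1 * p.2) a =
      S.σ i p.1 (S.σ i p.2 a)}.ncard : ℝ) / S.d i + ∑ p ∈ Q, ({a | ¬ S.σ i p.1 a ≠
      S.σ i p.2 a}.ncard : ℝ) / S.d i) atTop (𝓝 (∑ p ∈ P, 0 + ∑ p ∈ Q, 0)) := by
    refine Tendsto.add (tendsto_finsetSum _ fun p _ => ?_) (tendsto_finsetSum _ fun p hp => ?_)
    · exact S.compl_lim (fun i a => S.σ i (p.1 * p.2) a = S.σ i p.1 (S.σ i p.2 a)) (S.mul p.1 p.2)
    · exact S.compl_lim (fun i a => S.σ i p.1 a ≠ S.σ i p.2 a) (S.free p.1 p.2 (hQ p hp))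
  rw [Finset.sum_const_zero, Finset.sum_const_zero, add_zero] at h1
  refine squeeze_zero (fun i => by positivity) (fun i => ?_) h1
  rw [← Finset.sum_div, ← Finset.sum_div, ← add_div]
  have hsub : {a | ¬ S.Good P Q i a} ⊆ (⋃ p ∈ P, {a | ¬ S.σ i (p.1 * p.2) a =
      S.σ i p.1 (S.σ i p.2 a)}) ∪ (⋃ p ∈ Q, {a | ¬ S.σ i p.1 a ≠ S.σ i p.2 a}) := by
    intro a ha
    simp only [Sofic.Good, Set.mem_ofPred_eq, not_and_or] at ha
    rcases ha with h | h
    · left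
      push Not at h
      obtain ⟨p, hp, hpa⟩ := h
      exact Set.mem_biUnion hp hpa
    · right
      push Not at h
      obtain ⟨p, hp, hpa⟩ := h
      exact Set.mem_biUnion hp (by simpa using hpa)
  have hU : ∀ (R : Finset (Γ × Γ)) (F : Γ × Γ → Set (Fin (S.d i))),
      ((⋃ p ∈ R, F p).ncard : ℝ) ≤ ∑ p ∈ R, ((F p).ncard : ℝ) := by
    intro R F
    have : (⋃ p ∈ R, F p).ncard ≤ ∑ p ∈ R, (F p).ncard := by
      classical
      induction R using Finset.induction_on with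
      | empty => simp
      | insert x R hx ih =>
        rw [Finset.set_biUnion_insert, Finset.sum_insert hx]
        exact (Set.ncard_union_le _ _).trans (Nat.add_le_add_left ih _)
    exact_mod_cast this
  gcongr
  calc (({a | ¬ S.Good P Q i a}.ncard : ℕ) : ℝ) ≤ (((⋃ p ∈ P, {a | ¬ S.σ i (p.1 * p.2) a =
      S.σ i p.1 (S.σ i p.2 a)}) ∪ (⋃ p ∈ Q, {a | ¬ S.σ i p.1 a ≠ S.σ i p.2 a})).ncard : ℝ) := by
        exact_mod_cast Set.ncard_le_ncard hsub
    _ ≤ ((⋃ p ∈ P, {a | ¬ S.σ i (p.1 * p.2) a =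
      S.σ i p.1 (S.σ i p.2 a)}).ncard : ℝ) + ((⋃ p ∈ Q, {a | ¬ S.σ i p.1 a ≠
        S.σ i p.2 a}).ncard : ℝ) := by exact_mod_cast Set.ncard_union_le _ _
    _ ≤ _ := add_le_add (hU _ _) (hU _ _)

/-- the twisted action used on the finite sets -/
def Sofic.tau (S : Sofic Γ) (i : ℕ) : Γ → Equiv.Perm (Fin (S.d i)) := fun g => S.σ i g⁻¹

/-- the pairs needed for multiplicativity -/
def pairsP [DecidableEq Γ] (W G : Finset Γ) : Finset (Γ × Γ) :=
  insert (1, 1) (((G ×ˢ W).image fun p => (p.1⁻¹, p.2⁻¹)) ∪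
    ((G ×ˢ W).image fun p => (p.1⁻¹, p.1 * p.2⁻¹)))

/-- the pairs needed for freeness -/
def pairsQ [DecidableEq Γ] (W : Finset Γ) : Finset (Γ × Γ) :=
  ((W ×ˢ W).filter fun p => p.1 ≠ p.2).image fun p => (p.1⁻¹, p.2⁻¹)

theorem pairsQ_ne [DecidableEq Γ] (W : Finset Γ) : ∀ p ∈ pairsQ W, p.1 ≠ p.2 := by
  intro p hp
  obtain ⟨q, hq, rfl⟩ := Finset.mem_image.1 hp
  have := (Finset.mem_filter.1 hq).2
  simpa using this

theorem Sofic.good_spec [DecidableEq Γ] (S : Sofic Γ) (G W : Finset Γ) (i : ℕ)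
    (j : Fin (S.d i)) (hj : S.Good (pairsP W G) (pairsQ W) i j) :
    Compat G (S.tau i) W (fun u => S.σ i u⁻¹ j) ∧ Set.InjOn (fun u => S.σ i u⁻¹ j) W ∧
      S.σ i (1 : Γ)⁻¹ j = j := by
  refine ⟨?_, ?_, ?_⟩
  · intro u hu g hg
    constructor
    · have := hj.1 (g⁻¹, u⁻¹) (by
        rw [pairsP, Finset.mem_insert, Finset.mem_union]
        exact Or.inr (Or.inl (Finset.mem_image.2 ⟨(g, u), Finset.mem_product.2 ⟨hg, hu⟩, rfl⟩)))
      simp only [_root_.mul_inv_rev, Sofic.tau]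
      exact this
    · have := hj.1 (g⁻¹, g * u⁻¹) (by
        rw [pairsP, Finset.mem_insert, Finset.mem_union]
        exact Or.inr (Or.inr (Finset.mem_image.2 ⟨(g, u), Finset.mem_product.2 ⟨hg, hu⟩, rfl⟩)))
      simp only [inv_mul_cancel_left] at this
      simp only [_root_.mul_inv_rev, inv_inv, Sofic.tau]
      rw [Equiv.Perm.eq_inv_iff_eq]
      exact this.symm
  · intro u hu v hv h
    by_contra hne
    refine hj.2 (u⁻¹, v⁻¹) ?_ h
    exact Finset.mem_image.2 ⟨(u, v), Finset.mem_filter.2 ⟨Finset.mem_product.2 ⟨hu, hv⟩, hne⟩, rfl⟩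
  · have := hj.1 (1, 1) (by rw [pairsP]; exact Finset.mem_insert_self _ _)
    simp only [mul_one] at this
    rw [inv_one]
    exact ((S.σ i 1).injective this).symm

variable {m : ℕ} {κ : Type} [Fintype κ] [DecidableEq κ]

/-- `‖(1 - N*N / C)^n δ_(1,l)‖²` -/
def beta [DecidableEq Γ] (G : Finset Γ) (c : κ → Γ → Fin m → ℤ) (n : ℕ) (l : Fin m) : ℝ :=
  ssq ((Qf G c (mR Γ) (Cb G c)⁻¹ ^ n) (Finsupp.single (1, l) 1))

/-- `Tr (1 - M*M / C)^(2n) / d` -/
def trn (S : Sofic Γ) (G : Finset Γ) (c : κ → Γ → Fin m → ℤ) (n i : ℕ) : ℝ :=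
  (∑ p, ∑ y, ((((1 - (Cb G c)⁻¹ • ((Rm G c (S.tau i))ᵀ * Rm G c (S.tau i))) ^ n) *ᵥ
    Pi.single p 1) y) ^ 2) / S.d i

theorem ssq_nonneg {Z : Type} (f : Z →₀ ℝ) : 0 ≤ ssq f := Finset.sum_nonneg fun _ _ => sq_nonneg _

theorem trn_lim [DecidableEq Γ] (S : Sofic Γ) (G : Finset Γ) (c : κ → Γ → Fin m → ℤ) (n : ℕ) :
    Tendsto (fun i => trn S G c n i) atTop (𝓝 (∑ l, beta G c n l)) := by
  classical
  have h0 := S.bad_lim (pairsP (nb G (2 * n)) G) (pairsQ (nb G (2 * n))) (pairsQ_ne _)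
  have h1 := h0.mul_const (∑ l : Fin m, (1 + beta G c n l))
  rw [zero_mul] at h1
  rw [tendsto_iff_norm_sub_tendsto_zero]
  refine squeeze_zero' (Eventually.of_forall fun _ => norm_nonneg _) ?_ h1
  filter_upwards [S.d_pos] with i hi
  have hd : (0 : ℝ) < S.d i := by exact_mod_cast hi
  set A : Fin (S.d i) × Fin m → ℝ := fun p =>
    ∑ y, ((((1 - (Cb G c)⁻¹ • ((Rm G c (S.tau i))ᵀ * Rm G c (S.tau i))) ^ n) *ᵥ
    Pi.single p 1) y) ^ 2 with hA
  have e1 : trn S G c n i - ∑ l, beta G c n l =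
      (∑ j : Fin (S.d i), ∑ l, (A (j, l) - beta G c n l)) / S.d i := by
    have : trn S G c n i = (∑ p, A p) / S.d i := rfl
    rw [this, Fintype.sum_prod_type]
    simp only [Finset.sum_sub_distrib, Finset.sum_const, Finset.card_univ, Fintype.card_fin,
      nsmul_eq_mul]
    field_simp
  have hgood : ∀ j, S.Good (pairsP (nb G (2 * n)) G) (pairsQ (nb G (2 * n))) i j → ∀ l,
      A (j, l) = beta G c n l := by
    intro j hj l
    obtain ⟨g1, g2, g3⟩ := S.good_spec G _ i j hj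
    rw [hA]
    simp only
    rw [Rm_ssq, beta]
    have h2 := Qf_pow_tp G c (Cb G c)⁻¹ (S.tau i) (fun u => S.σ i u⁻¹ j) n g1 l
    rw [g3] at h2
    rw [← h2]
    exact ssq_tp _ _ g2 _ (Qf_pow_sup G c _ n l)
  rw [e1, Real.norm_eq_abs, abs_div, abs_of_pos hd, div_mul_eq_mul_div]
  apply div_le_div_of_nonneg_right _ hd.le
  calc |∑ j : Fin (S.d i), ∑ l, (A (j, l) - beta G c n l)|
      ≤ ∑ j : Fin (S.d i), |∑ l, (A (j, l) - beta G c n l)| := Finset.abs_sum_le_sum_abs _ _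
    _ ≤ ∑ j : Fin (S.d i), if S.Good (pairsP (nb G (2 * n)) G) (pairsQ (nb G (2 * n))) i j then 0
        else ∑ l : Fin m, (1 + beta G c n l) := by
        refine Finset.sum_le_sum fun j _ => ?_
        by_cases hj : S.Good (pairsP (nb G (2 * n)) G) (pairsQ (nb G (2 * n))) i j
        · rw [if_pos hj]
          simp only [hgood j hj, sub_self, Finset.sum_const_zero, abs_zero, le_refl]
        · rw [if_neg hj]
          refine (Finset.abs_sum_le_sum_abs _ _).trans (Finset.sum_le_sum fun l _ => ?_)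
          have a1 : A (j, l) ≤ 1 := Rm_ssq_le G c (S.tau i) n (j, l)
          have a0 : 0 ≤ A (j, l) := Finset.sum_nonneg fun _ _ => sq_nonneg _
          have b0 : 0 ≤ beta G c n l := ssq_nonneg _
          rw [abs_le]
          constructor <;> linarith
    _ = ({a | ¬ S.Good (pairsP (nb G (2 * n)) G) (pairsQ (nb G (2 * n))) i a}.ncard : ℝ) *
        ∑ l : Fin m, (1 + beta G c n l) := by
        rw [Finset.sum_ite, Finset.sum_const_zero, zero_add, Finset.sum_const, nsmul_eq_mul,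
          Set.ncard_eq_toFinset_card']
        congr 3
        ext a
        simp

end Pool.Agent.V11111.MD
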