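import Mathlib
import Pool.Agent.V11111.MD.VN

/-! The von Neumann-Lück rank in terms of the relations. -/

set_option autoImplicit false

open scoped InnerProductSpace InnerProduct ENNReal ComplexConjugate
open Filter Topology
open Pool.Agent.H919R3.L2

noncomputable section

namespace Pool.Agent.V11111.MD

section
variable {Γ : Type} [Group Γ] {m : ℕ} {A : Type} [AddCommGroup A] [Module (MonoidAlgebra ℤ Γ) A]

theorem gr_one : (gr (1 : Γ) : MonoidAlgebra ℤ Γ) = 1 := by
  unfold gr; exact map_one _

theorem gr_mul (g h : Γ) : gr (g * h) = gr g * gr h := by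
  unfold gr; exact map_mul _ _ _

/-- `v ↦ ∑ v(g,l) g a_l` -/
def phi (a : Fin m → A) : (Γ × Fin m →₀ ℤ) →ₗ[ℤ] A :=
  Finsupp.linearCombination ℤ fun p => gr p.1 • a p.2

theorem phi_single (a : Fin m → A) (p : Γ × Fin m) (z : ℤ) :
    phi a (Finsupp.single p z) = z • (gr p.1 • a p.2) := by
  rw [phi, Finsupp.linearCombination_single]

/-- translation -/
def shift (k : Γ) : (Γ × Fin m →₀ ℤ) →ₗ[ℤ] (Γ × Fin m →₀ ℤ) :=
  Finsupp.lmapDomain ℤ ℤ fun p => (k * p.1, p.2)

theorem shift_single (k : Γ) (p : Γ × Fin m) (z : ℤ) :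
    shift k (Finsupp.single p z) = Finsupp.single (k * p.1, p.2) z := by
  rw [shift, Finsupp.lmapDomain_apply, Finsupp.mapDomain_single]

theorem phi_shift (a : Fin m → A) (k : Γ) (v : Γ × Fin m →₀ ℤ) :
    phi a (shift k v) = gr k • phi a v := by
  induction v using Finsupp.induction_linear with
  | zero => simp
  | add f g hf hg => rw [map_add, map_add, map_add, smul_add, hf, hg]
  | single p z =>
    rw [shift_single, phi_single, phi_single, gr_mul, mul_smul, smul_comm z]

theorem phi_surj (a : Fin m → A) (ha : Submodule.span (MonoidAlgebra ℤ Γ) (Set.range a) = ⊤) :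
    Function.Surjective (phi (Γ := Γ) a) := by
  intro x
  have hx : x ∈ Submodule.span (MonoidAlgebra ℤ Γ) (Set.range a) := by rw [ha]; trivial
  induction hx using Submodule.span_induction with
  | mem x hx =>
    obtain ⟨l, rfl⟩ := hx
    exact ⟨Finsupp.single (1, l) 1, by rw [phi_single, gr_one, one_smul, one_smul]⟩
  | zero => exact ⟨0, map_zero _⟩
  | add x y _ _ hx hy =>
    obtain ⟨v, rfl⟩ := hx
    obtain ⟨w, rfl⟩ := hy
    exact ⟨v + w, map_add _ _ _⟩
  | smul r x _ hx =>
    obtain ⟨v, rfl⟩ := hx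
    induction r using MonoidAlgebra.induction_on with
    | of g =>
      exact ⟨shift g v, phi_shift a g v⟩
    | add r s hr hs =>
      obtain ⟨v1, h1⟩ := hr
      obtain ⟨v2, h2⟩ := hs
      exact ⟨v1 + v2, by rw [map_add, h1, h2, add_smul]⟩
    | smul z r hr =>
      obtain ⟨v1, h1⟩ := hr
      exact ⟨z • v1, by rw [map_smul, h1, smul_assoc]⟩

/-- the row over `L(Γ)` -/
def hat : (Γ × Fin m →₀ ℤ) →ₗ[ℤ] (Fin m → LG Γ) :=
  Finsupp.linearCombination ℤ fun p => Pi.single p.2 (lam p.1)

theorem hat_single (p : Γ × Fin m) (z : ℤ) :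
    hat (Finsupp.single p z) = z • (Pi.single p.2 (lam p.1) : Fin m → LG Γ) := by
  rw [hat, Finsupp.linearCombination_single]

/-- the vector in `ℓ²` -/
def embZ : (Γ × Fin m →₀ ℤ) →ₗ[ℤ] EE Γ (Fin m) :=
  Finsupp.linearCombination ℤ fun p => dl p

theorem embZ_single (p : Γ × Fin m) (z : ℤ) :
    embZ (Finsupp.single p z) = z • (dl p : EE Γ (Fin m)) := by
  rw [embZ, Finsupp.linearCombination_single]

/-- `vec` as an additive map -/
def vecH {I : Type} [Fintype I] : (I → LG Γ) →+ EE Γ I where
  toFun := vec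
  map_zero' := vec_zero
  map_add' := vec_add

theorem vec_hat (v : Γ × Fin m →₀ ℤ) : vec (hat v) = embZ v := by
  change vecH (hat v) = embZ v
  induction v using Finsupp.induction_linear with
  | zero => simp
  | add f g hf hg => rw [map_add, map_add, map_add, hf, hg]
  | single p z =>
    rw [hat_single, embZ_single, map_zsmul]
    congr 1
    exact vec_single p.2 p.1

theorem tr_embZ (k : Γ) (v : Γ × Fin m →₀ ℤ) : tr k (embZ v) = embZ (shift k v) := by
  let T : EE Γ (Fin m) →+ EE Γ (Fin m) :=
    { toFun := tr k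
      map_zero' := by
        have := tr_smul k (0 : ℂ) (0 : EE Γ (Fin m))
        simpa using this
      map_add' := tr_add k }
  change T (embZ v) = embZ (shift k v)
  induction v using Finsupp.induction_linear with
  | zero => simp
  | add f g hf hg => rw [map_add, map_add, map_add, map_add, hf, hg]
  | single p z =>
    rw [embZ_single, shift_single, embZ_single, map_zsmul]
    congr 1
    exact tr_dl k p.1 p.2

/-- the class `1 ⊗ a` -/
def br (Γ : Type) [Group Γ] {A : Type} [AddCommGroup A] [Module (MonoidAlgebra ℤ Γ) A] (a : A) :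
    Ind Γ A := Submodule.Quotient.mk (Finsupp.single a 1)

theorem br_add (a b : A) : br Γ (a + b) = br Γ a + br Γ b := by
  unfold br
  rw [← Submodule.Quotient.mk_add, Submodule.Quotient.eq, ← sub_sub]
  exact Submodule.subset_span (Or.inl ⟨a, b, rfl⟩)

theorem br_smul (g : Γ) (a : A) : br Γ (gr g • a) = lam g • br Γ a := by
  unfold br
  rw [← Submodule.Quotient.mk_smul, Submodule.Quotient.eq, Finsupp.smul_single, smul_eq_mul, mul_one]
  exact Submodule.subset_span (Or.inr ⟨g, a, rfl⟩)

/-- `br` as an additive map -/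
def brH (Γ : Type) [Group Γ] {A : Type} [AddCommGroup A] [Module (MonoidAlgebra ℤ Γ) A] :
    A →+ Ind Γ A where
  toFun := br Γ
  map_zero' := by
    have := br_add (Γ := Γ) (0 : A) 0
    rw [add_zero] at this
    exact left_eq_add.1 this
  map_add' := br_add

theorem ind_mul_smul {M : Type} [AddCommGroup M] [Module (LG Γ) M] (x y : LG Γ) (b : M) :
    (x * y) • b = x • y • b := (LinearMap.toSpanSingleton (LG Γ) M b).map_smul x y

/-- the projection `L(Γ)^m → L(Γ) ⊗ A` -/
def piA (a : Fin m → A) : (Fin m → LG Γ) →ₗ[LG Γ] Ind Γ A where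
  toFun v := ∑ l, v l • br Γ (a l)
  map_add' v w := by
    rw [← Finset.sum_add_distrib]
    exact Finset.sum_congr rfl fun l _ => by rw [Pi.add_apply, add_smul]
  map_smul' x v := by
    rw [RingHom.id_apply, Finset.smul_sum]
    exact Finset.sum_congr rfl fun l _ => ind_mul_smul x (v l) (br Γ (a l))

theorem piA_apply (a : Fin m → A) (v : Fin m → LG Γ) : piA a v = ∑ l, v l • br Γ (a l) := rfl

theorem piA_single (a : Fin m → A) (l : Fin m) (x : LG Γ) :
    piA a (Pi.single l x) = x • br Γ (a l) := by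
  rw [piA_apply, Finset.sum_eq_single l]
  · rw [Pi.single_eq_same]
  · intro j _ hj
    rw [Pi.single_eq_of_ne hj, zero_smul]
  · simp

theorem piA_hat (a : Fin m → A) (v : Γ × Fin m →₀ ℤ) : piA a (hat v) = br Γ (phi a v) := by
  change piA a (hat v) = brH Γ (phi a v)
  induction v using Finsupp.induction_linear with
  | zero => simp
  | add f g hf hg => rw [map_add, map_add, map_add, map_add, hf, hg]
  | single p z =>
    rw [hat_single, phi_single, map_zsmul, map_zsmul, piA_single]
    congr 1
    exact (br_smul p.1 (a p.2)).symm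

theorem piA_surj (a : Fin m → A) (ha : Function.Surjective (phi (Γ := Γ) a)) :
    Function.Surjective (piA (Γ := Γ) a) := by
  intro y
  obtain ⟨t, rfl⟩ := Submodule.Quotient.mk_surjective _ y
  induction t using Finsupp.induction_linear with
  | zero => exact ⟨0, by rw [map_zero]; rfl⟩
  | add f g hf hg =>
    obtain ⟨v, hv⟩ := hf
    obtain ⟨w, hw⟩ := hg
    exact ⟨v + w, by rw [map_add, hv, hw]; rfl⟩
  | single b x =>
    obtain ⟨v, rfl⟩ := ha b
    refine ⟨x • hat v, ?_⟩
    rw [map_smul, piA_hat]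
    unfold br
    rw [← Submodule.Quotient.mk_smul, Finsupp.smul_single, smul_eq_mul, mul_one]

/-- the closed span of the relations -/
def Ksub (a : Fin m → A) : Submodule ℂ (EE Γ (Fin m)) :=
  (Submodule.span ℂ {F | ∃ v, phi a v = 0 ∧ F = embZ v}).topologicalClosure

instance (a : Fin m → A) : CompleteSpace (Ksub (Γ := Γ) a) :=
  (Submodule.isClosed_topologicalClosure _).completeSpace_coe

theorem embZ_mem (a : Fin m → A) (v : Γ × Fin m →₀ ℤ) (hv : phi a v = 0) :
    embZ v ∈ Ksub (Γ := Γ) a :=
  Submodule.le_topologicalClosure _ (Submodule.subset_span ⟨v, hv, rfl⟩)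

theorem mem_Korth (a : Fin m → A) (F : EE Γ (Fin m)) :
    F ∈ (Ksub (Γ := Γ) a)ᗮ ↔ ∀ v, phi a v = 0 → ⟪embZ v, F⟫_ℂ = 0 := by
  rw [Ksub, Submodule.orthogonal_closure, Submodule.mem_orthogonal]
  constructor
  · intro h v hv
    exact h _ (Submodule.subset_span ⟨v, hv, rfl⟩)
  · intro h u hu
    induction hu using Submodule.span_induction with
    | mem x hx =>
      obtain ⟨v, hv, rfl⟩ := hx
      exact h v hv
    | zero => exact inner_zero_left _
    | add x y _ _ hx hy => rw [inner_add_left, hx, hy, add_zero]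
    | smul c x _ hx => rw [inner_smul_left, hx, mul_zero]

theorem Korth_tr (a : Fin m → A) (k : Γ) (F : EE Γ (Fin m)) (hF : F ∈ (Ksub (Γ := Γ) a)ᗮ) :
    tr k F ∈ (Ksub (Γ := Γ) a)ᗮ := by
  rw [mem_Korth] at hF ⊢
  intro v hv
  have h1 : ⟪embZ v, tr k F⟫_ℂ = ⟪tr k⁻¹ (embZ v), F⟫_ℂ := by
    rw [inner_tr_left, inv_inv]
  rw [h1, tr_embZ]
  exact hF _ (by rw [phi_shift, hv, smul_zero])

theorem Eqv_proj {I : Type} (K : Submodule ℂ (EE Γ I)) [K.HasOrthogonalProjection]
    (hK : ∀ (k : Γ) (F : EE Γ I), F ∈ K → tr k F ∈ K) : Eqv K.starProjection := by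
  intro k F
  apply Submodule.eq_starProjection_of_mem_of_inner_eq_zero
  · exact hK k _ (Submodule.starProjection_apply_mem _ _)
  · intro w hw
    rw [← tr_sub', inner_tr_left]
    exact Submodule.starProjection_inner_eq_zero F _ (hK _ _ hw)

/-- the projection to the orthogonal complement of the relations -/
def PK (Γ : Type) [Group Γ] {m : ℕ} {A : Type} [AddCommGroup A] [Module (MonoidAlgebra ℤ Γ) A]
    (a : Fin m → A) : EE Γ (Fin m) →L[ℂ] EE Γ (Fin m) := (Ksub (Γ := Γ) a)ᗮ.starProjection

theorem PK_eqv (a : Fin m → A) : Eqv (PK Γ a) := Eqv_proj _ (Korth_tr a)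

theorem PK_zero (a : Fin m → A) (F : EE Γ (Fin m)) (hF : F ∈ Ksub (Γ := Γ) a) : PK Γ a F = 0 := by
  unfold PK
  rw [Submodule.starProjection_apply_eq_zero_iff]
  exact Submodule.le_orthogonal_orthogonal _ hF

theorem PK_idem (a : Fin m → A) (F : EE Γ (Fin m)) : PK Γ a (PK Γ a F) = PK Γ a F := by
  unfold PK
  exact Submodule.starProjection_eq_self_iff.2 (Submodule.starProjection_apply_mem _ _)

/-- the rank -/
def bA (Γ : Type) [Group Γ] {m : ℕ} {A : Type} [AddCommGroup A] [Module (MonoidAlgebra ℤ Γ) A]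
    (a : Fin m → A) : ℝ := ∑ l : Fin m, ‖PK Γ a (dl ((1 : Γ), l))‖ ^ 2

/-- the kernel of `piA` maps into the closed span of the relations -/
theorem piA_ker (a : Fin m → A) (ha : Function.Surjective (phi (Γ := Γ) a)) (w : Fin m → LG Γ)
    (hw : piA a w = 0) : PK Γ a (vec w) = 0 := by
  classical
  choose s hs using ha
  -- the additive map on the free module
  let Ψ0 : A → (LG Γ →+ EE Γ (Fin m)) := fun b =>
    { toFun := fun x => act x (PK Γ a (embZ (s b)))
      map_zero' := act_zero _
      map_add' := fun x y => act_add x y _ }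
  let Ψ : (A →₀ LG Γ) →+ EE Γ (Fin m) := Finsupp.liftAddHom Ψ0
  have hΨs : ∀ b x, Ψ (Finsupp.single b x) = act x (PK Γ a (embZ (s b))) := by
    intro b x
    exact Finsupp.liftAddHom_apply_single Ψ0 b x
  have hΨm : ∀ (x : LG Γ) (t : A →₀ LG Γ), Ψ (x • t) = act x (Ψ t) := by
    intro x t
    induction t using Finsupp.induction_linear with
    | zero => simp
    | add f g hf hg => rw [smul_add, map_add, hf, hg, map_add, map_add]
    | single b y => rw [Finsupp.smul_single, smul_eq_mul, hΨs, hΨs, act_mul]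
  have hrel : ∀ t ∈ relSub Γ A, Ψ t = 0 := by
    intro t ht
    induction ht using Submodule.span_induction with
    | zero => exact map_zero _
    | add x y _ _ hx hy => rw [map_add, hx, hy, add_zero]
    | smul x t _ h => rw [hΨm, h, map_zero]
    | mem t ht =>
      rcases ht with ⟨b, c, rfl⟩ | ⟨g, b, rfl⟩
      · rw [map_sub, map_sub, hΨs, hΨs, hΨs, act_one, act_one, act_one, ← map_sub, ← map_sub]
        apply PK_zero
        rw [← map_sub, ← map_sub]
        apply embZ_mem
        rw [map_sub, map_sub, hs, hs, hs]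
        abel
      · rw [map_sub, hΨs, hΨs, act_one, act_comm (lam g) (PK Γ a) (PK_eqv a), act_lam, tr_embZ,
          ← map_sub]
        apply PK_zero
        rw [← map_sub]
        apply embZ_mem
        rw [map_sub, hs, phi_shift, hs, sub_self]
  have e1 : piA a w = Submodule.Quotient.mk (∑ l, Finsupp.single (a l) (w l)) := by
    rw [piA_apply]
    have : ∀ l, w l • br Γ (a l) = Submodule.Quotient.mk (Finsupp.single (a l) (w l)) := by
      intro l
      unfold br
      rw [← Submodule.Quotient.mk_smul, Finsupp.smul_single, smul_eq_mul, mul_one]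
    simp only [this]
    exact (map_sum (relSub Γ A).mkQ _ _).symm
  rw [e1, Submodule.Quotient.mk_eq_zero] at hw
  have h2 := hrel _ hw
  rw [map_sum] at h2
  simp only [hΨs] at h2
  have h3 : ∀ l, PK Γ a (embZ (s (a l))) = PK Γ a (dl (1, l)) := by
    intro l
    rw [← sub_eq_zero, ← map_sub]
    apply PK_zero
    have : (dl (1, l) : EE Γ (Fin m)) = embZ (Finsupp.single (1, l) 1) := by
      rw [embZ_single, one_smul]
    rw [this, ← map_sub]
    apply embZ_mem
    rw [map_sub, hs, phi_single, gr_one, one_smul, one_smul, sub_self]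
  have h4 : vec w = ∑ l, act (w l) (dl ((1 : Γ), l)) := by
    have : ∀ l, act (w l) (dl ((1 : Γ), l) : EE Γ (Fin m)) = vecH (Pi.single l (w l)) := by
      intro l
      rw [← vec_single_one, act_vec]
      change vec _ = vec _
      congr 1
      rw [← Pi.single_smul, smul_eq_mul, mul_one]
    simp only [this]
    rw [← map_sum, Finset.univ_sum_single]
    rfl
  rw [h4, map_sum, ← h2]
  refine Finset.sum_congr rfl fun l _ => ?_
  rw [h3, act_comm (w l) (PK Γ a) (PK_eqv a)]

theorem ge_aux (a : Fin m → A) (ha : Function.Surjective (phi (Γ := Γ) a)) :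
    ENNReal.ofReal (bA Γ a) ≤ vr Γ A := by
  apply le_sSup
  set e := toM (PK Γ a) (PK_eqv a) with he
  have hOp : ∀ v, vec (Matrix.vecMul v e) = PK Γ a (vec v) := by
    intro v
    rw [← Op_vec, he, Op_toM]
  refine ⟨m, e, ?_, ?_, ?_⟩
  · funext i
    apply vec_inj
    have h1 : (e * e) i = Matrix.vecMul (e i) e := by
      funext j
      rw [Matrix.mul_apply]
      rfl
    rw [h1, hOp, he, vec_toM, PK_idem]
  · refine ⟨(piA a).comp (Matrix.vecMulLinear e), fun v => ?_⟩
    rw [LinearMap.comp_apply, Matrix.vecMulLinear_apply]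
    constructor
    · intro h
      have h1 : PK Γ a (vec (Matrix.vecMul v e)) = 0 := piA_ker a ha _ h
      rw [hOp, PK_idem, ← hOp] at h1
      apply vec_inj
      rw [vec_zero]
      exact h1
    · intro h
      have h1 : piA a (Matrix.vecMul v e) = piA a 0 := congrArg (piA a) h
      rw [map_zero] at h1
      exact h1
  · congr 1
    rw [bA, mtr, Complex.re_sum]
    refine Finset.sum_congr rfl fun l _ => ?_
    rw [vtr_eq, ← sl_vec, he, vec_toM, sl_val, ← inner_dl_left]
    rw [PK]
    exact (norm_sq_star _ _)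

end

end Pool.Agent.V11111.MD
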