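import Mathlib
import Pool.Agent.V11111.MD.VU2
import Pool.Agent.V11111.MD.FD

/-! The rank as a limit, and the link with the finite side. -/

set_option autoImplicit false

open scoped InnerProductSpace InnerProduct ENNReal ComplexConjugate
open Filter Topology
open Pool.Agent.H919R3.L2

noncomputable section

namespace Pool.Agent.V11111.MD

section
variable {Γ : Type} [Group Γ] {m : ℕ} {A : Type} [AddCommGroup A] [Module (MonoidAlgebra ℤ Γ) A]
  {κ : Type} [Fintype κ]

theorem Korth_le_kr (a : Fin m → A) (row : κ → (Γ × Fin m →₀ ℤ)) (hrow : ∀ q, phi a (row q) = 0) :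
    (Ksub (Γ := Γ) a)ᗮ ≤ kr (ContinuousLinearMap.adjoint (Op (HM row))) := by
  intro F hF
  rw [mem_kr]
  ext ⟨k, q⟩
  rw [← inner_dl_left, ContinuousLinearMap.adjoint_inner_right, Op_HM,
    (mem_Korth a F).1 hF _ (by rw [phi_shift, hrow, smul_zero])]
  rfl

theorem bA_le_nu (a : Fin m → A) (row : κ → (Γ × Fin m →₀ ℤ)) (hrow : ∀ q, phi a (row q) = 0) :
    bA Γ a ≤ nu (ContinuousLinearMap.adjoint (Op (HM row))) := by
  refine Finset.sum_le_sum fun l _ => ?_
  have := proj_norm_le _ _ (Korth_le_kr a row hrow) (dl ((1 : Γ), l))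
  unfold PK
  gcongr

theorem span_fin (a : Fin m → A) (w : EE Γ (Fin m))
    (hw : w ∈ Submodule.span ℂ {F | ∃ v, phi a v = 0 ∧ F = embZ v}) :
    ∃ s : Finset (Γ × Fin m →₀ ℤ), (∀ v ∈ s, phi a v = 0) ∧
      w ∈ Submodule.span ℂ (embZ '' (s : Set (Γ × Fin m →₀ ℤ))) := by
  classical
  induction hw using Submodule.span_induction with
  | mem x hx =>
    obtain ⟨v, hv, rfl⟩ := hx
    refine ⟨{v}, by simpa using hv, Submodule.subset_span ⟨v, by simp, rfl⟩⟩
  | zero => exact ⟨∅, by simp, Submodule.zero_mem _⟩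
  | add x y _ _ hx hy =>
    obtain ⟨s, hs1, hs2⟩ := hx
    obtain ⟨t, ht1, ht2⟩ := hy
    refine ⟨s ∪ t, ?_, Submodule.add_mem _ ?_ ?_⟩
    · intro v hv
      rcases Finset.mem_union.1 hv with h | h
      · exact hs1 v h
      · exact ht1 v h
    · exact Submodule.span_mono (Set.image_mono (by simp)) hs2
    · exact Submodule.span_mono (Set.image_mono (by simp)) ht2
  | smul c x _ hx =>
    obtain ⟨s, hs1, hs2⟩ := hx
    exact ⟨s, hs1, Submodule.smul_mem _ _ hs2⟩

theorem exists_rows (a : Fin m → A) (η : ℝ) (hη : 0 < η) :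
    ∃ s : Finset (Γ × Fin m →₀ ℤ), (∀ v ∈ s, phi a v = 0) ∧
      nu (ContinuousLinearMap.adjoint (Op (HM (fun v : s => v.1)))) ≤ bA Γ a + η := by
  classical
  set ε : ℝ := min 1 (η / (3 * (m + 1))) with hε
  have hε0 : 0 < ε := lt_min one_pos (by positivity)
  have hε1 : ε ≤ 1 := min_le_left _ _
  have hεη : m * (3 * ε) ≤ η := by
    have h1 : ε ≤ η / (3 * (m + 1)) := min_le_right _ _
    rw [le_div_iff₀ (by positivity)] at h1
    nlinarith
  have h1 : ∀ l : Fin m, ∃ s : Finset (Γ × Fin m →₀ ℤ), ∃ w : EE Γ (Fin m),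
      (∀ v ∈ s, phi a v = 0) ∧ w ∈ Submodule.span ℂ (embZ '' (s : Set (Γ × Fin m →₀ ℤ))) ∧
      ‖(Ksub (Γ := Γ) a).starProjection (dl (1, l)) - w‖ < ε := by
    intro l
    have h2 : (Ksub (Γ := Γ) a).starProjection (dl (1, l)) ∈
        closure ((Submodule.span ℂ {F | ∃ v, phi (Γ := Γ) a v = 0 ∧ F = embZ v} :
          Submodule ℂ (EE Γ (Fin m))) : Set (EE Γ (Fin m))) := by
      rw [← Submodule.topologicalClosure_coe]
      exact Submodule.starProjection_apply_mem (Ksub (Γ := Γ) a) _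
    rw [Metric.mem_closure_iff] at h2
    obtain ⟨w, hw, hd⟩ := h2 ε hε0
    obtain ⟨s, hs1, hs2⟩ := span_fin a w hw
    exact ⟨s, w, hs1, hs2, by rwa [dist_eq_norm] at hd⟩
  choose s w hs hw hd using h1
  set t : Finset (Γ × Fin m →₀ ℤ) := Finset.univ.biUnion s with ht
  have ht0 : ∀ v ∈ t, phi a v = 0 := by
    intro v hv
    obtain ⟨l, _, hl⟩ := Finset.mem_biUnion.1 hv
    exact hs l v hl
  refine ⟨t, ht0, ?_⟩
  set H := Op (HM (fun v : t => v.1)) with hH
  have hrange : ∀ l, w l ∈ LinearMap.range (H : EE Γ t →ₗ[ℂ] EE Γ (Fin m)) := by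
    intro l
    have h2 : Submodule.span ℂ (embZ '' (s l : Set (Γ × Fin m →₀ ℤ))) ≤
        LinearMap.range (H : EE Γ t →ₗ[ℂ] EE Γ (Fin m)) := by
      rw [Submodule.span_le]
      rintro _ ⟨v, hv, rfl⟩
      have hvt : v ∈ t := Finset.mem_biUnion.2 ⟨l, Finset.mem_univ l, hv⟩
      refine ⟨dl (1, ⟨v, hvt⟩), ?_⟩
      have h3 : H (dl (1, ⟨v, hvt⟩)) = embZ (shift 1 v) := Op_HM (fun v : t => v.1) 1 ⟨v, hvt⟩
      have h4 : embZ (shift (1 : Γ) v) = (embZ v : EE Γ (Fin m)) := by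
        rw [← tr_embZ, tr_one]
      rw [h4] at h3
      exact h3
    exact h2 (hw l)
  have hzero : ∀ l, (kr (ContinuousLinearMap.adjoint H)).starProjection (w l) = 0 := by
    intro l
    obtain ⟨y, hy⟩ := hrange l
    have hy' : H y = w l := hy
    rw [← inner_self_eq_zero (𝕜 := ℂ), inner_proj _ _ _ (Submodule.starProjection_apply_mem _ _),
      ← hy', ← ContinuousLinearMap.adjoint_inner_right,
      (mem_kr _ _).1 (Submodule.starProjection_apply_mem _ _), inner_zero_right]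
  have hb : ∀ l, ‖(kr (ContinuousLinearMap.adjoint H)).starProjection (dl ((1 : Γ), l))‖ ≤
      ‖PK Γ a (dl ((1 : Γ), l))‖ + ε := by
    intro l
    have e1 : (kr (ContinuousLinearMap.adjoint H)).starProjection (dl ((1 : Γ), l)) =
        (kr (ContinuousLinearMap.adjoint H)).starProjection (dl ((1 : Γ), l) - w l) := by
      rw [map_sub, hzero, sub_zero]
    have e2 : (dl ((1 : Γ), l) : EE Γ (Fin m)) - w l = PK Γ a (dl ((1 : Γ), l)) +
        ((Ksub (Γ := Γ) a).starProjection (dl (1, l)) - w l) := by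
      unfold PK
      rw [Submodule.starProjection_orthogonal_val]
      abel
    rw [e1]
    refine (Submodule.norm_starProjection_apply_le _ _).trans ?_
    rw [e2]
    exact (norm_add_le _ _).trans (add_le_add le_rfl (hd l).le)
  have hP1 : ∀ l, ‖PK Γ a (dl ((1 : Γ), l))‖ ≤ 1 := by
    intro l
    have := Submodule.norm_starProjection_apply_le (Ksub (Γ := Γ) a)ᗮ (dl ((1 : Γ), l))
    rwa [norm_dl] at this
  calc nu (ContinuousLinearMap.adjoint H)
      ≤ ∑ l : Fin m, (‖PK Γ a (dl ((1 : Γ), l))‖ ^ 2 + 3 * ε) := by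
        refine Finset.sum_le_sum fun l _ => ?_
        have h1 := hb l
        have h2 := hP1 l
        have h0 : 0 ≤ ‖PK Γ a (dl ((1 : Γ), l))‖ := norm_nonneg _
        calc _ ≤ (‖PK Γ a (dl ((1 : Γ), l))‖ + ε) ^ 2 := by gcongr
          _ ≤ _ := by nlinarith
    _ = bA Γ a + m * (3 * ε) := by
        rw [Finset.sum_add_distrib, bA]; simp
    _ ≤ _ := by linarith

theorem vr_eq (a : Fin m → A) (ha : Function.Surjective (phi (Γ := Γ) a)) :
    vr Γ A = ENNReal.ofReal (bA Γ a) := by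
  refine le_antisymm ?_ (ge_aux a ha)
  refine sSup_le ?_
  rintro r ⟨n, e, he, ⟨f, hf⟩, rfl⟩
  apply ENNReal.ofReal_le_ofReal
  refine le_of_forall_pos_le_add fun η hη => ?_
  obtain ⟨s, hs1, hs2⟩ := exists_rows (Γ := Γ) a η hη
  exact (mtr_le a ha (fun v : s => v.1) (fun v => hs1 v.1 v.2) e he f hf).trans hs2

end

end Pool.Agent.V11111.MD
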