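import Mathlib
import Pool.Agent.V11111.MD.VU3

/-! The link between the moments on the group and the operators on `ℓ²`. -/

set_option autoImplicit false

open scoped InnerProductSpace InnerProduct ENNReal ComplexConjugate
open Filter Topology
open Pool.Agent.H919R3.L2

noncomputable section

namespace Pool.Agent.V11111.MD

section
variable {Γ : Type} [Group Γ] {m : ℕ} {A : Type} [AddCommGroup A] [Module (MonoidAlgebra ℤ Γ) A]
  {κ : Type} [Fintype κ]

/-- the real vectors -/
def emb (Γ L : Type) : (Γ × L →₀ ℝ) →+ EE Γ L :=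
  Finsupp.liftAddHom fun p =>
    { toFun := fun t => (t : ℂ) • (dl p : EE Γ L)
      map_zero' := by simp
      map_add' := fun s t => by push_cast; rw [add_smul] }

theorem emb_single {L : Type} (p : Γ × L) (t : ℝ) :
    emb Γ L (Finsupp.single p t) = (t : ℂ) • (dl p : EE Γ L) := by
  unfold emb
  exact Finsupp.liftAddHom_apply_single _ _ _

theorem emb_smul {L : Type} (t : ℝ) (f : Γ × L →₀ ℝ) : emb Γ L (t • f) = (t : ℂ) • emb Γ L f := by
  induction f using Finsupp.induction_linear with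
  | zero => simp
  | add f g hf hg => rw [smul_add, map_add, hf, hg, map_add, smul_add]
  | single p z =>
    rw [Finsupp.smul_single, emb_single, emb_single, smul_smul, smul_eq_mul, Complex.ofReal_mul]

theorem dl_val {L : Type} (p x : Γ × L) [Decidable (p = x)] :
    (dl p : EE Γ L) x = if p = x then 1 else 0 := by
  by_cases h : p = x
  · rw [if_pos h, h, dl_apply_self]
  · rw [if_neg h, dl_apply_ne _ _ (Ne.symm h)]

theorem emb_val {L : Type} (f : Γ × L →₀ ℝ) (x : Γ × L) : (emb Γ L f : EE Γ L) x = (f x : ℂ) := by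
  classical
  induction f using Finsupp.induction_linear with
  | zero => rw [map_zero]; simp
  | add f g hf hg =>
    rw [map_add, Finsupp.add_apply, Complex.ofReal_add, ← hf, ← hg]; rfl
  | single p z =>
    rw [emb_single, Finsupp.single_apply]
    have : ((z : ℂ) • (dl p : EE Γ L)) x = (z : ℂ) * (dl p : EE Γ L) x := rfl
    rw [this, dl_val]
    split_ifs <;> simp

theorem embZ_val (v : Γ × Fin m →₀ ℤ) (x : Γ × Fin m) :
    (embZ v : EE Γ (Fin m)) x = (v x : ℂ) := by
  classical
  induction v using Finsupp.induction_linear with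
  | zero => rw [map_zero]; simp
  | add f g hf hg =>
    rw [map_add, Finsupp.add_apply, Int.cast_add, ← hf, ← hg]; rfl
  | single p z =>
    rw [embZ_single, Finsupp.single_apply]
    have : (z • (dl p : EE Γ (Fin m))) x = (z : ℂ) * (dl p : EE Γ (Fin m)) x := by
      rw [← Int.cast_smul_eq_zsmul ℂ]; rfl
    rw [this, dl_val]
    split_ifs <;> simp

theorem shift_val (k : Γ) (v : Γ × Fin m →₀ ℤ) (x : Γ × Fin m) :
    shift k v x = v (k⁻¹ * x.1, x.2) := by
  classical
  induction v using Finsupp.induction_linear with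
  | zero => simp
  | add f g hf hg => rw [map_add, Finsupp.add_apply, Finsupp.add_apply, hf, hg]
  | single p z =>
    rw [shift_single, Finsupp.single_apply, Finsupp.single_apply]
    have : (k * p.1, p.2) = x ↔ p = (k⁻¹ * x.1, x.2) := by
      constructor
      · intro h
        rw [← h]; simp
      · intro h
        rw [h]; simp
    simp only [this]

theorem norm_emb {L : Type} (f : Γ × L →₀ ℝ) : ‖emb Γ L f‖ ^ 2 = ssq f := by
  have h2 : ‖emb Γ L f‖ ^ 2 = ∑' x, ‖(emb Γ L f : EE Γ L) x‖ ^ 2 := by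
    have := lp.norm_rpow_eq_tsum (p := 2) (by norm_num) (emb Γ L f)
    simpa using this
  rw [h2]
  have h3 : ∀ x, ‖(emb Γ L f : EE Γ L) x‖ ^ 2 = f x ^ 2 := by
    intro x
    rw [emb_val, Complex.norm_real, Real.norm_eq_abs, sq_abs]
  simp only [h3]
  rw [tsum_eq_sum (s := f.support)]
  · rfl
  · intro x hx
    rw [Finsupp.notMem_support_iff.1 hx]; norm_num

variable [DecidableEq Γ] [DecidableEq κ] (G : Finset Γ) (c : κ → Γ → Fin m → ℤ)
  (row : κ → (Γ × Fin m →₀ ℤ)) (hc : ∀ q g l, c q g l = row q (g, l))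
  (hG : ∀ q, ∀ p ∈ (row q).support, p.1 ∈ G)

include hc hG

omit [Fintype κ] [DecidableEq κ] in
theorem sum_G (q : κ) (l : Fin m) (y : Γ) (F : Γ → ℝ) (hF : ∀ g, F g = if g = y then 1 else 0) :
    ∑ g ∈ G, F g * (c q g l : ℝ) = (row q (y, l) : ℝ) := by
  have h1 : ∀ g ∈ G, F g * (c q g l : ℝ) = if g = y then (row q (y, l) : ℝ) else 0 := by
    intro g _
    rw [hF]
    split_ifs with h
    · rw [h, hc, one_mul]
    · rw [zero_mul]
  rw [Finset.sum_congr rfl h1, Finset.sum_ite_eq']
  split_ifs with h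
  · rfl
  · have : (y, l) ∉ (row q).support := fun h' => h (hG q _ h')
    rw [Finsupp.notMem_support_iff.1 this]; simp

theorem Nf_val (x k : Γ) (l : Fin m) (q : κ) :
    (Nf G c (mR Γ) (Finsupp.single (x, l) 1)) (k, q) = (row q (k⁻¹ * x, l) : ℝ) := by
  rw [Nf, Finsupp.linearCombination_single, one_smul, Finsupp.finset_sum_apply,
    ← sum_G G c row hc hG q l (k⁻¹ * x) (fun g => if g = k⁻¹ * x then 1 else 0) (fun g => rfl)]
  refine Finset.sum_congr rfl fun g _ => ?_
  rw [Finsupp.finset_sum_apply, Finset.sum_eq_single q]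
  · rw [Finsupp.single_apply]
    have : ((((mR Γ g)⁻¹ x, q) : Γ × κ) = (k, q)) ↔ g = k⁻¹ * x := by
      rw [Prod.mk.injEq, and_iff_left rfl, Equiv.Perm.inv_eq_iff_eq]
      unfold mR
      rw [Equiv.coe_mulRight]
      constructor
      · intro h; rw [h]; group
      · intro h; rw [h]; group
    simp only [this]
    split_ifs <;> simp
  · intro q' _ hq'
    rw [Finsupp.single_apply, if_neg]
    intro h; exact hq' (Prod.mk.inj h).2
  · simp

theorem Nt_val (x k : Γ) (l : Fin m) (q : κ) :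
    (Nt G c (mR Γ) (Finsupp.single (x, q) 1)) (k, l) = (row q (x⁻¹ * k, l) : ℝ) := by
  rw [Nt, Finsupp.linearCombination_single, one_smul, Finsupp.finset_sum_apply,
    ← sum_G G c row hc hG q l (x⁻¹ * k) (fun g => if g = x⁻¹ * k then 1 else 0) (fun g => rfl)]
  refine Finset.sum_congr rfl fun g _ => ?_
  rw [Finsupp.finset_sum_apply, Finset.sum_eq_single l]
  · rw [Finsupp.single_apply]
    have : (((mR Γ g x, l) : Γ × Fin m) = (k, l)) ↔ g = x⁻¹ * k := by
      rw [Prod.mk.injEq, and_iff_left rfl]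
      unfold mR
      rw [Equiv.coe_mulRight]
      constructor
      · intro h; rw [← h]; group
      · intro h; rw [h]; group
    simp only [this]
    split_ifs <;> simp
  · intro l' _ hl'
    rw [Finsupp.single_apply, if_neg]
    intro h; exact hl' (Prod.mk.inj h).2
  · simp

theorem Nf_emb (f : Γ × Fin m →₀ ℝ) :
    ContinuousLinearMap.adjoint (Op (HM row)) (emb Γ (Fin m) f) = emb Γ κ (Nf G c (mR Γ) f) := by
  induction f using Finsupp.induction_linear with
  | zero => simp
  | add f g hf hg => simp only [map_add, hf, hg]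
  | single p z =>
    have h1 : (Finsupp.single p z : Γ × Fin m →₀ ℝ) = z • Finsupp.single p 1 := by
      rw [Finsupp.smul_single, smul_eq_mul, mul_one]
    rw [h1, emb_smul, map_smul, map_smul, emb_smul]
    congr 1
    ext ⟨k, q⟩
    rw [emb_val, emb_single, Complex.ofReal_one, one_smul, ← inner_dl_left (k, q),
      ContinuousLinearMap.adjoint_inner_right, Op_HM, inner_dl_right, embZ_val, shift_val]
    obtain ⟨x, l⟩ := p
    rw [Nf_val G c row hc hG]
    simp

theorem Nt_emb (f : Γ × κ →₀ ℝ) :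
    Op (HM row) (emb Γ κ f) = emb Γ (Fin m) (Nt G c (mR Γ) f) := by
  induction f using Finsupp.induction_linear with
  | zero => simp
  | add f g hf hg => simp only [map_add, hf, hg]
  | single p z =>
    have h1 : (Finsupp.single p z : Γ × κ →₀ ℝ) = z • Finsupp.single p 1 := by
      rw [Finsupp.smul_single, smul_eq_mul, mul_one]
    rw [h1, emb_smul, map_smul, map_smul, emb_smul]
    congr 1
    ext ⟨k, l⟩
    obtain ⟨x, q⟩ := p
    rw [emb_val, emb_single, Complex.ofReal_one, one_smul, Op_HM, embZ_val, shift_val,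
      Nt_val G c row hc hG]
    simp

theorem Qf_emb (t : ℝ) (n : ℕ) (f : Γ × Fin m →₀ ℝ) :
    (QQ (ContinuousLinearMap.adjoint (Op (HM row))) t ^ n) (emb Γ (Fin m) f) =
      emb Γ (Fin m) ((Qf G c (mR Γ) t ^ n) f) := by
  induction n generalizing f with
  | zero => simp
  | succ n ih =>
    rw [pow_succ, pow_succ, ContinuousLinearMap.mul_apply, Module.End.mul_apply, ← ih]
    congr 1
    rw [QQ_apply, ContinuousLinearMap.adjoint_adjoint, Nf_emb G c row hc hG, Nt_emb G c row hc hG,
      Qf, LinearMap.sub_apply, LinearMap.id_apply, LinearMap.smul_apply, LinearMap.comp_apply,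
      map_sub, emb_smul]

theorem beta_eq (n : ℕ) (l : Fin m) :
    beta G c n l = ‖(QQ (ContinuousLinearMap.adjoint (Op (HM row))) (Cb G c)⁻¹ ^ n)
      (dl ((1 : Γ), l))‖ ^ 2 := by
  have h1 : (dl ((1 : Γ), l) : EE Γ (Fin m)) = emb Γ (Fin m) (Finsupp.single (1, l) 1) := by
    rw [emb_single, Complex.ofReal_one, one_smul]
  rw [h1, Qf_emb G c row hc hG, norm_emb]
  rfl

theorem sl_N (F : EE Γ (Fin m)) (q : κ) :
    sl q (ContinuousLinearMap.adjoint (Op (HM row)) F) =
      ∑ p ∈ G ×ˢ (Finset.univ : Finset (Fin m)),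
        (c q p.1 p.2 : ℂ) • comp (Equiv.mulRight p.1) (sl p.2 F) := by
  apply Ell.ext'
  intro k
  rw [sl_val, val_sum, ← inner_dl_left (k, q), ContinuousLinearMap.adjoint_inner_right, Op_HM]
  simp only [val_smul, comp_val, sl_val, Equiv.coe_mulRight]
  have h1 : ∀ v : Γ × Fin m →₀ ℤ, ⟪(embZ (shift k v) : EE Γ (Fin m)), F⟫_ℂ =
      v.sum fun p z => (z : ℂ) * F (k * p.1, p.2) := by
    intro v
    induction v using Finsupp.induction_linear with
    | zero => simp
    | add f g hf hg =>
      rw [map_add, map_add, inner_add_left, hf, hg, Finsupp.sum_add_index']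
      · intro p; simp
      · intro p z w; push_cast; ring
    | single p z =>
      rw [shift_single, embZ_single, Finsupp.sum_single_index (by simp),
        ← Int.cast_smul_eq_zsmul ℂ, inner_smul_left, inner_dl_left]
      simp
  rw [h1, Finsupp.sum_of_support_subset (s := G ×ˢ (Finset.univ : Finset (Fin m)))]
  · refine Finset.sum_congr rfl fun p _ => ?_
    rw [hc]
  · intro p hp
    exact Finset.mem_product.2 ⟨hG q p hp, Finset.mem_univ _⟩
  · intro p _; simp

theorem N_bound (F : EE Γ (Fin m)) :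
    ‖ContinuousLinearMap.adjoint (Op (HM row)) F‖ ^ 2 ≤ Cb G c * ‖F‖ ^ 2 := by
  have hcomp : ∀ (e : Γ ≃ Γ) (f : Ell Γ), ‖comp e f‖ = ‖f‖ := by
    intro e f
    have h := inner_comp e f f
    rw [inner_self_eq_norm_sq_to_K, inner_self_eq_norm_sq_to_K] at h
    have h2 : ‖comp e f‖ ^ 2 = ‖f‖ ^ 2 := by exact_mod_cast h
    exact (sq_eq_sq₀ (norm_nonneg _) (norm_nonneg _)).1 h2
  have h1 : ∀ q : κ, ‖sl q (ContinuousLinearMap.adjoint (Op (HM row)) F)‖ ^ 2 ≤
      (∑ g ∈ G, ∑ l : Fin m, (c q g l : ℝ) ^ 2) * (G.card * ‖F‖ ^ 2) := by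
    intro q
    rw [sl_N G c row hc hG]
    have h2 : ‖∑ p ∈ G ×ˢ (Finset.univ : Finset (Fin m)),
        (c q p.1 p.2 : ℂ) • comp (Equiv.mulRight p.1) (sl p.2 F)‖ ≤
        ∑ p ∈ G ×ˢ (Finset.univ : Finset (Fin m)), |(c q p.1 p.2 : ℝ)| * ‖sl p.2 F‖ := by
      refine (norm_sum_le _ _).trans (Finset.sum_le_sum fun p _ => ?_)
      rw [norm_smul, hcomp]
      apply le_of_eq
      congr 1
      rw [Complex.norm_intCast]
    have h3 := Finset.sum_mul_sq_le_sq_mul_sq (G ×ˢ (Finset.univ : Finset (Fin m)))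
      (fun p => |(c q p.1 p.2 : ℝ)|) (fun p => ‖sl p.2 F‖)
    calc _ ≤ (∑ p ∈ G ×ˢ (Finset.univ : Finset (Fin m)), |(c q p.1 p.2 : ℝ)| * ‖sl p.2 F‖) ^ 2 := by
          gcongr
      _ ≤ _ := h3
      _ = _ := by
          simp only [sq_abs, Finset.sum_product]
          congr 1
          rw [Finset.sum_const, nsmul_eq_mul, norm_sq_sl F]
  rw [norm_sq_sl (ContinuousLinearMap.adjoint (Op (HM row)) F)]
  refine (Finset.sum_le_sum fun q _ => h1 q).trans ?_
  rw [← Finset.sum_mul]
  unfold Cb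
  have : 0 ≤ ‖F‖ ^ 2 := sq_nonneg _
  nlinarith

theorem beta_ge (n : ℕ) : nu (ContinuousLinearMap.adjoint (Op (HM row))) ≤ ∑ l, beta G c n l := by
  refine Finset.sum_le_sum fun l _ => ?_
  rw [beta_eq G c row hc hG]
  exact QQ_ge _ _ _ _

theorem beta_lim : Tendsto (fun n => ∑ l, beta G c n l) atTop
    (𝓝 (nu (ContinuousLinearMap.adjoint (Op (HM row))))) := by
  unfold nu
  refine tendsto_finsetSum _ fun l _ => ?_
  simp only [beta_eq G c row hc hG]
  exact QQ_lim _ (Cb G c) (lt_of_lt_of_le one_pos (one_le_Cb G c)) (N_bound G c row hc hG) _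

end

end Pool.Agent.V11111.MD
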