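import Mathlib
import Pool.Agent.V11111.MD.Top
import Pool.Agent.V11111.MD.VB
import Pool.Agent.V11111.MD.Cov

/-! The lower bound for the mean dimension. -/

set_option autoImplicit false

open Filter Topology Set

noncomputable section

namespace Pool.Agent.V11111.MD

section
variable {L A Q : Type} [AddCommGroup L] [AddCommGroup A] [AddCommGroup Q] [Module ℝ Q]

theorem ext_div (p : L →+ A) (q : L →+ Q) (h : ∀ v, p v = 0 → q v = 0) :
    ∃ f : A →+ Q, ∀ v, f (p v) = q v := by
  let _ : DivisibleBy Q ℤ :=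
    { div := fun x n => (n : ℝ)⁻¹ • x
      div_zero := fun x => by simp
      div_cancel := fun {n} x hn => by
        rw [← Int.cast_smul_eq_zsmul ℝ, smul_smul, mul_inv_cancel₀ (by exact_mod_cast hn),
          one_smul] }
  have hB : Module.Baer ℤ Q := Module.Baer.of_divisible Q
  obtain ⟨f, hf⟩ := hB.extension_property_addMonoidHom (QuotientAddGroup.kerLift p)
    (QuotientAddGroup.kerLift_injective p) (QuotientAddGroup.lift p.ker q (fun v hv => h v hv))
  refine ⟨f, fun v => ?_⟩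
  have := DFunLike.congr_fun hf (QuotientAddGroup.mk v)
  exact this

end

section
variable {Γ : Type} [Group Γ] {m : ℕ} {A : Type} [AddCommGroup A] [Module (MonoidAlgebra ℤ Γ) A]

/-- the vectors supported over `E` -/
def supE (m : ℕ) (E : Finset Γ) : Submodule ℤ (Γ × Fin m →₀ ℤ) :=
  Finsupp.supported ℤ ℤ {p : Γ × Fin m | p.1 ∈ E}

omit [Group Γ] in
theorem mem_supE (E : Finset Γ) (v : Γ × Fin m →₀ ℤ) :
    v ∈ supE m E ↔ ∀ p ∈ v.support, p.1 ∈ E := by
  unfold supE
  rw [Finsupp.mem_supported]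
  rfl

theorem exists_gen (a : Fin m → A) (E : Finset Γ) : ∃ s : Finset (Γ × Fin m →₀ ℤ),
    (∀ v ∈ s, phi a v = 0 ∧ v ∈ supE m E) ∧
    ∀ v, phi a v = 0 → v ∈ supE m E → v ∈ Submodule.span ℤ (s : Set (Γ × Fin m →₀ ℤ)) := by
  classical
  have hfin : Finite {p : Γ × Fin m | p.1 ∈ E} := by
    have : {p : Γ × Fin m | p.1 ∈ E} = ((E ×ˢ (Finset.univ : Finset (Fin m)) : Finset _) : Set _) := by
      ext p; simp
    rw [this]
    exact Finset.finite_toSet _
  have hN : IsNoetherian ℤ (supE m E) :=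
    isNoetherian_of_linearEquiv (Finsupp.supportedEquivFinsupp (R := ℤ) (M := ℤ)
      {p : Γ × Fin m | p.1 ∈ E}).symm
  obtain ⟨t, ht⟩ := hN.noetherian (Submodule.comap (supE m E).subtype (LinearMap.ker (phi a)))
  refine ⟨t.image (supE m E).subtype, ?_, ?_⟩
  · intro v hv
    obtain ⟨w, hw, rfl⟩ := Finset.mem_image.1 hv
    have h1 : w ∈ Submodule.comap (supE m E).subtype (LinearMap.ker (phi a)) := by
      rw [← ht]; exact Submodule.subset_span hw
    exact ⟨h1, w.2⟩
  · intro v hv hvE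
    have h1 : (⟨v, hvE⟩ : supE m E) ∈ Submodule.span ℤ (t : Set (supE m E)) := by
      rw [ht]; exact hv
    have h2 := Submodule.mem_map_of_mem (f := (supE m E).subtype) h1
    rw [Submodule.map_span] at h2
    rw [Finset.coe_image]
    exact h2

/-- the coordinates of the kernel -/
def evW {d : ℕ} (W : Submodule ℝ (Fin d × Fin m → ℝ)) (y : Fin d × Fin m) : W →ₗ[ℝ] ℝ :=
  (LinearMap.proj y).comp W.subtype

/-- the pairing -/
def qq {d : ℕ} (τ : Γ → Equiv.Perm (Fin d)) (W : Submodule ℝ (Fin d × Fin m → ℝ)) :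
    (Γ × Fin m →₀ ℤ) →ₗ[ℤ] (Fin d → (W →ₗ[ℝ] ℝ)) :=
  Finsupp.linearCombination ℤ fun p j => evW W (τ p.1 j, p.2)

theorem qq_apply {d : ℕ} (τ : Γ → Equiv.Perm (Fin d)) (W : Submodule ℝ (Fin d × Fin m → ℝ))
    (v : Γ × Fin m →₀ ℤ) (j : Fin d) (x : W) :
    qq τ W v j x = v.sum fun p z => (z : ℝ) * x.1 (τ p.1 j, p.2) := by
  induction v using Finsupp.induction_linear with
  | zero => simp
  | add f g hf hg =>
    rw [map_add, Pi.add_apply, LinearMap.add_apply, hf, hg, Finsupp.sum_add_index']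
    · intro p; simp
    · intro p z w; push_cast; ring
  | single p z =>
    rw [Finsupp.sum_single_index (by simp), qq, Finsupp.linearCombination_single, Pi.smul_apply,
      LinearMap.smul_apply, ← Int.cast_smul_eq_zsmul ℝ, smul_eq_mul]
    rfl

theorem qq_shift {d : ℕ} (τ : Γ → Equiv.Perm (Fin d)) (W : Submodule ℝ (Fin d × Fin m → ℝ))
    (k : Γ) (v : Γ × Fin m →₀ ℤ) (j : Fin d) (x : W) :
    qq τ W (shift k v) j x = v.sum fun p z => (z : ℝ) * x.1 (τ (k * p.1) j, p.2) := by
  induction v using Finsupp.induction_linear with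
  | zero => simp
  | add f g hf hg =>
    rw [map_add, map_add, Pi.add_apply, LinearMap.add_apply, hf, hg, Finsupp.sum_add_index']
    · intro p; simp
    · intro p z w; push_cast; ring
  | single p z =>
    rw [Finsupp.sum_single_index (by simp), shift_single, qq, Finsupp.linearCombination_single,
      Pi.smul_apply, LinearMap.smul_apply, ← Int.cast_smul_eq_zsmul ℝ, smul_eq_mul]
    rfl

/-- the coefficients of the rows -/
def cf (s : Finset (Γ × Fin m →₀ ℤ)) : s → Γ → Fin m → ℤ := fun q g l => q.1 (g, l)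

/-- the kernel of the relations -/
def Wk {d : ℕ} (τ : Γ → Equiv.Perm (Fin d)) (E : Finset Γ) (s : Finset (Γ × Fin m →₀ ℤ)) :
    Submodule ℝ (Fin d × Fin m → ℝ) := LinearMap.ker (Rm E (cf s) τ).mulVecLin

theorem exists_f {d : ℕ} (τ : Γ → Equiv.Perm (Fin d)) (a : Fin m → A) (E : Finset Γ)
    (s : Finset (Γ × Fin m →₀ ℤ)) (hs1 : ∀ v ∈ s, phi a v = 0 ∧ v ∈ supE m E)
    (hs2 : ∀ v, phi a v = 0 → v ∈ supE m E → v ∈ Submodule.span ℤ (s : Set (Γ × Fin m →₀ ℤ))) :
    ∃ f : A →+ (Fin d → (Wk τ E s →ₗ[ℝ] ℝ)), ∀ v ∈ supE m E, f (phi a v) = qq τ (Wk τ E s) v := by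
  obtain ⟨f, hf⟩ := ext_div (L := supE m E) (A := A) (Q := Fin d → (Wk τ E s →ₗ[ℝ] ℝ))
    ((phi a).domRestrict (supE m E)).toAddMonoidHom
    ((qq τ (Wk τ E s)).domRestrict (supE m E)).toAddMonoidHom (by
      rintro ⟨v, hv⟩ h0
      have h0' : phi a v = 0 := h0
      change qq τ (Wk τ E s) v = 0
      have h1 := hs2 v h0' hv
      clear h0 h0' hv
      induction h1 using Submodule.span_induction with
      | zero => exact map_zero _
      | add x y _ _ hx hy => rw [map_add, hx, hy, add_zero]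
      | smul z x _ hx => rw [map_smul, hx, smul_zero]
      | mem v hv =>
        have hv' : v ∈ s := hv
        funext j
        ext x
        rw [qq_apply]
        have h2 : (Rm E (cf s) τ).mulVec x.1 (j, ⟨v, hv'⟩) = 0 := by
          have : (Rm E (cf s) τ).mulVecLin x.1 = 0 := x.2
          exact congrFun this _
        rw [Rm_mulVec] at h2
        rw [Finsupp.sum_of_support_subset (s := E ×ˢ (Finset.univ : Finset (Fin m))) _ _ _
          (fun p _ => by simp)]
        · rw [Finset.sum_product]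
          exact h2
        · intro p hp
          exact Finset.mem_product.2 ⟨(mem_supE E v).1 (hs1 v hv').2 p hp, Finset.mem_univ _⟩)
  exact ⟨f, fun v hv => hf ⟨v, hv⟩⟩

/-- the map into the dual group -/
def Phi {d : ℕ} {W : Submodule ℝ (Fin d × Fin m → ℝ)} (f : A →+ (Fin d → (W →ₗ[ℝ] ℝ))) (x : W)
    (j : Fin d) : Dual A where
  toFun b := ((f b j x : ℝ) : AddCircle (1 : ℝ))
  add b c := by
    rw [map_add, Pi.add_apply, LinearMap.add_apply, AddCircle.coe_add]

theorem Phi_cont {d : ℕ} {W : Submodule ℝ (Fin d × Fin m → ℝ)} (f : A →+ (Fin d → (W →ₗ[ℝ] ℝ))) :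
    Continuous (Phi f) := by
  refine continuous_pi fun j => continuous_induced_rng.2 (continuous_pi fun b => ?_)
  exact (AddCircle.continuous_mk' (1 : ℝ)).comp
    (LinearMap.continuous_of_finiteDimensional (f b j))

end

end Pool.Agent.V11111.MD
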