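import Mathlib
import Pool.Agent.V11111.MD.Low

/-! The lower bound for the mean dimension. -/

set_option autoImplicit false

open Filter Topology Set

noncomputable section

namespace Pool.Agent.V11111.MD

section
variable {Γ : Type} [Group Γ] {m : ℕ} {A : Type} [AddCommGroup A] [Module (MonoidAlgebra ℤ Γ) A]

theorem norm_coe_of_le (t : ℝ) (h : |t| ≤ 1 / 2) : ‖(t : AddCircle (1 : ℝ))‖ = |t| :=
  (AddCircle.norm_coe_eq_abs_iff (1 : ℝ) one_ne_zero).2 (by rwa [abs_one])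

theorem two_le {X : Type} [TopologicalSpace X] (ρ : CMetric X) {d : ℕ} (hd : 0 < d)
    (φ ψ : Fin d → X) (D δ : ℝ) (hD : ∀ x y, ρ.ρ x y ≤ D) (hδ : 0 ≤ δ)
    (B : Set (Fin d)) (hB : D ^ 2 * ((B.ncard : ℝ) / d) ≤ δ ^ 2 / 2)
    (hg : ∀ j, j ∉ B → ρ.ρ (φ j) (ψ j) < δ / 2) : ρ.two φ ψ ≤ δ := by
  classical
  unfold CMetric.two
  have hd' : (0 : ℝ) < d := by exact_mod_cast hd
  rw [Real.sqrt_le_left hδ, div_le_iff₀ hd']
  have h1 : ∀ j, ρ.ρ (φ j) (ψ j) ^ 2 ≤ (δ / 2) ^ 2 + if j ∈ B then D ^ 2 else 0 := by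
    intro j
    have h0 := ρ.nonneg (φ j) (ψ j)
    by_cases h : j ∈ B
    · rw [if_pos h]
      have := hD (φ j) (ψ j)
      have : ρ.ρ (φ j) (ψ j) ^ 2 ≤ D ^ 2 := by gcongr
      nlinarith [sq_nonneg (δ / 2)]
    · rw [if_neg h, add_zero]
      have := (hg j h).le
      gcongr
  have h2 : (Finset.univ.filter fun j => j ∈ B).card = B.ncard := by
    rw [Set.ncard_eq_toFinset_card']
    congr 1
    ext j; simp
  calc ∑ j, ρ.ρ (φ j) (ψ j) ^ 2 ≤ ∑ j : Fin d, ((δ / 2) ^ 2 + if j ∈ B then D ^ 2 else 0) :=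
        Finset.sum_le_sum fun j _ => h1 j
    _ = d * (δ / 2) ^ 2 + B.ncard * D ^ 2 := by
        rw [Finset.sum_add_distrib, ← Finset.sum_filter]
        simp only [Finset.sum_const, Finset.card_univ, Fintype.card_fin, nsmul_eq_mul]
        rw [h2]
    _ ≤ δ ^ 2 * d := by
        have h3 : B.ncard * D ^ 2 ≤ δ ^ 2 / 2 * d := by
          have := mul_le_mul_of_nonneg_right hB hd'.le
          calc (B.ncard : ℝ) * D ^ 2 = D ^ 2 * ((B.ncard : ℝ) / d) * d := by field_simp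
            _ ≤ _ := this
        nlinarith

theorem Phi_agree [DecidableEq Γ] (S : Sofic Γ) (i : ℕ) (a : Fin m → A)
    (W : Submodule ℝ (Fin (S.d i) × Fin m → ℝ)) (E E' F : Finset Γ)
    (hE1 : E' ⊆ E) (hE2 : ∀ s ∈ F, ∀ g ∈ E', s⁻¹ * g ∈ E)
    (f : A →+ (Fin (S.d i) → (W →ₗ[ℝ] ℝ)))
    (hf : ∀ v ∈ supE m E, f (phi a v) = qq (S.tau i) W v)
    (b : A) (v : Γ × Fin m →₀ ℤ) (hv : phi a v = b) (hvE : ∀ p ∈ v.support, p.1 ∈ E')
    (s : Γ) (hs : s ∈ F) (j : Fin (S.d i))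
    (hj : ∀ g ∈ E', S.σ i (g⁻¹ * s) j = S.σ i g⁻¹ (S.σ i s j)) (x : W) :
    (Phi f x (S.σ i s j)).toFun b = (dact s (Phi f x j)).toFun b := by
  have hv1 : v ∈ supE m E := (mem_supE E v).2 fun p hp => hE1 (hvE p hp)
  have hv2 : shift s⁻¹ v ∈ supE m E := by
    rw [mem_supE]
    intro p hp
    rw [Finsupp.mem_support_iff, shift_val, inv_inv] at hp
    have h1 := hvE (s * p.1, p.2) (Finsupp.mem_support_iff.2 hp)
    have h2 := hE2 s hs _ h1
    simpa using h2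
  have h3 : gr s⁻¹ • b = phi a (shift s⁻¹ v) := by rw [phi_shift, hv]
  have e1 : (Phi f x (S.σ i s j)).toFun b = ((f b (S.σ i s j) x : ℝ) : AddCircle (1 : ℝ)) := rfl
  have e2 : (dact s (Phi f x j)).toFun b = ((f (gr s⁻¹ • b) j x : ℝ) : AddCircle (1 : ℝ)) := rfl
  rw [e1, e2, h3, hf _ hv2, ← hv, hf _ hv1, qq_apply, qq_shift]
  congr 1
  refine Finsupp.sum_congr fun p hp => ?_
  have h4 : S.tau i p.1 (S.σ i s j) = S.tau i (s⁻¹ * p.1) j := by
    unfold Sofic.tau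
    rw [← hj _ (hvE p hp)]
    simp
  rw [h4]

theorem low_one (S : Sofic Γ) (a : Fin m → A) (ha : Function.Surjective (phi (Γ := Γ) a))
    (ρ : CMetric (Dual A)) (U : Set (Set (Dual A))) (hU : IsFinOpenCover U)
    (hmesh : ∀ u ∈ U, ∀ χ ∈ u, ∀ ψ ∈ u, ∀ l, ‖χ.toFun (a l) - ψ.toFun (a l)‖ < 1 / 4)
    (F : Finset Γ) (δ : ℝ) (hδ : 0 < δ) (η : ℝ) (hη : 0 < η) :
    ∀ᶠ i in atTop, ((bA Γ a - η : ℝ) : EReal) ≤
      coverDim U (ρ.Map dact F δ (S.σ i)) / ((S.d i : ℝ) : EReal) := by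
  classical
  obtain ⟨K, ε, hε, hK⟩ := close_of_agree ρ (δ / 2) (by positivity)
  choose lift hlift using ha
  set E' : Finset Γ := K.biUnion fun b => (lift b).support.image Prod.fst with hE'
  set E : Finset Γ := {1} ∪ E' ∪ (F ×ˢ E').image (fun p => p.1⁻¹ * p.2) with hE
  have hE1 : E' ⊆ E := by
    intro g hg
    simp only [hE, Finset.mem_union]
    exact Or.inl (Or.inr hg)
  have hE2 : ∀ s ∈ F, ∀ g ∈ E', s⁻¹ * g ∈ E := by
    intro s hs g hg
    simp only [hE, Finset.mem_union]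
    exact Or.inr (Finset.mem_image.2 ⟨(s, g), Finset.mem_product.2 ⟨hs, hg⟩, rfl⟩)
  have hE0 : (1 : Γ) ∈ E := by simp [hE]
  have hvE : ∀ b ∈ K, ∀ p ∈ (lift b).support, p.1 ∈ E' := by
    intro b hb p hp
    exact Finset.mem_biUnion.2 ⟨b, hb, Finset.mem_image_of_mem _ hp⟩
  obtain ⟨s, hs1, hs2⟩ := exists_gen a E
  obtain ⟨D, hD0, hD⟩ := ρ.bounded
  have hker := ker_lower S E (cf s) (bA Γ a) (fun n =>
    (bA_le_nu a (fun v : s => v.1) (fun q => (hs1 q.1 q.2).1)).trans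
      (beta_ge E (cf s) (fun v : s => v.1) (fun q g l => rfl)
        (fun q p hp => (mem_supE E _).1 (hs1 q.1 q.2).2 p hp) n)) η hη
  set P : Finset (Γ × Γ) := (E' ×ˢ F).image (fun p => (p.1⁻¹, p.2)) with hP
  have hbad := S.bad_lim P ∅ (by simp)
  have hbad2 : Tendsto (fun i => D ^ 2 * (({a | ¬ S.Good P ∅ i a}.ncard : ℝ) / S.d i)) atTop
      (𝓝 (D ^ 2 * 0)) := hbad.const_mul _
  rw [mul_zero] at hbad2
  filter_upwards [S.d_pos, hker, hbad2.eventually (gt_mem_nhds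
    (show (0 : ℝ) < δ ^ 2 / 2 by positivity))] with i hi hk hb
  have hd : (0 : ℝ) < S.d i := by exact_mod_cast hi
  have hk' : (bA Γ a - η) * S.d i ≤ Module.finrank ℝ (Wk (S.tau i) E s) := hk
  obtain ⟨f, hf⟩ := exists_f (S.tau i) a E s hs1 hs2
  clear hk
  generalize Wk (S.tau i) E s = W at f hf hk'
  -- the image lies in the set of almost equivariant maps
  have hmem : ∀ x : W, Phi f x ∈ ρ.Map dact F δ (S.σ i) := by
    intro x t ht
    refine two_le ρ hi _ _ D δ hD hδ.le {j | ¬ S.Good P ∅ i j} hb.le ?_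
    intro j hj
    have hj' : S.Good P ∅ i j := by
      by_contra h; exact hj h
    apply hK
    intro b hb
    rw [Phi_agree S i a W E E' F hE1 hE2 f hf b (lift b) (hlift b) (hvE b hb) t ht j ?_ x,
      sub_self, norm_zero]
    · exact hε
    · intro g hg
      exact hj'.1 (g⁻¹, t) (Finset.mem_image.2 ⟨(g, t), Finset.mem_product.2 ⟨hg, ht⟩, rfl⟩)
  -- the coordinates
  have hcoord : ∀ (x : W) (j : Fin (S.d i)) (l : Fin m),
      (Phi f x j).toFun (a l) = ((x.1 (S.tau i 1 j, l) : ℝ) : AddCircle (1 : ℝ)) := by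
    intro x j l
    have h1 : a l = phi a (Finsupp.single ((1 : Γ), l) 1) := by
      rw [phi_single, gr_one, one_smul, one_smul]
    have h2 : (Finsupp.single ((1 : Γ), l) (1 : ℤ)) ∈ supE m E := by
      rw [mem_supE]
      intro p hp
      have := Finsupp.support_single_subset hp
      rw [Finset.mem_singleton] at this
      rw [this]; exact hE0
    have e1 : (Phi f x j).toFun (a l) = ((f (a l) j x : ℝ) : AddCircle (1 : ℝ)) := rfl
    rw [e1, h1, hf _ h2, qq_apply, Finsupp.sum_single_index (by simp)]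
    simp
  have hdim : ∀ k, HasCover U (ρ.Map dact F δ (S.σ i)) k → Module.finrank ℝ W ≤ k := by
    rintro k ⟨V, hVf, hV1, hV2, hV3⟩
    have : Finite V := hVf
    have : Fintype V := Fintype.ofFinite V
    have hcb := cover_ball (E := W) (1 / 4) (by norm_num) (ι := V)
      (fun v => Phi f ⁻¹' v.1) (fun v => (hV1 v.1 v.2).1.preimage (Phi_cont f)) (by
        intro x _
        obtain ⟨v, hv, hxv⟩ := hV2 (hmem x)
        exact Set.mem_iUnion.2 ⟨⟨v, hv⟩, hxv⟩) (by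
        rintro ⟨v, hv⟩ x ⟨hx1, hx2⟩ y ⟨hy1, hy2⟩
        obtain ⟨_, u, hu1, hu2⟩ := hV1 v hv
        have hxu := hu2 ⟨hx1, hmem x⟩
        have hyu := hu2 ⟨hy1, hmem y⟩
        have hxy : ‖x - y‖ ≤ 1 / 2 := by
          rw [mem_closedBall_zero_iff] at hx2 hy2
          calc ‖x - y‖ ≤ ‖x‖ + ‖y‖ := norm_sub_le _ _
            _ ≤ 1 / 2 := by linarith
        have h1 : ‖x.1 - y.1‖ < 1 / 4 := by
          rw [pi_norm_lt_iff (by norm_num)]
          rintro ⟨j, l⟩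
          have h2 := hmesh _ (hu1 ((S.tau i 1).symm j)) _ (hxu _ trivial) _ (hyu _ trivial) l
          rw [hcoord, hcoord, Equiv.apply_symm_apply, ← AddCircle.coe_sub] at h2
          have h3 : |x.1 (j, l) - y.1 (j, l)| ≤ 1 / 2 := by
            have := norm_le_pi_norm (x.1 - y.1) (j, l)
            exact this.trans hxy
          rw [norm_coe_of_le _ h3] at h2
          exact h2
        exact h1) (k + 1) (by
        intro x _
        have h1 := hV3 (Phi f x) (hmem x)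
        refine le_trans (le_of_eq ?_) h1
        rw [← Set.ncard_image_of_injective _ Subtype.val_injective]
        congr 1
        ext v
        constructor
        · rintro ⟨w, hw, rfl⟩
          exact ⟨w.2, hw⟩
        · rintro ⟨h1, h2⟩
          exact ⟨⟨v, h1⟩, h2, rfl⟩)
    omega
  have h1 := le_coverDim U hU (ρ.Map dact F δ (S.σ i)) ⟨_, hmem 0⟩ _ hdim
  have hd' : (0 : EReal) < ((S.d i : ℝ) : EReal) := by exact_mod_cast hd
  have hdt : ((S.d i : ℝ) : EReal) ≠ ⊤ := EReal.coe_ne_top _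
  rw [EReal.le_div_iff_mul_le hd' hdt]
  refine le_trans ?_ h1
  exact_mod_cast hk'

end

end Pool.Agent.V11111.MD
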