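import Mathlib
import Pool.Agent.V11111.MD.Low2

/-! The lower bound for the mean dimension. -/

set_option autoImplicit false

open Filter Topology Set

noncomputable section

namespace Pool.Agent.V11111.MD

section
variable {Γ : Type} [Group Γ] {m : ℕ} {A : Type} [AddCommGroup A] [Module (MonoidAlgebra ℤ Γ) A]

omit [Module (MonoidAlgebra ℤ Γ) A] [Group Γ] in
theorem exists_mesh (a : Fin m → A) : ∃ U : Set (Set (Dual A)), IsFinOpenCover U ∧
    ∀ u ∈ U, ∀ χ ∈ u, ∀ ψ ∈ u, ∀ l, ‖χ.toFun (a l) - ψ.toFun (a l)‖ < 1 / 4 := by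
  set e : Dual A → (Fin m → AddCircle (1 : ℝ)) := fun χ l => χ.toFun (a l) with he
  have hec : Continuous e := continuous_pi fun l => Dual.cont_eval (a l)
  obtain ⟨t, _, htf, ht⟩ := (isCompact_univ (X := Fin m → AddCircle (1 : ℝ))).finite_cover_balls
    (e := 1 / 8) (by norm_num)
  refine ⟨(fun c => e ⁻¹' Metric.ball c (1 / 8)) '' t, ⟨htf.image _, ?_, ?_⟩, ?_⟩
  · rintro _ ⟨c, _, rfl⟩
    exact Metric.isOpen_ball.preimage hec
  · rw [Set.eq_univ_iff_forall]
    intro χ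
    have := ht (show e χ ∈ Set.univ from trivial)
    simp only [Set.mem_iUnion] at this
    obtain ⟨c, hc, hb⟩ := this
    exact ⟨_, ⟨c, hc, rfl⟩, hb⟩
  · rintro _ ⟨c, _, rfl⟩ χ hχ ψ hψ l
    have h1 : dist (e χ) (e ψ) < 1 / 4 := by
      have a1 : dist (e χ) c < 1 / 8 := hχ
      have a2 : dist (e ψ) c < 1 / 8 := hψ
      have := dist_triangle_right (e χ) (e ψ) c
      linarith
    have h2 := (dist_pi_lt_iff (by norm_num)).1 h1 l
    rwa [dist_eq_norm] at h2

theorem low_all (S : Sofic Γ) (a : Fin m → A) (ha : Function.Surjective (phi (Γ := Γ) a))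
    (ρ : CMetric (Dual A)) : ((bA Γ a : ℝ) : EReal) ≤ sMdim S (dact (A := A)) ρ := by
  obtain ⟨U, hU, hmesh⟩ := exists_mesh a
  refine le_trans ?_ (le_iSup _ ⟨U, hU⟩)
  rw [← EReal.ge_of_forall_gt_iff_ge]
  intro z hz
  have hz' : z < bA Γ a := by exact_mod_cast hz
  refine le_iInf fun F => le_iInf fun δ => ?_
  have h := low_one S a ha ρ U hU hmesh F δ.1 δ.2 (bA Γ a - z) (by linarith)
  rw [sub_sub_cancel] at h
  exact (le_liminf_of_le (by isBoundedDefault) h).trans liminf_le_limsup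

end

end Pool.Agent.V11111.MD
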