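import Mathlib
import Pool.Agent.V11111.MD.Spec

/-! Nets in Euclidean balls, and nets modulo the large singular values. -/

set_option autoImplicit false

open Metric Set MeasureTheory ENNReal Matrix

noncomputable section

namespace Pool.Agent.V11111.MD

theorem card_sep {E : Type} [NormedAddCommGroup E] [NormedSpace ℝ E] [FiniteDimensional ℝ E]
    (s : Finset E) (r : ℝ) (hr : 0 < r) (hs : ∀ c ∈ s, ‖c‖ ≤ 1)
    (h : ∀ c ∈ s, ∀ d ∈ s, c ≠ d → r ≤ ‖c - d‖) :
    (s.card : ℝ) ≤ (1 + 2 / r) ^ Module.finrank ℝ E := by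
  borelize E
  let μ : Measure E := Measure.addHaar
  set δ : ℝ := r / 2 with hδ
  set ρ : ℝ := 1 + r / 2 with hρ
  have ρpos : 0 < ρ := by positivity
  have δpos : 0 < δ := by positivity
  set A := ⋃ c ∈ s, ball (c : E) δ with hA
  have D : Set.Pairwise (s : Set E) (Function.onFun Disjoint fun c => ball (c : E) δ) := by
    rintro c hc d hd hcd
    apply ball_disjoint_ball
    rw [dist_eq_norm]
    have := h c hc d hd hcd
    linarith
  have A_subset : A ⊆ ball (0 : E) ρ := by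
    refine iUnion₂_subset fun x hx => ?_
    apply ball_subset_ball'
    rw [dist_zero_right]
    have := hs x hx
    linarith
  have I :
    (s.card : ℝ≥0∞) * ENNReal.ofReal (δ ^ Module.finrank ℝ E) * μ (ball 0 1) ≤
      ENNReal.ofReal (ρ ^ Module.finrank ℝ E) * μ (ball 0 1) :=
    calc
      (s.card : ℝ≥0∞) * ENNReal.ofReal (δ ^ Module.finrank ℝ E) * μ (ball 0 1) = μ A := by
        rw [hA, measure_biUnion_finset D fun c _ => measurableSet_ball]
        simp only [μ.addHaar_ball_of_pos _ δpos]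
        simp only [Finset.sum_const, nsmul_eq_mul, mul_assoc]
      _ ≤ μ (ball (0 : E) ρ) := measure_mono A_subset
      _ = ENNReal.ofReal (ρ ^ Module.finrank ℝ E) * μ (ball 0 1) := by
        simp only [μ.addHaar_ball_of_pos _ ρpos]
  have J : (s.card : ℝ≥0∞) * ENNReal.ofReal (δ ^ Module.finrank ℝ E) ≤
      ENNReal.ofReal (ρ ^ Module.finrank ℝ E) :=
    (ENNReal.mul_le_mul_iff_left (measure_ball_pos _ _ zero_lt_one).ne' measure_ball_lt_top.ne).1 I
  have K := ENNReal.toReal_le_of_le_ofReal (pow_nonneg ρpos.le _) J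
  rw [ENNReal.toReal_mul, ENNReal.toReal_natCast, ENNReal.toReal_ofReal (pow_nonneg δpos.le _)] at K
  have e : ρ = (1 + 2 / r) * δ := by rw [hρ, hδ]; field_simp; ring
  rw [e, mul_pow] at K
  exact le_of_mul_le_mul_right K (pow_pos δpos _)

/-- nets of the unit ball -/
theorem exists_net_ball {E : Type} [NormedAddCommGroup E] [NormedSpace ℝ E]
    [FiniteDimensional ℝ E] (r : ℝ) (hr : 0 < r) :
    ∃ N : Finset E, (N.card : ℝ) ≤ (1 + 2 / r) ^ Module.finrank ℝ E ∧
      ∀ v : E, ‖v‖ ≤ 1 → ∃ u ∈ N, ‖v - u‖ ≤ r := by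
  classical
  set P : Finset E → Prop := fun s => (∀ c ∈ s, ‖c‖ ≤ 1) ∧
    (∀ c ∈ s, ∀ d ∈ s, c ≠ d → r ≤ ‖c - d‖) with hP
  have hb : ∀ s, P s → s.card ≤ ⌊(1 + 2 / r) ^ Module.finrank ℝ E⌋₊ := by
    intro s hs
    exact Nat.le_floor (card_sep s r hr hs.1 hs.2)
  have hne : ∃ n, ∃ s, P s ∧ s.card = n := ⟨0, ∅, ⟨by simp, by simp⟩, rfl⟩
  have hfin : ∃ n, (∃ s, P s ∧ s.card = n) ∧ ∀ m, (∃ s, P s ∧ s.card = m) → m ≤ n := by
    refine ⟨Nat.findGreatest (fun n => ∃ s, P s ∧ s.card = n) ⌊(1 + 2 / r) ^ Module.finrank ℝ E⌋₊,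
      ?_, ?_⟩
    · exact Nat.findGreatest_spec (P := fun n => ∃ s, P s ∧ s.card = n) (Nat.zero_le _)
        ⟨∅, ⟨by simp, by simp⟩, rfl⟩
    · rintro m ⟨s, hs, rfl⟩
      exact Nat.le_findGreatest (hb s hs) ⟨s, hs, rfl⟩
  obtain ⟨n, ⟨s, hs, rfl⟩, hmax⟩ := hfin
  refine ⟨s, card_sep s r hr hs.1 hs.2, fun v hv => ?_⟩
  by_contra hcon
  push Not at hcon
  have hvs : v ∉ s := by
    intro h
    have := hcon v h
    rw [sub_self, norm_zero] at this
    linarith
  have hP' : P (insert v s) := by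
    constructor
    · intro c hc
      rcases Finset.mem_insert.1 hc with rfl | hc
      · exact hv
      · exact hs.1 c hc
    · intro c hc d hd hcd
      rcases Finset.mem_insert.1 hc with hc | hc
      · rcases Finset.mem_insert.1 hd with hd | hd
        · exact absurd (hc.trans hd.symm) hcd
        · rw [hc]; exact (hcon d hd).le
      · rcases Finset.mem_insert.1 hd with hd | hd
        · rw [hd, norm_sub_rev]; exact (hcon c hc).le
        · exact hs.2 c hc d hd hcd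
  have := hmax _ ⟨insert v s, hP', rfl⟩
  rw [Finset.card_insert_of_notMem hvs] at this
  omega

variable {a b : Type} [Fintype a] [Fintype b] [DecidableEq a] [DecidableEq b]

theorem exists_net {M : Matrix a b ℝ} (S : SpecData M) (κ r B : ℝ) (hκ : 0 < κ) (hr : 0 < r)
    (hB : 0 < B) :
    ∃ N : Finset (b → ℝ), (N.card : ℝ) ≤ (1 + 2 / r) ^ Fintype.card {i // S.ev i ≤ κ} ∧
      ∀ v : b → ℝ, ∑ i, v i ^ 2 ≤ B ^ 2 → ∃ u ∈ N,
        ∑ i, (v i - u i) ^ 2 ≤ (r * B) ^ 2 + (∑ i, (M *ᵥ v) i ^ 2) / κ := by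
  classical
  set I := {i // S.ev i ≤ κ} with hI
  obtain ⟨N, hN1, hN2⟩ := exists_net_ball (E := EuclideanSpace ℝ I) r hr
  set ext : EuclideanSpace ℝ I → (b → ℝ) := fun w =>
    S.U *ᵥ (fun i => if h : S.ev i ≤ κ then B * w ⟨i, h⟩ else 0) with hext
  refine ⟨N.image ext, ?_, ?_⟩
  · refine le_trans ?_ (hN1.trans (le_of_eq ?_))
    · exact_mod_cast Finset.card_image_le
    · rw [finrank_euclideanSpace]
  · intro v hv
    set w := S.Uᵀ *ᵥ v with hw
    have hwv : ∑ i, w i ^ 2 = ∑ i, v i ^ 2 := S.norm_U v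
    set w' : EuclideanSpace ℝ I := (WithLp.equiv 2 (I → ℝ)).symm (fun i => B⁻¹ * w i.1) with hw'
    have hsplit : ∀ f : b → ℝ, ∑ i, f i = ∑ i : I, f i.1 + ∑ i ∈ Finset.univ.filter
        (fun i => ¬ S.ev i ≤ κ), f i := by
      intro f
      rw [← Finset.sum_filter_add_sum_filter_not Finset.univ (fun i => S.ev i ≤ κ)]
      congr 1
      rw [Finset.sum_subtype (p := fun i => S.ev i ≤ κ)]
      intro i
      simp
    have hnw' : ‖w'‖ ≤ 1 := by
      rw [← sq_le_one_iff₀ (norm_nonneg _), EuclideanSpace.norm_sq_eq]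
      have e1 : ∑ i : I, ‖w' i‖ ^ 2 = (B ^ 2)⁻¹ * ∑ i : I, w i.1 ^ 2 := by
        rw [Finset.mul_sum]
        refine Finset.sum_congr rfl fun i _ => ?_
        have : w' i = B⁻¹ * w i.1 := rfl
        rw [this, Real.norm_eq_abs, sq_abs, mul_pow, inv_pow]
      rw [e1, inv_mul_le_iff₀ (by positivity), mul_one]
      refine le_trans ?_ hv
      rw [← hwv, hsplit (fun i => w i ^ 2)]
      have : 0 ≤ ∑ i ∈ Finset.univ.filter (fun i => ¬ S.ev i ≤ κ), w i ^ 2 :=
        Finset.sum_nonneg fun _ _ => sq_nonneg _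
      linarith
    obtain ⟨u, hu, huv⟩ := hN2 w' hnw'
    refine ⟨ext u, Finset.mem_image_of_mem _ hu, ?_⟩
    have e2 : ∑ i, (v i - ext u i) ^ 2 = ∑ i, (w i - (if h : S.ev i ≤ κ then B * u ⟨i, h⟩ else 0)) ^ 2 := by
      have h1 := S.norm_U (fun i => v i - ext u i)
      rw [← h1]
      refine Finset.sum_congr rfl fun i _ => ?_
      congr 1
      have h2 : (fun i => v i - ext u i) = v - S.U *ᵥ
        (fun i => if h : S.ev i ≤ κ then B * u ⟨i, h⟩ else 0) := rfl
      rw [h2, Matrix.mulVec_sub, Matrix.mulVec_mulVec, S.h2, Matrix.one_mulVec]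
      rfl
    rw [e2, hsplit]
    have e3 : ∑ i : I, (w i.1 - (if h : S.ev i.1 ≤ κ then B * u ⟨i.1, h⟩ else 0)) ^ 2 ≤ (r * B) ^ 2 := by
      have h1 : ‖w' - u‖ ^ 2 ≤ r ^ 2 := by
        have := norm_nonneg (w' - u)
        gcongr
      rw [EuclideanSpace.norm_sq_eq] at h1
      have h2 : ∑ i : I, (w i.1 - (if h : S.ev i.1 ≤ κ then B * u ⟨i.1, h⟩ else 0)) ^ 2 =
          B ^ 2 * ∑ i : I, ‖(w' - u) i‖ ^ 2 := by
        rw [Finset.mul_sum]
        refine Finset.sum_congr rfl fun i _ => ?_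
        have h3 : (w' - u) i = B⁻¹ * w i.1 - u i := rfl
        rw [h3, Real.norm_eq_abs, sq_abs, dif_pos i.2, ← mul_pow]
        congr 1
        field_simp
        rfl
      rw [h2, mul_pow, mul_comm (r ^ 2)]
      gcongr
    have e4 : ∑ i ∈ Finset.univ.filter (fun i => ¬ S.ev i ≤ κ),
        (w i - (if h : S.ev i ≤ κ then B * u ⟨i, h⟩ else 0)) ^ 2 ≤ (∑ i, (M *ᵥ v) i ^ 2) / κ := by
      rw [le_div_iff₀ hκ, S.norm_M, Finset.sum_mul]
      calc ∑ i ∈ Finset.univ.filter (fun i => ¬ S.ev i ≤ κ),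
            (w i - (if h : S.ev i ≤ κ then B * u ⟨i, h⟩ else 0)) ^ 2 * κ
          ≤ ∑ i ∈ Finset.univ.filter (fun i => ¬ S.ev i ≤ κ), S.ev i * w i ^ 2 := by
            refine Finset.sum_le_sum fun i hi => ?_
            have h1 := (Finset.mem_filter.1 hi).2
            rw [dif_neg h1, sub_zero, mul_comm]
            have h2 : κ ≤ S.ev i := (not_le.1 h1).le
            gcongr
        _ ≤ ∑ i, S.ev i * w i ^ 2 := by
            refine Finset.sum_le_sum_of_subset_of_nonneg (Finset.subset_univ _) fun i _ _ => ?_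
            exact mul_nonneg (S.ev_nonneg i) (sq_nonneg _)
    exact add_le_add e3 e4

end Pool.Agent.V11111.MD
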