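import Mathlib

/-! Covers from walls, and the choice of the walls by counting. -/

set_option autoImplicit false

open Set Finset

noncomputable section

namespace Pool.Agent.V11111.MD

/-- distance to the integers -/
def dZ (t : ℝ) : ℝ := ‖(t : UnitAddCircle)‖

theorem dZ_eq (t : ℝ) : dZ t = |t - round t| := UnitAddCircle.norm_eq

theorem dZ_cont : Continuous dZ := by
  unfold dZ
  exact (AddCircle.continuous_mk' 1).norm

theorem dZ_nonneg (t : ℝ) : 0 ≤ dZ t := norm_nonneg _

theorem dZ_le_abs (t : ℝ) : dZ t ≤ |t| := by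
  rw [dZ_eq]
  have := round_le t 0
  simpa using this

theorem dZ_add_le (s t : ℝ) : dZ (s + t) ≤ dZ s + dZ t := by
  unfold dZ
  rw [AddCircle.coe_add]
  exact norm_add_le _ _

theorem dZ_sub_le (s t : ℝ) : dZ (s - t) ≤ dZ s + dZ t := by
  unfold dZ
  rw [AddCircle.coe_sub]
  exact norm_sub_le _ _

theorem dZ_le_int (t : ℝ) (z : ℤ) : dZ t ≤ |t - z| := by
  rw [dZ_eq]
  exact round_le t z

theorem dZ_le_half (t : ℝ) : dZ t ≤ 1 / 2 := by
  rw [dZ_eq]
  exact abs_sub_round t

theorem dZ_pos (t : ℝ) (h : ∀ z : ℤ, t ≠ z) : 0 < dZ t := by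
  rw [dZ_eq, abs_pos, sub_ne_zero]
  exact h _

section
variable {Y : Type} [TopologicalSpace Y] {Λ : Type} [Fintype Λ]

/-- the pieces of the cover -/
def piece (x : Λ → Y → ℝ) (n : ℕ) (ξ : Λ → ℝ) (w : ℝ) (S : Finset Λ) (κ : Λ → ℤ) : Set Y :=
  {y | (∀ l ∈ S, ∀ m, m ∉ S → dZ (n * x l y - ξ l) < dZ (n * x m y - ξ m)) ∧
    (∀ l ∈ S, |n * x l y - ξ l - κ l| < w) ∧
    (∀ m, m ∉ S → (κ m : ℝ) < n * x m y - ξ m ∧ n * x m y - ξ m < κ m + 1)}

theorem piece_open (x : Λ → Y → ℝ) (hx : ∀ l, Continuous (x l)) (n : ℕ) (ξ : Λ → ℝ) (w : ℝ)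
    (S : Finset Λ) (κ : Λ → ℤ) : IsOpen (piece x n ξ w S κ) := by
  have e : piece x n ξ w S κ = (⋂ l ∈ S, ⋂ m : Λ, ⋂ _ : m ∉ S,
      {y | dZ (n * x l y - ξ l) < dZ (n * x m y - ξ m)}) ∩
      ((⋂ l ∈ S, {y | |n * x l y - ξ l - κ l| < w}) ∩
      (⋂ m : Λ, ⋂ _ : m ∉ S, ({y | (κ m : ℝ) < n * x m y - ξ m} ∩
        {y | n * x m y - ξ m < κ m + 1}))) := by
    ext y
    simp only [piece, Set.mem_inter_iff, Set.mem_iInter, Set.mem_ofPred_eq]
  rw [e]
  have hc : ∀ l, Continuous fun y => (n : ℝ) * x l y - ξ l := fun l =>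
    (continuous_const.mul (hx l)).sub continuous_const
  refine IsOpen.inter ?_ (IsOpen.inter ?_ ?_)
  · refine isOpen_biInter_finset fun l _ => isOpen_iInter_of_finite fun m =>
      isOpen_iInter_of_finite fun _ => ?_
    exact isOpen_lt (dZ_cont.comp (hc l)) (dZ_cont.comp (hc m))
  · refine isOpen_biInter_finset fun l _ => ?_
    exact isOpen_lt ((hc l).sub continuous_const).abs continuous_const
  · refine isOpen_iInter_of_finite fun m => isOpen_iInter_of_finite fun _ => IsOpen.inter ?_ ?_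
    · exact isOpen_lt continuous_const (hc m)
    · exact isOpen_lt (hc m) continuous_const

theorem walls_cover (Z : Set Y) (x : Λ → Y → ℝ) (hx : ∀ l, Continuous (x l))
    (hx0 : ∀ l y, 0 ≤ x l y) (hx1 : ∀ l y, x l y ≤ 1) (n : ℕ) (hn : 0 < n) (ξ : Λ → ℝ)
    (hξ0 : ∀ l, 0 ≤ ξ l) (hξ1 : ∀ l, ξ l ≤ 1) (w : ℝ) (hw : 0 < w) (hw2 : w < 1 / 2) (k : ℕ)
    (hk : ∀ z ∈ Z, {l | dZ (n * x l z - ξ l) < w}.ncard ≤ k) :
    ∃ V : Set (Set Y), V.Finite ∧ (∀ v ∈ V, IsOpen v) ∧ Z ⊆ ⋃₀ V ∧
      (∀ v ∈ V, ∀ y ∈ v, ∀ y' ∈ v, ∀ l, |x l y - x l y'| ≤ 1 / n) ∧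
      ∀ z, {v | v ∈ V ∧ z ∈ v}.ncard ≤ k + 1 := by
  classical
  set I : Finset (Finset Λ × (Λ → ℤ)) :=
    ((Finset.univ : Finset (Finset Λ)).filter (fun S => S.card ≤ k)) ×ˢ
      (Fintype.piFinset fun _ : Λ => Finset.Icc (-1 : ℤ) n) with hI
  set P : Finset Λ × (Λ → ℤ) → Set Y := fun p => piece x n ξ w p.1 p.2 with hP
  have hn' : (0 : ℝ) < n := by exact_mod_cast hn
  refine ⟨P '' (I : Set _), (Finset.finite_toSet I).image _, ?_, ?_, ?_, ?_⟩
  · rintro v ⟨p, _, rfl⟩
    exact piece_open x hx n ξ w _ _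
  · intro z hz
    set S : Finset Λ := Finset.univ.filter (fun l => ∃ m : ℤ, (n : ℝ) * x l z - ξ l = m) with hS
    set κ : Λ → ℤ := fun l => ⌊(n : ℝ) * x l z - ξ l⌋ with hκ
    refine ⟨P (S, κ), ⟨(S, κ), ?_, rfl⟩, ?_⟩
    · rw [Finset.mem_coe, hI, Finset.mem_product, Finset.mem_filter, Fintype.mem_piFinset]
      refine ⟨⟨Finset.mem_univ _, ?_⟩, ?_⟩
      · refine le_trans ?_ (hk z hz)
        rw [Set.ncard_eq_toFinset_card']
        apply Finset.card_le_card
        intro l hl
        obtain ⟨m, hm⟩ := (Finset.mem_filter.1 hl).2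
        simp only [Set.mem_toFinset, Set.mem_ofPred_eq]
        have h1 := dZ_le_int ((n : ℝ) * x l z - ξ l) m
        rw [hm, sub_self, abs_zero, ← hm] at h1
        linarith
      · intro l
        rw [Finset.mem_Icc]
        constructor
        · apply Int.le_floor.2
          push_cast
          have := hξ1 l
          have : 0 ≤ (n : ℝ) * x l z := mul_nonneg hn'.le (hx0 l z)
          linarith
        · have h1 : (n : ℝ) * x l z - ξ l ≤ (n : ℤ) := by
            push_cast
            have := hξ0 l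
            have h2 : (n : ℝ) * x l z ≤ n * 1 := mul_le_mul_of_nonneg_left (hx1 l z) hn'.le
            linarith
          have h3 : (⌊(n : ℝ) * x l z - ξ l⌋ : ℝ) ≤ (n : ℤ) := (Int.floor_le _).trans h1
          exact_mod_cast h3
    · refine ⟨?_, ?_, ?_⟩
      · intro l hl m hm
        obtain ⟨q, hq⟩ := (Finset.mem_filter.1 hl).2
        have h1 := dZ_le_int ((n : ℝ) * x l z - ξ l) q
        rw [hq, sub_self, abs_zero, ← hq] at h1
        refine lt_of_le_of_lt h1 (dZ_pos _ fun q' hq' => hm ?_)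
        exact Finset.mem_filter.2 ⟨Finset.mem_univ _, q', hq'⟩
      · intro l hl
        obtain ⟨q, hq⟩ := (Finset.mem_filter.1 hl).2
        have : κ l = q := by rw [hκ]; simp only; rw [hq, Int.floor_intCast]
        show |(n : ℝ) * x l z - ξ l - (κ l : ℝ)| < w
        rw [this, hq, sub_self, abs_zero]
        exact hw
      · intro m hm
        have h1 : (κ m : ℝ) ≤ (n : ℝ) * x m z - ξ m := Int.floor_le _
        have h2 : (n : ℝ) * x m z - ξ m < κ m + 1 := Int.lt_floor_add_one _
        refine ⟨lt_of_le_of_ne h1 ?_, h2⟩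
        intro h
        exact hm (Finset.mem_filter.2 ⟨Finset.mem_univ _, κ m, h.symm⟩)
  · rintro v ⟨p, _, rfl⟩ y hy y' hy' l
    have key : |(n : ℝ) * x l y - n * x l y'| ≤ 1 := by
      by_cases hl : l ∈ p.1
      · have h1 := hy.2.1 l hl
        have h2 := hy'.2.1 l hl
        rw [abs_lt] at h1 h2
        rw [abs_le]
        constructor <;> linarith
      · have h1 := hy.2.2 l hl
        have h2 := hy'.2.2 l hl
        rw [abs_le]
        constructor <;> linarith
    rw [← mul_sub, abs_mul, abs_of_pos hn'] at key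
    rw [le_div_iff₀ hn']
    linarith
  · intro z
    have hch : ∀ v : Set Y, ∃ p : Finset Λ × (Λ → ℤ),
        v ∈ P '' (I : Set _) → p ∈ I ∧ P p = v := by
      intro v
      by_cases h : v ∈ P '' (I : Set _)
      · obtain ⟨p, hp, hpv⟩ := h
        exact ⟨p, fun _ => ⟨Finset.mem_coe.1 hp, hpv⟩⟩
      · exact ⟨(∅, fun _ => 0), fun h' => absurd h' h⟩
    choose p hp using hch
    have hinj : ∀ v ∈ {v | v ∈ P '' (I : Set _) ∧ z ∈ v}, ∀ v' ∈ {v | v ∈ P '' (I : Set _) ∧ z ∈ v},
        (p v).1.card = (p v').1.card → v = v' := by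
      intro v hv v' hv' hcard
      obtain ⟨hpI, hpv⟩ := hp v hv.1
      obtain ⟨hpI', hpv'⟩ := hp v' hv'.1
      have hz : z ∈ P (p v) := by rw [hpv]; exact hv.2
      have hz' : z ∈ P (p v') := by rw [hpv']; exact hv'.2
      have hSS : (p v).1 = (p v').1 := by
        by_contra hne
        have h1 : ∃ l ∈ (p v).1, l ∉ (p v').1 := by
          by_contra h
          push Not at h
          exact hne (Finset.eq_of_subset_of_card_le h hcard.ge)
        have h2 : ∃ l ∈ (p v').1, l ∉ (p v).1 := by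
          by_contra h
          push Not at h
          exact hne (Finset.eq_of_subset_of_card_le h hcard.le).symm
        obtain ⟨l, hl, hl'⟩ := h1
        obtain ⟨m, hm, hm'⟩ := h2
        have a1 := hz.1 l hl m hm'
        have a2 := hz'.1 m hm l hl'
        linarith
      have hκκ : (p v).2 = (p v').2 := by
        funext l
        by_cases hl : l ∈ (p v).1
        · have a1 := hz.2.1 l hl
          have a2 := hz'.2.1 l (hSS ▸ hl)
          rw [abs_lt] at a1 a2
          have b1 : ((p v).2 l : ℝ) < (p v').2 l + 1 := by linarith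
          have b2 : ((p v').2 l : ℝ) < (p v).2 l + 1 := by linarith
          have c1 : (p v).2 l < (p v').2 l + 1 := by exact_mod_cast b1
          have c2 : (p v').2 l < (p v).2 l + 1 := by exact_mod_cast b2
          omega
        · have a1 := hz.2.2 l hl
          have a2 := hz'.2.2 l (hSS ▸ hl)
          have b1 : ((p v).2 l : ℝ) < (p v').2 l + 1 := by linarith
          have b2 : ((p v').2 l : ℝ) < (p v).2 l + 1 := by linarith
          have c1 : (p v).2 l < (p v').2 l + 1 := by exact_mod_cast b1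
          have c2 : (p v').2 l < (p v).2 l + 1 := by exact_mod_cast b2
          omega
      rw [← hpv, ← hpv']
      congr 1
      exact Prod.ext hSS hκκ
    calc {v | v ∈ P '' (I : Set _) ∧ z ∈ v}.ncard
        ≤ ((Finset.range (k + 1) : Finset ℕ) : Set ℕ).ncard := by
          apply Set.ncard_le_ncard_of_injOn (fun v => (p v).1.card)
          · intro v hv
            have h1 := (hp v hv.1).1
            rw [hI, Finset.mem_product, Finset.mem_filter] at h1
            simp only [Finset.coe_range, Set.mem_Iio]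
            have h2 : (p v).1.card ≤ k := h1.1.2
            omega
          · intro v hv v' hv' h
            exact hinj v hv v' hv' h
      _ = k + 1 := by rw [Set.ncard_coe_finset, Finset.card_range]

end

section
variable {Λ : Type} [Fintype Λ] [DecidableEq Λ]

theorem close_unique (R : ℕ) (u : ℝ) (a b : Fin R)
    (ha : dZ (u - (a : ℕ) / (R : ℝ)) < 1 / (2 * R)) (hb : dZ (u - (b : ℕ) / (R : ℝ)) < 1 / (2 * R)) :
    a = b := by
  have hR : 0 < R := a.pos
  have hR' : (0 : ℝ) < R := by exact_mod_cast hR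
  by_contra hne
  have h1 : dZ (((a : ℕ) : ℝ) / R - ((b : ℕ) : ℝ) / R) < 1 / R := by
    have e : ((a : ℕ) : ℝ) / R - ((b : ℕ) : ℝ) / R = (u - (b : ℕ) / R) - (u - (a : ℕ) / R) := by ring
    rw [e]
    refine (dZ_sub_le _ _).trans_lt ?_
    have : (1 : ℝ) / R = 1 / (2 * R) + 1 / (2 * R) := by field_simp; norm_num
    rw [this]
    linarith
  rw [dZ_eq] at h1
  set z := round (((a : ℕ) : ℝ) / R - ((b : ℕ) : ℝ) / R) with hz
  have e2 : |((a : ℕ) : ℝ) / R - ((b : ℕ) : ℝ) / R - z| =
      |(((a : ℕ) : ℤ) - ((b : ℕ) : ℤ) - z * R : ℤ)| / R := by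
    rw [eq_div_iff hR'.ne']
    have e3 : |((a : ℕ) : ℝ) / R - ((b : ℕ) : ℝ) / R - z| * R =
        |(((a : ℕ) : ℝ) / R - ((b : ℕ) : ℝ) / R - z) * R| := by
      rw [abs_mul, abs_of_pos hR']
    rw [e3]
    push_cast
    congr 1
    field_simp
  rw [e2, div_lt_div_iff_of_pos_right hR'] at h1
  have h3 : |(((a : ℕ) : ℤ) - ((b : ℕ) : ℤ) - z * R : ℤ)| < 1 := by exact_mod_cast h1
  rw [Int.abs_lt_one_iff] at h3
  have h4 : ((a : ℕ) : ℤ) - ((b : ℕ) : ℤ) = z * R := by linarith
  have ha' : ((a : ℕ) : ℤ) < R := by exact_mod_cast a.2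
  have hb' : ((b : ℕ) : ℤ) < R := by exact_mod_cast b.2
  have ha0 : (0 : ℤ) ≤ ((a : ℕ) : ℤ) := by positivity
  have hb0 : (0 : ℤ) ≤ ((b : ℕ) : ℤ) := by positivity
  have hz0 : z = 0 := by
    by_contra hz0
    rcases lt_or_gt_of_ne hz0 with h | h
    · have : z * R ≤ -1 * R := by
        apply mul_le_mul_of_nonneg_right (by omega) (by positivity)
      omega
    · have : 1 * R ≤ z * R := by
        apply mul_le_mul_of_nonneg_right (by omega) (by positivity)
      omega
  rw [hz0, zero_mul] at h4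
  apply hne
  apply Fin.ext
  omega

theorem exists_walls (E : Set (Λ → ℝ)) (Cen : Finset (Λ → ℝ)) (ρ t : ℝ) (ht : 0 < t)
    (h1 : ∀ x ∈ E, ∃ c ∈ Cen, ∑ l, (x l - c l) ^ 2 ≤ ρ) (R n : ℕ) (hR : 0 < R)
    (h2 : n * t ≤ 1 / (4 * R)) (k : ℕ)
    (h3 : (Cen.card : ℝ) * 2 ^ Fintype.card Λ < (R : ℝ) ^ k) :
    ∃ ξ : Λ → ℝ, (∀ l, 0 ≤ ξ l) ∧ (∀ l, ξ l ≤ 1) ∧
      ∀ x ∈ E, ({l | dZ (n * x l - ξ l) < 1 / (4 * R)}.ncard : ℝ) ≤ k + ρ / t ^ 2 := by
  classical
  have hR' : (0 : ℝ) < R := by exact_mod_cast hR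
  set close : (Λ → ℝ) → (Λ → Fin R) → Finset Λ := fun c ζ =>
    Finset.univ.filter (fun l => dZ (n * c l - (ζ l : ℕ) / (R : ℝ)) < 1 / (2 * R)) with hclose
  -- number of bad choices for a single centre and a single set
  have hcount : ∀ (c : Λ → ℝ) (S : Finset Λ),
      (Finset.univ.filter (fun ζ : Λ → Fin R => S ⊆ close c ζ)).card ≤
        R ^ (Fintype.card Λ - S.card) := by
    intro c S
    have hsub : (Finset.univ.filter (fun ζ : Λ → Fin R => S ⊆ close c ζ)) ⊆
        Fintype.piFinset (fun l => if l ∈ S then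
          (Finset.univ.filter (fun a : Fin R => dZ (n * c l - (a : ℕ) / (R : ℝ)) < 1 / (2 * R)))
          else Finset.univ) := by
      intro ζ hζ
      rw [Fintype.mem_piFinset]
      intro l
      have h := (Finset.mem_filter.1 hζ).2
      by_cases hl : l ∈ S
      · rw [if_pos hl, Finset.mem_filter]
        exact ⟨Finset.mem_univ _, (Finset.mem_filter.1 (h hl)).2⟩
      · rw [if_neg hl]; exact Finset.mem_univ _
    refine (Finset.card_le_card hsub).trans ?_
    rw [Fintype.card_piFinset]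
    calc ∏ l, (if l ∈ S then
          (Finset.univ.filter (fun a : Fin R => dZ (n * c l - (a : ℕ) / (R : ℝ)) < 1 / (2 * R)))
          else Finset.univ).card ≤ ∏ l, (if l ∈ S then 1 else R) := by
          apply Finset.prod_le_prod' 
          intro l _
          by_cases hl : l ∈ S
          · rw [if_pos hl, if_pos hl, Finset.card_le_one]
            intro a ha b hb
            exact close_unique R _ a b (Finset.mem_filter.1 ha).2 (Finset.mem_filter.1 hb).2
          · rw [if_neg hl, if_neg hl]; simp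
      _ = R ^ (Fintype.card Λ - S.card) := by
          rw [Finset.prod_ite, Finset.prod_const_one, one_mul, Finset.prod_const]
          congr 1
          rw [← Finset.card_compl]
          congr 1
          ext l; simp
  have hex : ∃ ζ : Λ → Fin R, ∀ c ∈ Cen, (close c ζ).card < k := by
    by_contra hcon
    push Not at hcon
    by_cases hkΛ : k ≤ Fintype.card Λ
    · have hsub : (Finset.univ : Finset (Λ → Fin R)) ⊆
          Cen.biUnion fun c => (Finset.univ.powersetCard k).biUnion fun S =>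
            Finset.univ.filter (fun ζ : Λ → Fin R => S ⊆ close c ζ) := by
        intro ζ _
        obtain ⟨c, hc, hck⟩ := hcon ζ
        obtain ⟨S, hS, hSk⟩ := Finset.exists_subset_card_eq hck
        rw [Finset.mem_biUnion]
        refine ⟨c, hc, ?_⟩
        rw [Finset.mem_biUnion]
        refine ⟨S, Finset.mem_powersetCard.2 ⟨Finset.subset_univ _, hSk⟩, ?_⟩
        exact Finset.mem_filter.2 ⟨Finset.mem_univ _, hS⟩
      have hcard := Finset.card_le_card hsub
      have hb : (Cen.biUnion fun c => (Finset.univ.powersetCard k).biUnion fun S =>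
            Finset.univ.filter (fun ζ : Λ → Fin R => S ⊆ close c ζ)).card ≤
          Cen.card * (2 ^ Fintype.card Λ * R ^ (Fintype.card Λ - k)) := by
        refine Finset.card_biUnion_le_card_mul _ _ _ fun c _ => ?_
        refine (Finset.card_biUnion_le_card_mul _ _ (R ^ (Fintype.card Λ - k)) fun S hS => ?_).trans ?_
        · rw [← (Finset.mem_powersetCard.1 hS).2]
          exact hcount c S
        · apply Nat.mul_le_mul_right
          calc (Finset.univ.powersetCard k).card ≤ (Finset.univ : Finset Λ).powerset.card := by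
                apply Finset.card_le_card
                intro S hS
                rw [Finset.mem_powerset]
                exact Finset.subset_univ _
            _ = 2 ^ Fintype.card Λ := by rw [Finset.card_powerset, Finset.card_univ]
      have h4 := hcard.trans hb
      rw [Finset.card_univ, Fintype.card_fun, Fintype.card_fin] at h4
      have h5 : (R : ℝ) ^ Fintype.card Λ ≤
          Cen.card * (2 ^ Fintype.card Λ * R ^ (Fintype.card Λ - k)) := by exact_mod_cast h4
      have h6 : (R : ℝ) ^ Fintype.card Λ = R ^ k * R ^ (Fintype.card Λ - k) := by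
        rw [← pow_add]; congr 1; omega
      rw [h6, ← mul_assoc] at h5
      have h7 : (0 : ℝ) < R ^ (Fintype.card Λ - k) := by positivity
      have h8 := le_of_mul_le_mul_right h5 h7
      linarith
    · obtain ⟨c, hc, hck⟩ := hcon (fun _ => ⟨0, hR⟩)
      have : (close c (fun _ => ⟨0, hR⟩)).card ≤ Fintype.card Λ := Finset.card_le_univ _
      omega
  obtain ⟨ζ, hζ⟩ := hex
  refine ⟨fun l => (ζ l : ℕ) / (R : ℝ), fun l => by positivity, fun l => ?_, ?_⟩
  · rw [div_le_one hR']
    exact_mod_cast (ζ l).2.le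
  · intro x hx
    obtain ⟨c, hc, hxc⟩ := h1 x hx
    set far : Finset Λ := Finset.univ.filter (fun l => t < |x l - c l|) with hfar
    have hsub : {l | dZ (n * x l - (ζ l : ℕ) / (R : ℝ)) < 1 / (4 * R)} ⊆
        ((far ∪ close c ζ : Finset Λ) : Set Λ) := by
      intro l hl
      rw [Finset.mem_coe, Finset.mem_union]
      by_cases hf : t < |x l - c l|
      · left; exact Finset.mem_filter.2 ⟨Finset.mem_univ _, hf⟩
      · right
        refine Finset.mem_filter.2 ⟨Finset.mem_univ _, ?_⟩
        have e : n * c l - (ζ l : ℕ) / (R : ℝ) = (n * x l - (ζ l : ℕ) / (R : ℝ)) -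
          n * (x l - c l) := by ring
        rw [e]
        refine (dZ_sub_le _ _).trans_lt ?_
        have a1 : dZ (n * (x l - c l)) ≤ 1 / (4 * R) := by
          refine (dZ_le_abs _).trans ?_
          rw [abs_mul, abs_of_nonneg (Nat.cast_nonneg n)]
          refine le_trans ?_ h2
          exact mul_le_mul_of_nonneg_left (not_lt.1 hf) (Nat.cast_nonneg n)
        have a2 : (1 : ℝ) / (2 * R) = 1 / (4 * R) + 1 / (4 * R) := by field_simp; norm_num
        rw [a2]
        exact add_lt_add_of_lt_of_le hl a1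
    have hfarc : (far.card : ℝ) ≤ ρ / t ^ 2 := by
      rw [le_div_iff₀ (by positivity)]
      calc (far.card : ℝ) * t ^ 2 = ∑ l ∈ far, t ^ 2 := by rw [Finset.sum_const, nsmul_eq_mul]
        _ ≤ ∑ l ∈ far, (x l - c l) ^ 2 := by
            refine Finset.sum_le_sum fun l hl => ?_
            have := (Finset.mem_filter.1 hl).2
            rw [← sq_abs (x l - c l)]
            gcongr
        _ ≤ ∑ l, (x l - c l) ^ 2 := Finset.sum_le_sum_of_subset_of_nonneg (Finset.subset_univ _)
            fun _ _ _ => sq_nonneg _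
        _ ≤ ρ := hxc
    have hc1 : ({l | dZ (n * x l - (ζ l : ℕ) / (R : ℝ)) < 1 / (4 * R)}.ncard : ℝ) ≤
        far.card + (close c ζ).card := by
      have a1 := Set.ncard_le_ncard hsub (Finset.finite_toSet _)
      rw [Set.ncard_coe_finset] at a1
      have a2 := a1.trans (Finset.card_union_le _ _)
      exact_mod_cast a2
    have hc2 : ((close c ζ).card : ℝ) ≤ k := by exact_mod_cast (hζ c hc).le
    linarith

end

end Pool.Agent.V11111.MD
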