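import Mathlib
import Pool.Agent.V11111.MD.Low3
import Pool.Agent.V11111.MD.Walls
import Pool.Agent.V11111.MD.Net

/-! Preparations for the upper bound. -/

set_option autoImplicit false

open Filter Topology Set

noncomputable section

namespace Pool.Agent.V11111.MD

theorem circle_net (e : ℝ) (he : 0 < e) : ∃ C : Finset (AddCircle (1 : ℝ)),
    ∀ y, ∃ c ∈ C, ‖y - c‖ < e := by
  obtain ⟨t, _, htf, ht⟩ := (isCompact_univ (X := AddCircle (1 : ℝ))).finite_cover_balls he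
  refine ⟨htf.toFinset, fun y => ?_⟩
  have := ht (show y ∈ Set.univ from trivial)
  simp only [Set.mem_iUnion] at this
  obtain ⟨c, hc, hb⟩ := this
  refine ⟨c, htf.mem_toFinset.2 hc, ?_⟩
  rw [← dist_eq_norm]
  exact hb

theorem circle_close (C : Finset (AddCircle (1 : ℝ))) (e e' : ℝ)
    (hC : ∀ y : AddCircle (1 : ℝ), ∃ c ∈ C, ‖y - c‖ < e) (y y' : AddCircle (1 : ℝ))
    (h : ∀ c ∈ C, |‖y - c‖ - ‖y' - c‖| ≤ e') : ‖y - y'‖ < 2 * e + e' := by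
  obtain ⟨c, hc, hyc⟩ := hC y
  have h1 := abs_le.1 (h c hc)
  calc ‖y - y'‖ = ‖(y - c) - (y' - c)‖ := by rw [sub_sub_sub_cancel_right]
    _ ≤ ‖y - c‖ + ‖y' - c‖ := norm_sub_le _ _
    _ < _ := by linarith

theorem circle_close_w (C : Finset (AddCircle (1 : ℝ))) (e e' : ℝ)
    (hC : ∀ y : AddCircle (1 : ℝ), ∃ c ∈ C, ‖y - c‖ < e) (y y' : AddCircle (1 : ℝ))
    (θ' : ℝ) (hθ' : |1 - θ'| ≤ e') (he' : e' ≤ 1 / 2)
    (h : ∀ c ∈ C, |1 * ‖y - c‖ - θ' * ‖y' - c‖| ≤ e') : ‖y - y'‖ < 3 * e + 2 * e' := by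
  obtain ⟨c, hc, hyc⟩ := hC y
  have h1 := abs_le.1 (h c hc)
  have h2 := abs_le.1 hθ'
  have h3 : 0 ≤ ‖y' - c‖ := norm_nonneg _
  calc ‖y - y'‖ = ‖(y - c) - (y' - c)‖ := by rw [sub_sub_sub_cancel_right]
    _ ≤ ‖y - c‖ + ‖y' - c‖ := norm_sub_le _ _
    _ < _ := by nlinarith

/-- the lift of a point of the circle to `[0,1)` -/
def lf (y : AddCircle (1 : ℝ)) : ℝ := (AddCircle.equivIco 1 0 y : ℝ)

theorem lf_coe (y : AddCircle (1 : ℝ)) : ((lf y : ℝ) : AddCircle (1 : ℝ)) = y :=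
  (AddCircle.equivIco 1 0).symm_apply_apply y

theorem lf_nonneg (y : AddCircle (1 : ℝ)) : 0 ≤ lf y := (AddCircle.equivIco 1 0 y).2.1

theorem lf_lt (y : AddCircle (1 : ℝ)) : lf y < 1 := by
  have : lf y < 0 + 1 := (AddCircle.equivIco 1 0 y).2.2
  linarith

section
variable {Γ : Type} [Group Γ] {m : ℕ} {A : Type} [AddCommGroup A] [Module (MonoidAlgebra ℤ Γ) A]

theorem dact_cont (t : Γ) : Continuous (dact (A := A) t) := by
  refine continuous_induced_rng.2 (continuous_pi fun b => ?_)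
  exact Dual.cont_eval (gr t⁻¹ • b)

/-- the defect at `j` -/
def dft (ρ : CMetric (Dual A)) (F : Finset Γ) {d : ℕ} (σ : Γ → Equiv.Perm (Fin d)) (j : Fin d)
    (z : Fin d → Dual A) : ℝ := ∑ t ∈ F, ρ.ρ (z (σ t j)) (dact t (z j))

theorem dft_cont (ρ : CMetric (Dual A)) (F : Finset Γ) {d : ℕ} (σ : Γ → Equiv.Perm (Fin d))
    (j : Fin d) : Continuous (dft ρ F σ j) := by
  unfold dft
  refine continuous_finsetSum _ fun t _ => ?_
  have h1 : Continuous fun z : Fin d → Dual A => (z (σ t j), dact t (z j)) :=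
    (continuous_apply (σ t j)).prodMk ((dact_cont t).comp (continuous_apply j))
  exact ρ.cont.comp h1

theorem dft_le (ρ : CMetric (Dual A)) (F : Finset Γ) {d : ℕ} (σ : Γ → Equiv.Perm (Fin d))
    (j : Fin d) (z : Fin d → Dual A) (t : Γ) (ht : t ∈ F) :
    ρ.ρ (z (σ t j)) (dact t (z j)) ≤ dft ρ F σ j z :=
  Finset.single_le_sum (f := fun t => ρ.ρ (z (σ t j)) (dact t (z j)))
    (fun _ _ => ρ.nonneg _ _) ht

/-- the set of bad points -/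
def sbd (ρ : CMetric (Dual A)) (F : Finset Γ) {d : ℕ} (σ : Γ → Equiv.Perm (Fin d)) (δ1 : ℝ)
    (z : Fin d → Dual A) : Set (Fin d) := {j | δ1 / 2 < dft ρ F σ j z}

theorem sbd_card (ρ : CMetric (Dual A)) (F : Finset Γ) {d : ℕ} (hd : 0 < d)
    (σ : Γ → Equiv.Perm (Fin d)) (δ1 δ : ℝ) (hδ1 : 0 < δ1) (hδ : 0 < δ)
    (z : Fin d → Dual A) (hz : z ∈ ρ.Map dact F δ σ) :
    ((sbd ρ F σ δ1 z).ncard : ℝ) * (δ1 / 2) ^ 2 ≤ (F.card : ℝ) ^ 2 * δ ^ 2 * d := by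
  classical
  have hd' : (0 : ℝ) < d := by exact_mod_cast hd
  have h1 : ∀ t ∈ F, ∑ j, ρ.ρ (z (σ t j)) (dact t (z j)) ^ 2 ≤ δ ^ 2 * d := by
    intro t ht
    have h2 := hz t ht
    unfold CMetric.two at h2
    rw [Real.sqrt_le_left hδ.le, div_le_iff₀ hd'] at h2
    exact h2
  have h2 : ∑ j, dft ρ F σ j z ^ 2 ≤ (F.card : ℝ) ^ 2 * δ ^ 2 * d := by
    calc ∑ j, dft ρ F σ j z ^ 2 ≤ ∑ j, (F.card : ℝ) * ∑ t ∈ F,
          ρ.ρ (z (σ t j)) (dact t (z j)) ^ 2 :=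
          Finset.sum_le_sum fun j _ => sq_sum_le_card_mul_sum_sq
      _ = (F.card : ℝ) * ∑ t ∈ F, ∑ j, ρ.ρ (z (σ t j)) (dact t (z j)) ^ 2 := by
          rw [← Finset.mul_sum, Finset.sum_comm]
      _ ≤ (F.card : ℝ) * ∑ t ∈ F, δ ^ 2 * d := by
          gcongr with t ht
          exact h1 t ht
      _ = _ := by rw [Finset.sum_const, nsmul_eq_mul]; ring
  refine le_trans ?_ h2
  have h3 : (sbd ρ F σ δ1 z).ncard = (Finset.univ.filter fun j => δ1 / 2 < dft ρ F σ j z).card := by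
    rw [Set.ncard_eq_toFinset_card']
    congr 1
    ext j; simp [sbd]
  rw [h3]
  calc ((Finset.univ.filter fun j => δ1 / 2 < dft ρ F σ j z).card : ℝ) * (δ1 / 2) ^ 2
      = ∑ j ∈ Finset.univ.filter (fun j => δ1 / 2 < dft ρ F σ j z), (δ1 / 2) ^ 2 := by
        rw [Finset.sum_const, nsmul_eq_mul]
    _ ≤ ∑ j ∈ Finset.univ.filter (fun j => δ1 / 2 < dft ρ F σ j z), dft ρ F σ j z ^ 2 := by
        refine Finset.sum_le_sum fun j hj => ?_
        have := (Finset.mem_filter.1 hj).2.le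
        gcongr
    _ ≤ _ := Finset.sum_le_sum_of_subset_of_nonneg (Finset.subset_univ _) fun _ _ _ => sq_nonneg _

/-- the cut-off function -/
def tht (ρ : CMetric (Dual A)) (F : Finset Γ) {d : ℕ} (σ : Γ → Equiv.Perm (Fin d)) (δ1 : ℝ)
    (j : Fin d) (z : Fin d → Dual A) : ℝ := max 0 (min 1 (2 * dft ρ F σ j z / δ1 - 1))

theorem tht_cont (ρ : CMetric (Dual A)) (F : Finset Γ) {d : ℕ} (σ : Γ → Equiv.Perm (Fin d))
    (δ1 : ℝ) (j : Fin d) : Continuous (tht ρ F σ δ1 j) := by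
  unfold tht
  have := dft_cont ρ F σ j
  fun_prop

theorem tht_nonneg (ρ : CMetric (Dual A)) (F : Finset Γ) {d : ℕ} (σ : Γ → Equiv.Perm (Fin d))
    (δ1 : ℝ) (j : Fin d) (z : Fin d → Dual A) : 0 ≤ tht ρ F σ δ1 j z := le_max_left _ _

theorem tht_le (ρ : CMetric (Dual A)) (F : Finset Γ) {d : ℕ} (σ : Γ → Equiv.Perm (Fin d))
    (δ1 : ℝ) (j : Fin d) (z : Fin d → Dual A) : tht ρ F σ δ1 j z ≤ 1 :=
  max_le zero_le_one (min_le_left _ _)

theorem tht_zero (ρ : CMetric (Dual A)) (F : Finset Γ) {d : ℕ} (σ : Γ → Equiv.Perm (Fin d))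
    (δ1 : ℝ) (hδ1 : 0 < δ1) (j : Fin d) (z : Fin d → Dual A) (h : j ∉ sbd ρ F σ δ1 z) :
    tht ρ F σ δ1 j z = 0 := by
  have h1 : dft ρ F σ j z ≤ δ1 / 2 := not_lt.1 h
  unfold tht
  apply max_eq_left
  refine (min_le_right _ _).trans ?_
  rw [sub_nonpos, div_le_one hδ1]
  linarith

theorem tht_lt_one (ρ : CMetric (Dual A)) (F : Finset Γ) {d : ℕ} (σ : Γ → Equiv.Perm (Fin d))
    (δ1 : ℝ) (hδ1 : 0 < δ1) (j : Fin d) (z : Fin d → Dual A) (h : tht ρ F σ δ1 j z < 1) :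
    dft ρ F σ j z < δ1 := by
  by_contra hcon
  push Not at hcon
  have h1 : 1 ≤ 2 * dft ρ F σ j z / δ1 - 1 := by
    rw [le_sub_iff_add_le, le_div_iff₀ hδ1]
    linarith
  unfold tht at h
  rw [min_eq_left h1] at h
  simp at h

/-- `∑ v(g,l) y(σ(g⁻¹) j, l)` -/
def yv {d : ℕ} (τ : Γ → Equiv.Perm (Fin d)) (a : Fin m → A) (z : Fin d → Dual A)
    (v : Γ × Fin m →₀ ℤ) (j : Fin d) : AddCircle (1 : ℝ) :=
  v.sum fun p n => n • (z (τ p.1 j)).toFun (a p.2)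

/-- the norm of an integral vector -/
def n1 (v : Γ × Fin m →₀ ℤ) : ℝ := v.sum fun _ n => |(n : ℝ)|

omit [Group Γ] in
theorem n1_nonneg (v : Γ × Fin m →₀ ℤ) : 0 ≤ n1 v := Finset.sum_nonneg fun _ _ => abs_nonneg _

theorem Dual.phi_sum (χ : Dual A) (a : Fin m → A) (v : Γ × Fin m →₀ ℤ) :
    χ.toFun (phi a v) = v.sum fun p n => n • χ.toFun (gr p.1 • a p.2) := by
  rw [← Dual.hom_apply, phi, Finsupp.linearCombination_apply, Finsupp.sum, map_sum]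
  refine Finset.sum_congr rfl fun p _ => ?_
  rw [map_zsmul]
  rfl

theorem norm_zsmul_le' (n : ℤ) (y : AddCircle (1 : ℝ)) : ‖n • y‖ ≤ |(n : ℝ)| * ‖y‖ := by
  have := norm_zsmul_le n y
  rwa [Int.norm_eq_abs] at this

theorem yv_close (S : Sofic Γ) (i : ℕ) (ρ : CMetric (Dual A)) (F : Finset Γ) (a : Fin m → A)
    (δ1 err : ℝ)
    (hδ1 : ∀ χ ψ : Dual A, ρ.ρ χ ψ < δ1 → ∀ l, ‖χ.toFun (a l) - ψ.toFun (a l)‖ < err)
    (j : Fin (S.d i)) (z : Fin (S.d i) → Dual A) (hz : dft ρ F (S.σ i) j z < δ1)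
    (v : Γ × Fin m →₀ ℤ) (hv : ∀ p ∈ v.support, p.1⁻¹ ∈ F) :
    ‖(z j).toFun (phi a v) - yv (S.tau i) a z v j‖ ≤ n1 v * err := by
  rw [Dual.phi_sum, yv, Finsupp.sum, Finsupp.sum, ← Finset.sum_sub_distrib, n1, Finsupp.sum,
    Finset.sum_mul]
  refine (norm_sum_le _ _).trans (Finset.sum_le_sum fun p hp => ?_)
  rw [← smul_sub]
  refine (norm_zsmul_le' _ _).trans ?_
  have h1 := hδ1 _ _ ((dft_le ρ F (S.σ i) j z _ (hv p hp)).trans_lt hz) p.2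
  have h2 : (dact p.1⁻¹ (z j)).toFun (a p.2) = (z j).toFun (gr p.1 • a p.2) := by
    change (z j).toFun (gr p.1⁻¹⁻¹ • a p.2) = _
    rw [inv_inv]
  rw [h2, norm_sub_rev] at h1
  exact mul_le_mul_of_nonneg_left h1.le (abs_nonneg _)

theorem yv_sub {d : ℕ} (τ : Γ → Equiv.Perm (Fin d)) (a : Fin m → A) (z z' : Fin d → Dual A)
    (e : ℝ) (h : ∀ j l, ‖(z j).toFun (a l) - (z' j).toFun (a l)‖ ≤ e)
    (v : Γ × Fin m →₀ ℤ) (j : Fin d) : ‖yv τ a z v j - yv τ a z' v j‖ ≤ n1 v * e := by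
  rw [yv, yv, Finsupp.sum, Finsupp.sum, ← Finset.sum_sub_distrib, n1, Finsupp.sum, Finset.sum_mul]
  refine (norm_sum_le _ _).trans (Finset.sum_le_sum fun p hp => ?_)
  rw [← smul_sub]
  refine (norm_zsmul_le' _ _).trans ?_
  exact mul_le_mul_of_nonneg_left (h _ _) (abs_nonneg _)

end

end Pool.Agent.V11111.MD
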