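import Mathlib
import Pool.Agent.V11111.MD.Up1

/-! Centers for the almost equivariant maps. -/

set_option autoImplicit false

open Filter Topology Set

noncomputable section

namespace Pool.Agent.V11111.MD

section
variable {Γ : Type} [Group Γ] [DecidableEq Γ] {m : ℕ} {A : Type} [AddCommGroup A]
  [Module (MonoidAlgebra ℤ Γ) A]

/-- the lifts of the coordinates -/
def ty {d : ℕ} (a : Fin m → A) (z : Fin d → Dual A) : Fin d × Fin m → ℝ :=
  fun p => lf ((z p.1).toFun (a p.2))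

theorem M_coe {d : ℕ} (τ : Γ → Equiv.Perm (Fin d)) (a : Fin m → A) (E : Finset Γ)
    (s : Finset (Γ × Fin m →₀ ℤ)) (hs : ∀ v ∈ s, v ∈ supE m E) (z : Fin d → Dual A) (j : Fin d)
    (q : s) : (((Rm E (cf s) τ).mulVec (ty a z) (j, q) : ℝ) : AddCircle (1 : ℝ)) =
      yv τ a z q.1 j := by
  rw [Rm_mulVec, yv, Finsupp.sum_of_support_subset (s := E ×ˢ (Finset.univ : Finset (Fin m))) _ _ _
    (fun p _ => by simp), Finset.sum_product]
  · have h1 : ∀ f : Γ → ℝ, ((∑ g ∈ E, f g : ℝ) : AddCircle (1 : ℝ)) =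
        ∑ g ∈ E, ((f g : ℝ) : AddCircle (1 : ℝ)) := fun f =>
      map_sum (QuotientAddGroup.mk' (AddSubgroup.zmultiples (1 : ℝ))) f E
    have h2 : ∀ f : Fin m → ℝ, ((∑ l, f l : ℝ) : AddCircle (1 : ℝ)) =
        ∑ l, ((f l : ℝ) : AddCircle (1 : ℝ)) := fun f =>
      map_sum (QuotientAddGroup.mk' (AddSubgroup.zmultiples (1 : ℝ))) f Finset.univ
    rw [h1]
    refine Finset.sum_congr rfl fun g _ => ?_
    rw [h2]
    refine Finset.sum_congr rfl fun l _ => ?_
    have h3 : ((cf s q g l : ℝ) * ty a z (τ g j, l)) = (q.1 (g, l)) • ty a z (τ g j, l) := by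
      rw [zsmul_eq_mul]; rfl
    rw [h3, AddCircle.coe_zsmul, ty, lf_coe]
  · intro p hp
    exact Finset.mem_product.2 ⟨(mem_supE E _).1 (hs q.1 q.2) p hp, Finset.mem_univ _⟩

theorem n1_eq (E : Finset Γ) (v : Γ × Fin m →₀ ℤ) (hv : v ∈ supE m E) :
    n1 v = ∑ g ∈ E, ∑ l, |(v (g, l) : ℝ)| := by
  rw [n1, Finsupp.sum_of_support_subset (s := E ×ˢ (Finset.univ : Finset (Fin m))) _ _ _
    (fun p _ => by simp), Finset.sum_product]
  intro p hp
  exact Finset.mem_product.2 ⟨(mem_supE E _).1 hv p hp, Finset.mem_univ _⟩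

theorem M_abs {d : ℕ} (τ : Γ → Equiv.Perm (Fin d)) (a : Fin m → A) (E : Finset Γ)
    (s : Finset (Γ × Fin m →₀ ℤ)) (hs : ∀ v ∈ s, v ∈ supE m E) (z : Fin d → Dual A) (j : Fin d)
    (q : s) : |(Rm E (cf s) τ).mulVec (ty a z) (j, q)| ≤ n1 q.1 := by
  rw [Rm_mulVec, n1_eq E q.1 (hs q.1 q.2)]
  refine (Finset.abs_sum_le_sum_abs _ _).trans (Finset.sum_le_sum fun g _ => ?_)
  refine (Finset.abs_sum_le_sum_abs _ _).trans (Finset.sum_le_sum fun l _ => ?_)
  rw [abs_mul]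
  have h1 : |ty a z (τ g j, l)| ≤ 1 := by
    unfold ty
    rw [abs_of_nonneg (lf_nonneg _)]
    exact (lf_lt _).le
  calc _ ≤ |(cf s q g l : ℝ)| * 1 := mul_le_mul_of_nonneg_left h1 (abs_nonneg _)
    _ = _ := by rw [mul_one]; rfl

/-- the labels -/
def lab {d : ℕ} (τ : Γ → Equiv.Perm (Fin d)) (a : Fin m → A) (E : Finset Γ)
    (s : Finset (Γ × Fin m →₀ ℤ)) (z : Fin d → Dual A) : Fin d × s → ℤ :=
  fun p => round ((Rm E (cf s) τ).mulVec (ty a z) p)

theorem lab_mem {d : ℕ} (τ : Γ → Equiv.Perm (Fin d)) (a : Fin m → A) (E : Finset Γ)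
    (s : Finset (Γ × Fin m →₀ ℤ)) (hs : ∀ v ∈ s, v ∈ supE m E) (B1 : ℝ)
    (hB1 : ∀ v ∈ s, n1 v ≤ B1) (L : ℕ) (hL : B1 + 1 ≤ L) (z : Fin d → Dual A) :
    lab τ a E s z ∈ Fintype.piFinset fun _ : Fin d × s => Finset.Icc (-(L : ℤ)) L := by
  rw [Fintype.mem_piFinset]
  rintro ⟨j, q⟩
  have h1 := M_abs τ a E s hs z j q
  have h2 := hB1 q.1 q.2
  have h3 := abs_sub_round ((Rm E (cf s) τ).mulVec (ty a z) (j, q))
  rw [Finset.mem_Icc]
  have h4 := abs_le.1 (h1.trans h2)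
  have h5 := abs_le.1 h3
  have e1 : (lab τ a E s z (j, q) : ℝ) ≤ L := by
    unfold lab; linarith [h5.1]
  have e2 : (-(L : ℝ)) ≤ (lab τ a E s z (j, q) : ℝ) := by
    unfold lab; linarith [h5.2]
  constructor
  · exact_mod_cast e2
  · exact_mod_cast e1

theorem err_le (S : Sofic Γ) (i : ℕ) (ρ : CMetric (Dual A)) (F : Finset Γ) (a : Fin m → A)
    (E : Finset Γ) (s : Finset (Γ × Fin m →₀ ℤ)) (hs : ∀ v ∈ s, phi a v = 0 ∧ v ∈ supE m E)
    (hEF : ∀ g ∈ E, g⁻¹ ∈ F) (δ1 err B1 : ℝ) (hδ0 : 0 < δ1) (herr : 0 ≤ err)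
    (hδ1 : ∀ χ ψ : Dual A, ρ.ρ χ ψ < δ1 → ∀ l, ‖χ.toFun (a l) - ψ.toFun (a l)‖ < err)
    (hB1 : ∀ v ∈ s, n1 v ≤ B1) (z : Fin (S.d i) → Dual A) (j : Fin (S.d i)) (q : s)
    (hj : j ∉ sbd ρ F (S.σ i) δ1 z) :
    |(Rm E (cf s) (S.tau i)).mulVec (ty a z) (j, q) - lab (S.tau i) a E s z (j, q)| ≤ B1 * err := by
  have h1 : dft ρ F (S.σ i) j z < δ1 := by
    have : dft ρ F (S.σ i) j z ≤ δ1 / 2 := not_lt.1 hj
    linarith
  have h2 := yv_close S i ρ F a δ1 err hδ1 j z h1 q.1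
    (fun p hp => hEF _ ((mem_supE E _).1 (hs q.1 q.2).2 p hp))
  have h0 : (z j).toFun (phi a q.1) = 0 := by
    rw [(hs q.1 q.2).1, ← Dual.hom_apply, map_zero]
  rw [h0, zero_sub, norm_neg, ← M_coe (S.tau i) a E s (fun v hv => (hs v hv).2)] at h2
  unfold lab
  have h3 := dZ_eq ((Rm E (cf s) (S.tau i)).mulVec (ty a z) (j, q))
  rw [← h3]
  exact h2.trans (mul_le_mul_of_nonneg_right (hB1 q.1 q.2) herr)

theorem exists_centers (S : Sofic Γ) (i : ℕ) (ρ : CMetric (Dual A)) (F : Finset Γ)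
    (a : Fin m → A) (E : Finset Γ) (s : Finset (Γ × Fin m →₀ ℤ))
    (hs : ∀ v ∈ s, phi a v = 0 ∧ v ∈ supE m E)
    (hEF : ∀ g ∈ E, g⁻¹ ∈ F) (δ1 err B1 : ℝ) (hδ0 : 0 < δ1) (herr : 0 ≤ err)
    (hδ1 : ∀ χ ψ : Dual A, ρ.ρ χ ψ < δ1 → ∀ l, ‖χ.toFun (a l) - ψ.toFun (a l)‖ < err)
    (hB1 : ∀ v ∈ s, n1 v ≤ B1) (L : ℕ) (hL : B1 + 1 ≤ L) (Z : Set (Fin (S.d i) → Dual A)) (β : ℝ)
    (hβ : ∀ z ∈ Z, ((sbd ρ F (S.σ i) δ1 z).ncard : ℝ) ≤ β * S.d i) (hd : 0 < S.d i)
    (C : Finset (AddCircle (1 : ℝ))) (ε r : ℝ) (hε : 0 < ε) (hr : 0 < r) :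
    ∃ Cen : Finset (Fin (S.d i) × Fin m × C → ℝ),
      (Cen.card : ℝ) ≤ (2 * L + 1) ^ (S.d i * s.card) *
        (1 + 2 / r) ^ Fintype.card {p // (Sd E (cf s) (S.tau i)).ev p ≤ ε} ∧
      ∀ z ∈ Z, ∃ c ∈ Cen,
        ∑ q : Fin (S.d i) × Fin m × C, (‖(z q.1).toFun (a q.2.1) - q.2.2.1‖ - c q) ^ 2 ≤
          C.card * (r ^ 2 * (S.d i * (m + 1)) +
            (s.card * S.d i * (4 * (B1 * err) ^ 2 + 2 * β)) / ε) := by
  classical
  have hd' : (0 : ℝ) < S.d i := by exact_mod_cast hd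
  set B : ℝ := Real.sqrt ((S.d i) * (m + 1)) with hB
  have hB0 : 0 < B := Real.sqrt_pos.2 (by positivity)
  have hB2 : B ^ 2 = (S.d i) * (m + 1) := Real.sq_sqrt (by positivity)
  clear_value B
  obtain ⟨N, hN1, hN2⟩ := exists_net (Sd E (cf s) (S.tau i)) ε r B hε hr hB0
  set LB := Fintype.piFinset fun _ : Fin (S.d i) × s => Finset.Icc (-(L : ℤ)) L with hLB
  -- representatives of the labels
  set rep : (Fin (S.d i) × s → ℤ) → (Fin (S.d i) → Dual A) := fun lam =>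
    if h : ∃ z, z ∈ Z ∧ lab (S.tau i) a E s z = lam then h.choose else fun _ => ⟨fun _ => 0, by simp⟩ with hrep
  have hrep1 : ∀ z ∈ Z, rep (lab (S.tau i) a E s z) ∈ Z ∧
      lab (S.tau i) a E s (rep (lab (S.tau i) a E s z)) = lab (S.tau i) a E s z := by
    intro z hz
    have h : ∃ z', z' ∈ Z ∧ lab (S.tau i) a E s z' = lab (S.tau i) a E s z := ⟨z, hz, rfl⟩
    rw [hrep]
    simp only [h, dif_pos]
    exact h.choose_spec
  set cen : (Fin (S.d i) × s → ℤ) × (Fin (S.d i) × Fin m → ℝ) → (Fin (S.d i) × Fin m × C → ℝ) := fun p q =>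
    ‖((ty a (rep p.1) (q.1, q.2.1) + p.2 (q.1, q.2.1) : ℝ) : AddCircle (1 : ℝ)) - q.2.2.1‖ with hcen
  refine ⟨(LB ×ˢ N).image cen, ?_, ?_⟩
  · have h1 : LB.card = (2 * L + 1) ^ ((S.d i) * s.card) := by
      rw [hLB, Fintype.card_piFinset]
      simp only [Int.card_Icc, Finset.prod_const, Finset.card_univ, Fintype.card_prod,
        Fintype.card_fin, Fintype.card_coe]
      congr 1
      omega
    calc (((LB ×ˢ N).image cen).card : ℝ) ≤ ((LB ×ˢ N).card : ℝ) := by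
          exact_mod_cast Finset.card_image_le
      _ = (2 * L + 1) ^ ((S.d i) * s.card) * (N.card : ℝ) := by
          rw [Finset.card_product, h1]; push_cast; ring
      _ ≤ _ := by gcongr
  · intro z hz
    obtain ⟨hz1, hz2⟩ := hrep1 z hz
    set z' := rep (lab (S.tau i) a E s z) with hz'
    set v : Fin (S.d i) × Fin m → ℝ := ty a z - ty a z' with hv
    have hvB : ∑ p, v p ^ 2 ≤ B ^ 2 := by
      rw [hB2]
      calc ∑ p, v p ^ 2 ≤ ∑ p : Fin (S.d i) × Fin m, (1 : ℝ) := by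
            refine Finset.sum_le_sum fun p _ => ?_
            have h1 : v p = lf ((z p.1).toFun (a p.2)) - lf ((z' p.1).toFun (a p.2)) := rfl
            rw [h1]
            have a1 := lf_nonneg ((z p.1).toFun (a p.2))
            have a2 := lf_lt ((z p.1).toFun (a p.2))
            have a3 := lf_nonneg ((z' p.1).toFun (a p.2))
            have a4 := lf_lt ((z' p.1).toFun (a p.2))
            rw [sq_le_one_iff_abs_le_one, abs_le]
            constructor <;> linarith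
        _ = (S.d i) * m := by simp
        _ ≤ _ := by nlinarith
    obtain ⟨u, hu, huv⟩ := hN2 v hvB
    refine ⟨cen (lab (S.tau i) a E s z, u), Finset.mem_image_of_mem _ (Finset.mem_product.2
      ⟨lab_mem (S.tau i) a E s (fun v hv => (hs v hv).2) B1 hB1 L hL z, hu⟩), ?_⟩
    -- the error of `M v`
    have hMv : ∑ p, ((Rm E (cf s) (S.tau i)).mulVec v) p ^ 2 ≤ s.card * (S.d i) * (4 * (B1 * err) ^ 2 + 2 * β) := by
      have h1 : ∀ (j : Fin (S.d i)) (q : s), ((Rm E (cf s) (S.tau i)).mulVec v) (j, q) ^ 2 ≤ 4 * (B1 * err) ^ 2 +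
          ((if j ∈ sbd ρ F (S.σ i) δ1 z then 1 else 0) +
            (if j ∈ sbd ρ F (S.σ i) δ1 z' then 1 else 0)) := by
        intro j q
        have e1 : ((Rm E (cf s) (S.tau i)).mulVec v) (j, q) = ((Rm E (cf s) (S.tau i)).mulVec (ty a z) (j, q) - lab (S.tau i) a E s z (j, q)) -
            ((Rm E (cf s) (S.tau i)).mulVec (ty a z') (j, q) - lab (S.tau i) a E s z' (j, q)) := by
          rw [hz2, hv, Matrix.mulVec_sub, Pi.sub_apply]
          ring
        have b1 : |(Rm E (cf s) (S.tau i)).mulVec (ty a z) (j, q) - lab (S.tau i) a E s z (j, q)| ≤ 1 / 2 := abs_sub_round _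
        have b2 : |(Rm E (cf s) (S.tau i)).mulVec (ty a z') (j, q) - lab (S.tau i) a E s z' (j, q)| ≤ 1 / 2 := abs_sub_round _
        have hnn : 0 ≤ 4 * (B1 * err) ^ 2 := by positivity
        have hle1 : ((Rm E (cf s) (S.tau i)).mulVec v) (j, q) ^ 2 ≤ 1 := by
          rw [sq_le_one_iff_abs_le_one, e1]
          refine (abs_sub _ _).trans ?_
          linarith
        by_cases h1 : j ∈ sbd ρ F (S.σ i) δ1 z
        · rw [if_pos h1]
          have : (0 : ℝ) ≤ if j ∈ sbd ρ F (S.σ i) δ1 z' then 1 else 0 := by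
            split_ifs <;> norm_num
          linarith
        · by_cases h2 : j ∈ sbd ρ F (S.σ i) δ1 z'
          · rw [if_pos h2, if_neg h1]
            linarith
          · rw [if_neg h1, if_neg h2, add_zero, add_zero]
            have c1 := err_le S i ρ F a E s hs hEF δ1 err B1 hδ0 herr hδ1 hB1 z j q h1
            have c2 := err_le S i ρ F a E s hs hEF δ1 err B1 hδ0 herr hδ1 hB1 z' j q h2
            have c3 : |((Rm E (cf s) (S.tau i)).mulVec v) (j, q)| ≤ 2 * (B1 * err) := by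
              rw [e1]
              refine (abs_sub _ _).trans ?_
              linarith
            calc ((Rm E (cf s) (S.tau i)).mulVec v) (j, q) ^ 2 = |((Rm E (cf s) (S.tau i)).mulVec v) (j, q)| ^ 2 := (sq_abs _).symm
              _ ≤ (2 * (B1 * err)) ^ 2 := by gcongr
              _ = _ := by ring
      have hcard : ∀ w ∈ Z, ∑ j : Fin (S.d i), (if j ∈ sbd ρ F (S.σ i) δ1 w then (1 : ℝ) else 0) ≤
          β * (S.d i) := by
        intro w hw
        refine le_trans (le_of_eq ?_) (hβ w hw)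
        rw [← Finset.sum_filter, Finset.sum_const, nsmul_eq_mul, mul_one,
          Set.ncard_eq_toFinset_card']
        congr 2
        ext j; simp
      rw [Fintype.sum_prod_type]
      calc ∑ j : Fin (S.d i), ∑ q : s, ((Rm E (cf s) (S.tau i)).mulVec v) (j, q) ^ 2
          ≤ ∑ j : Fin (S.d i), ∑ q : s, (4 * (B1 * err) ^ 2 +
          ((if j ∈ sbd ρ F (S.σ i) δ1 z then 1 else 0) +
            (if j ∈ sbd ρ F (S.σ i) δ1 z' then 1 else 0))) :=
            Finset.sum_le_sum fun j _ => Finset.sum_le_sum fun q _ => h1 j q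
        _ = s.card * ((S.d i) * (4 * (B1 * err) ^ 2) +
            (∑ j : Fin (S.d i), (if j ∈ sbd ρ F (S.σ i) δ1 z then (1 : ℝ) else 0) +
            ∑ j : Fin (S.d i), (if j ∈ sbd ρ F (S.σ i) δ1 z' then (1 : ℝ) else 0))) := by
            simp only [Finset.sum_const, Finset.card_univ, Fintype.card_coe, nsmul_eq_mul]
            rw [← Finset.mul_sum, Finset.sum_add_distrib, Finset.sum_add_distrib]
            simp
        _ ≤ s.card * ((S.d i) * (4 * (B1 * err) ^ 2) + (β * (S.d i) + β * (S.d i))) := by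
            gcongr
            · exact hcard z hz
            · exact hcard z' hz1
        _ = _ := by ring
    have hfin : ∑ q : Fin (S.d i) × Fin m × C,
        (‖(z q.1).toFun (a q.2.1) - q.2.2.1‖ - cen (lab (S.tau i) a E s z, u) q) ^ 2 ≤
        ∑ q : Fin (S.d i) × Fin m × C, (v (q.1, q.2.1) - u (q.1, q.2.1)) ^ 2 := by
      refine Finset.sum_le_sum fun q _ => ?_
      rw [sq_le_sq]
      have e1 : cen (lab (S.tau i) a E s z, u) q =
        ‖((ty a z' (q.1, q.2.1) + u (q.1, q.2.1) : ℝ) : AddCircle (1 : ℝ)) - q.2.2.1‖ := rfl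
      rw [e1]
      refine (abs_norm_sub_norm_le _ _).trans ?_
      have e2 : (z q.1).toFun (a q.2.1) = ((ty a z (q.1, q.2.1) : ℝ) : AddCircle (1 : ℝ)) :=
        (lf_coe _).symm
      rw [sub_sub_sub_cancel_right, e2, ← AddCircle.coe_sub]
      have e3 : ty a z (q.1, q.2.1) - (ty a z' (q.1, q.2.1) + u (q.1, q.2.1)) =
          v (q.1, q.2.1) - u (q.1, q.2.1) := by
        rw [hv, Pi.sub_apply]; ring
      rw [e3]
      exact dZ_le_abs _
    refine hfin.trans ?_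
    have hsum : ∑ q : Fin (S.d i) × Fin m × C, (v (q.1, q.2.1) - u (q.1, q.2.1)) ^ 2 =
        C.card * ∑ p, (v p - u p) ^ 2 := by
      rw [Fintype.sum_prod_type, Fintype.sum_prod_type, Finset.mul_sum]
      refine Finset.sum_congr rfl fun j _ => ?_
      rw [Fintype.sum_prod_type, Finset.mul_sum]
      refine Finset.sum_congr rfl fun l _ => ?_
      simp
    rw [hsum]
    gcongr
    refine huv.trans ?_
    rw [mul_pow, hB2]
    gcongr

end

end Pool.Agent.V11111.MD
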