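import Mathlib
import Pool.Agent.V11111.MD.Up1

/-! Covers from walls. -/

set_option autoImplicit false

open Filter Topology Set

noncomputable section

namespace Pool.Agent.V11111.MD

section
variable {Γ : Type} [Group Γ] {m : ℕ} {A : Type} [AddCommGroup A]
  [Module (MonoidAlgebra ℤ Γ) A]

theorem circ_le_one (y : AddCircle (1 : ℝ)) : ‖y‖ ≤ 1 := by
  rw [← lf_coe y]
  exact (dZ_le_half _).trans (by norm_num)

/-- the coordinates -/
def xc (ρ : CMetric (Dual A)) (F : Finset Γ) {d : ℕ} (σ : Γ → Equiv.Perm (Fin d)) (δ1 : ℝ)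
    (a : Fin m → A) (K : Finset A) (C : Finset (AddCircle (1 : ℝ)))
    (l : (Fin d × Fin m × C) ⊕ (Fin d × Option (K × C))) (z : Fin d → Dual A) : ℝ :=
  match l with
  | Sum.inl q => ‖(z q.1).toFun (a q.2.1) - q.2.2.1‖
  | Sum.inr (j, none) => tht ρ F σ δ1 j z
  | Sum.inr (j, some p) => tht ρ F σ δ1 j z * ‖(z j).toFun p.1.1 - p.2.1‖

theorem xc_cont (ρ : CMetric (Dual A)) (F : Finset Γ) {d : ℕ} (σ : Γ → Equiv.Perm (Fin d)) (δ1 : ℝ)
    (a : Fin m → A) (K : Finset A) (C : Finset (AddCircle (1 : ℝ)))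
    (l : (Fin d × Fin m × C) ⊕ (Fin d × Option (K × C))) : Continuous (xc ρ F σ δ1 a K C l) := by
  have hev : ∀ (j : Fin d) (b : A) (c : AddCircle (1 : ℝ)),
      Continuous fun z : Fin d → Dual A => ‖(z j).toFun b - c‖ := by
    intro j b c
    exact (((Dual.cont_eval b).comp (continuous_apply j)).sub continuous_const).norm
  rcases l with q | ⟨j, _ | p⟩
  · exact hev _ _ _
  · exact tht_cont ρ F σ δ1 j
  · exact (tht_cont ρ F σ δ1 j).mul (hev _ _ _)

theorem xc_nonneg (ρ : CMetric (Dual A)) (F : Finset Γ) {d : ℕ} (σ : Γ → Equiv.Perm (Fin d))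
    (δ1 : ℝ) (a : Fin m → A) (K : Finset A) (C : Finset (AddCircle (1 : ℝ)))
    (l : (Fin d × Fin m × C) ⊕ (Fin d × Option (K × C))) (z : Fin d → Dual A) :
    0 ≤ xc ρ F σ δ1 a K C l z := by
  rcases l with q | ⟨j, _ | p⟩
  · exact norm_nonneg _
  · exact tht_nonneg ρ F σ δ1 j z
  · exact mul_nonneg (tht_nonneg ρ F σ δ1 j z) (norm_nonneg _)

theorem xc_le (ρ : CMetric (Dual A)) (F : Finset Γ) {d : ℕ} (σ : Γ → Equiv.Perm (Fin d))
    (δ1 : ℝ) (a : Fin m → A) (K : Finset A) (C : Finset (AddCircle (1 : ℝ)))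
    (l : (Fin d × Fin m × C) ⊕ (Fin d × Option (K × C))) (z : Fin d → Dual A) :
    xc ρ F σ δ1 a K C l z ≤ 1 := by
  rcases l with q | ⟨j, _ | p⟩
  · exact circ_le_one _
  · exact tht_le ρ F σ δ1 j z
  · exact mul_le_one₀ (tht_le ρ F σ δ1 j z) (norm_nonneg _) (circ_le_one _)

theorem hasCover_of (S : Sofic Γ) (i : ℕ) (ρ : CMetric (Dual A)) (F : Finset Γ) (a : Fin m → A)
    (U : Set (Set (Dual A))) (hU : IsFinOpenCover U) (K : Finset A) (ε0 : ℝ)
    (hK : ∀ S : Set (Dual A), S.Nonempty →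
      (∀ χ ∈ S, ∀ ψ ∈ S, ∀ a ∈ K, ‖χ.toFun a - ψ.toFun a‖ < ε0) → ∃ u ∈ U, S ⊆ u)
    (C : Finset (AddCircle (1 : ℝ))) (n : ℕ) (hn : 2 ≤ n)
    (hC : ∀ y : AddCircle (1 : ℝ), ∃ c ∈ C, ‖y - c‖ < 1 / n)
    (lift : A → (Γ × Fin m →₀ ℤ)) (hlift : ∀ b ∈ K, phi a (lift b) = b)
    (hliftF : ∀ b ∈ K, ∀ p ∈ (lift b).support, p.1⁻¹ ∈ F) (B1 : ℝ)
    (hB1 : ∀ b ∈ K, n1 (lift b) ≤ B1) (δ1 err : ℝ) (hδ0 : 0 < δ1) (herr : 0 ≤ err)
    (hδ1 : ∀ χ ψ : Dual A, ρ.ρ χ ψ < δ1 → ∀ l, ‖χ.toFun (a l) - ψ.toFun (a l)‖ < err)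
    (h1 : 5 / n < ε0) (h2 : B1 * (2 * err + 3 / n) < ε0)
    (Z : Set (Fin (S.d i) → Dual A)) (ξ1 : Fin (S.d i) × Fin m × C → ℝ)
    (hξ0 : ∀ l, 0 ≤ ξ1 l) (hξ1 : ∀ l, ξ1 l ≤ 1) (w : ℝ) (hw : 0 < w) (hw2 : w < 1 / 2) (k : ℕ)
    (hk : ∀ z ∈ Z, {l : Fin (S.d i) × Fin m × C |
        dZ (n * ‖(z l.1).toFun (a l.2.1) - l.2.2.1‖ - ξ1 l) < w}.ncard +
      (sbd ρ F (S.σ i) δ1 z).ncard * (K.card * C.card + 1) ≤ k) :
    HasCover U Z k := by
  classical
  have hn0 : 0 < n := by omega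
  have hn' : (0 : ℝ) < n := by exact_mod_cast hn0
  set ξ : (Fin (S.d i) × Fin m × C) ⊕ (Fin (S.d i) × Option (K × C)) → ℝ :=
    Sum.elim ξ1 (fun _ => 1 / 2) with hξ
  obtain ⟨V, hVf, hVo, hVc, hVs, hVk⟩ := walls_cover Z (xc ρ F (S.σ i) δ1 a K C)
    (xc_cont ρ F (S.σ i) δ1 a K C) (xc_nonneg ρ F (S.σ i) δ1 a K C) (xc_le ρ F (S.σ i) δ1 a K C)
    n hn0 ξ (by rintro (l | l); exacts [hξ0 l, by norm_num [hξ]])
    (by rintro (l | l); exacts [hξ1 l, by norm_num [hξ]]) w hw hw2 k (by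
      intro z hz
      refine le_trans ?_ (hk z hz)
      have hsub : {l | dZ (n * xc ρ F (S.σ i) δ1 a K C l z - ξ l) < w} ⊆
          Sum.inl '' {l : Fin (S.d i) × Fin m × C |
            dZ (n * ‖(z l.1).toFun (a l.2.1) - l.2.2.1‖ - ξ1 l) < w} ∪
          Sum.inr '' (sbd ρ F (S.σ i) δ1 z ×ˢ (Set.univ : Set (Option (K × C)))) := by
        rintro (l | ⟨j, o⟩) hl
        · exact Or.inl ⟨l, hl, rfl⟩
        · right
          refine ⟨(j, o), ⟨?_, trivial⟩, rfl⟩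
          by_contra hj
          have hj' : j ∉ sbd ρ F (S.σ i) δ1 z := hj
          have h0 := tht_zero ρ F (S.σ i) δ1 hδ0 j z hj'
          have hx : xc ρ F (S.σ i) δ1 a K C (Sum.inr (j, o)) z = 0 := by
            rcases o with _ | p
            · exact h0
            · change tht ρ F (S.σ i) δ1 j z * _ = 0
              rw [h0, zero_mul]
          have hl' : dZ (n * xc ρ F (S.σ i) δ1 a K C (Sum.inr (j, o)) z - 1 / 2) < w := hl
          rw [hx, mul_zero, zero_sub] at hl'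
          have h3 : dZ (-(1 / 2)) = 1 / 2 := by
            unfold dZ
            rw [norm_coe_of_le]
            · norm_num [abs_of_neg]
            · rw [abs_neg, abs_of_pos (by norm_num)]
          rw [h3] at hl'
          linarith
      refine (Set.ncard_le_ncard hsub (Set.toFinite _)).trans ((Set.ncard_union_le _ _).trans ?_)
      rw [Set.ncard_image_of_injective _ Sum.inl_injective,
        Set.ncard_image_of_injective _ Sum.inr_injective, Set.ncard_prod, Set.ncard_univ,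
        Nat.card_eq_fintype_card, Fintype.card_option, Fintype.card_prod, Fintype.card_coe,
        Fintype.card_coe])
  refine ⟨V, hVf, fun v hv => ⟨hVo v hv, ?_⟩, hVc, fun z _ => hVk z⟩
  -- the pieces are small
  have hsmall : ∀ z ∈ v ∩ Z, ∀ z' ∈ v ∩ Z, ∀ (j : Fin (S.d i)), ∀ b ∈ K,
      ‖(z j).toFun b - (z' j).toFun b‖ < ε0 := by
    intro z hz z' hz' j b hb
    have hx := hVs v hv z hz.1 z' hz'.1
    have hθ : |tht ρ F (S.σ i) δ1 j z - tht ρ F (S.σ i) δ1 j z'| ≤ 1 / n := hx (Sum.inr (j, none))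
    have hθb : ∀ c ∈ C, |tht ρ F (S.σ i) δ1 j z * ‖(z j).toFun b - c‖ -
        tht ρ F (S.σ i) δ1 j z' * ‖(z' j).toFun b - c‖| ≤ 1 / n := fun c hc =>
      hx (Sum.inr (j, some (⟨b, hb⟩, ⟨c, hc⟩)))
    have hn2 : (1 : ℝ) / n ≤ 1 / 2 := by
      apply one_div_le_one_div_of_le (by norm_num)
      exact_mod_cast hn
    have h5 : 3 * (1 / (n : ℝ)) + 2 * (1 / n) = 5 / n := by ring
    rcases eq_or_lt_of_le (tht_le ρ F (S.σ i) δ1 j z) with e1 | e1
    · rw [e1] at hθ hθb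
      have := circle_close_w C (1 / n) (1 / n) hC ((z j).toFun b) ((z' j).toFun b) _ hθ hn2 hθb
      linarith
    · rcases eq_or_lt_of_le (tht_le ρ F (S.σ i) δ1 j z') with e2 | e2
      · rw [e2] at hθ hθb
        rw [abs_sub_comm] at hθ
        have := circle_close_w C (1 / n) (1 / n) hC ((z' j).toFun b) ((z j).toFun b) _ hθ hn2
          (fun c hc => by rw [abs_sub_comm]; exact hθb c hc)
        rw [norm_sub_rev]
        linarith
      · have d1 := tht_lt_one ρ F (S.σ i) δ1 hδ0 j z e1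
        have d2 := tht_lt_one ρ F (S.σ i) δ1 hδ0 j z' e2
        have c1 := yv_close S i ρ F a δ1 err hδ1 j z d1 (lift b) (hliftF b hb)
        have c2 := yv_close S i ρ F a δ1 err hδ1 j z' d2 (lift b) (hliftF b hb)
        rw [hlift b hb] at c1 c2
        have c3 := yv_sub (S.tau i) a z z' (3 / n) (fun j' l => by
          have := circle_close C (1 / n) (1 / n) hC ((z j').toFun (a l)) ((z' j').toFun (a l))
            (fun c hc => hx (Sum.inl (j', l, ⟨c, hc⟩)))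
          have h6 : 2 * (1 / (n : ℝ)) + 1 / n = 3 / n := by ring
          linarith) (lift b) j
        have hb1 := hB1 b hb
        have hb0 := n1_nonneg (lift b)
        have e3 : (z j).toFun b - (z' j).toFun b =
            ((z j).toFun b - yv (S.tau i) a z (lift b) j) -
            ((z' j).toFun b - yv (S.tau i) a z' (lift b) j) +
            (yv (S.tau i) a z (lift b) j - yv (S.tau i) a z' (lift b) j) := by abel
        rw [e3]
        refine lt_of_le_of_lt ((norm_add_le _ _).trans (add_le_add (norm_sub_le _ _) le_rfl)) ?_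
        have h7 : n1 (lift b) * (2 * err + 3 / n) ≤ B1 * (2 * err + 3 / n) := by gcongr
        calc _ ≤ n1 (lift b) * err + n1 (lift b) * err + n1 (lift b) * (3 / n) :=
              add_le_add (add_le_add c1 c2) c3
          _ = n1 (lift b) * (2 * err + 3 / n) := by ring
          _ < ε0 := h7.trans_lt h2
  rcases Set.eq_empty_or_nonempty (v ∩ Z) with he | ⟨z0, hz0⟩
  · have : (⟨fun _ => 0, by simp⟩ : Dual A) ∈ ⋃₀ U := by rw [hU.cover]; trivial
    obtain ⟨u0, hu0, _⟩ := this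
    exact ⟨fun _ => u0, fun _ => hu0, by rw [he]; exact Set.empty_subset _⟩
  · have hex : ∀ j : Fin (S.d i), ∃ u ∈ U, (fun z : Fin (S.d i) → Dual A => z j) '' (v ∩ Z) ⊆ u := by
      intro j
      apply hK
      · exact ⟨_, ⟨z0, hz0, rfl⟩⟩
      · rintro _ ⟨z, hz, rfl⟩ _ ⟨z', hz', rfl⟩ b hb
        exact hsmall z hz z' hz' j b hb
    choose u hu hsub using hex
    exact ⟨u, hu, fun z hz j _ => hsub j ⟨z, hz, rfl⟩⟩

end

end Pool.Agent.V11111.MD
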