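import Mathlib
import Pool.Agent.V11111.MD.Up2
import Pool.Agent.V11111.MD.Up3

/-! The upper bound for the mean dimension. -/

set_option autoImplicit false

open Filter Topology Set

noncomputable section

namespace Pool.Agent.V11111.MD

theorem card_bound (d m sc Cc L p q P R : ℕ) (c0 C2 : ℝ) (hd : 0 < d) (hp : p ≤ d * m)
    (hc0 : 0 < c0) (hc1 : c0 ≤ 1)
    (hC2 : C2 = (2 * (L : ℝ) + 1) ^ sc * (3 / c0) ^ m * 2 ^ (m * Cc))
    (hR : (C2 + 1) ^ P ≤ (R : ℝ)) (hR1 : 1 ≤ R) (hPq : d ≤ P * q) :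
    ((2 * (L : ℝ) + 1) ^ (d * sc) * (1 + 2 / (c0 / R)) ^ p) * 2 ^ (d * (m * Cc)) <
      (R : ℝ) ^ (p + q) := by
  have hR' : (1 : ℝ) ≤ R := by exact_mod_cast hR1
  have hR0 : (0 : ℝ) < R := by linarith
  have h3 : (1 : ℝ) ≤ 3 / c0 := by
    rw [le_div_iff₀ hc0]; linarith
  have hC20 : 0 < C2 := by rw [hC2]; positivity
  have h1 : 1 + 2 / (c0 / (R : ℝ)) ≤ (3 / c0) * R := by
    have e1 : 2 / (c0 / (R : ℝ)) = 2 * R / c0 := by field_simp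
    have e2 : (1 : ℝ) ≤ R / c0 := by
      rw [le_div_iff₀ hc0]; linarith
    have e3 : 2 * R / c0 = 2 * (R / c0) := by ring
    have e4 : (3 / c0) * R = 3 * (R / c0) := by ring
    rw [e1, e3, e4]
    linarith
  have h2 : (1 + 2 / (c0 / (R : ℝ))) ^ p ≤ ((3 / c0) ^ m) ^ d * (R : ℝ) ^ p := by
    calc (1 + 2 / (c0 / (R : ℝ))) ^ p ≤ ((3 / c0) * R) ^ p := by
          gcongr
      _ = (3 / c0) ^ p * (R : ℝ) ^ p := mul_pow _ _ _
      _ ≤ (3 / c0) ^ (d * m) * (R : ℝ) ^ p := by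
          gcongr
      _ = _ := by rw [← pow_mul, mul_comm d m]
  calc ((2 * (L : ℝ) + 1) ^ (d * sc) * (1 + 2 / (c0 / R)) ^ p) * 2 ^ (d * (m * Cc))
      ≤ ((2 * (L : ℝ) + 1) ^ (d * sc) * (((3 / c0) ^ m) ^ d * (R : ℝ) ^ p)) *
        2 ^ (d * (m * Cc)) := by gcongr
    _ = C2 ^ d * (R : ℝ) ^ p := by
        rw [hC2, mul_pow, mul_pow, ← pow_mul, ← pow_mul, ← pow_mul, mul_comm sc d, mul_comm m d,
          mul_comm (m * Cc) d]
        ring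
    _ < (C2 + 1) ^ d * (R : ℝ) ^ p := by
        apply mul_lt_mul_of_pos_right _ (by positivity)
        exact pow_lt_pow_left₀ (by linarith) hC20.le (by omega)
    _ ≤ (C2 + 1) ^ (P * q) * (R : ℝ) ^ p := by
        gcongr
        linarith
    _ = ((C2 + 1) ^ P) ^ q * (R : ℝ) ^ p := by rw [pow_mul]
    _ ≤ (R : ℝ) ^ q * (R : ℝ) ^ p := by gcongr
    _ = (R : ℝ) ^ (p + q) := by rw [← pow_add, add_comm]

section
variable {Γ : Type} [Group Γ] [DecidableEq Γ] {m : ℕ} {A : Type} [AddCommGroup A]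
  [Module (MonoidAlgebra ℤ Γ) A]

theorem up_fix (S : Sofic Γ) (i : ℕ) (ρ : CMetric (Dual A)) (F : Finset Γ) (a : Fin m → A)
    (U : Set (Set (Dual A))) (hU : IsFinOpenCover U) (K : Finset A) (ε0 : ℝ)
    (hK : ∀ S : Set (Dual A), S.Nonempty →
      (∀ χ ∈ S, ∀ ψ ∈ S, ∀ a ∈ K, ‖χ.toFun a - ψ.toFun a‖ < ε0) → ∃ u ∈ U, S ⊆ u)
    (C : Finset (AddCircle (1 : ℝ))) (n : ℕ) (hn : 2 ≤ n)
    (hC : ∀ y : AddCircle (1 : ℝ), ∃ c ∈ C, ‖y - c‖ < 1 / n)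
    (lift : A → (Γ × Fin m →₀ ℤ)) (hlift : ∀ b ∈ K, phi a (lift b) = b)
    (hliftF : ∀ b ∈ K, ∀ p ∈ (lift b).support, p.1⁻¹ ∈ F) (B1 : ℝ)
    (hB1 : ∀ b ∈ K, n1 (lift b) ≤ B1) (δ1 err : ℝ) (hδ0 : 0 < δ1) (herr : 0 ≤ err)
    (hδ1 : ∀ χ ψ : Dual A, ρ.ρ χ ψ < δ1 → ∀ l, ‖χ.toFun (a l) - ψ.toFun (a l)‖ < err)
    (h1 : 5 / n < ε0) (h2 : B1 * (2 * err + 3 / n) < ε0)
    (E : Finset Γ) (s : Finset (Γ × Fin m →₀ ℤ)) (hs : ∀ v ∈ s, phi a v = 0 ∧ v ∈ supE m E)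
    (hEF : ∀ g ∈ E, g⁻¹ ∈ F) (hB1' : ∀ v ∈ s, n1 v ≤ B1) (L : ℕ) (hL : B1 + 1 ≤ L)
    (Z : Set (Fin (S.d i) → Dual A)) (β : ℝ)
    (hβ : ∀ z ∈ Z, ((sbd ρ F (S.σ i) δ1 z).ncard : ℝ) ≤ β * S.d i) (hd : 0 < S.d i)
    (ε η : ℝ) (hε : 0 < ε) (hη : 0 < η) (R P : ℕ) (c0 C2 : ℝ) (hc0 : 0 < c0) (hc1 : c0 ≤ 1)
    (hC2 : C2 = (2 * (L : ℝ) + 1) ^ s.card * (3 / c0) ^ m * 2 ^ (m * C.card))
    (hR : (C2 + 1) ^ P ≤ (R : ℝ)) (hR1 : 1 ≤ R) (hP : 1 ≤ P * η)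
    (hc2 : 16 * (n : ℝ) ^ 2 * (C.card * (c0 ^ 2 * (m + 1))) ≤ η / 2)
    (hT : 16 * (R : ℝ) ^ 2 * n ^ 2 * (C.card * (s.card * (4 * (B1 * err) ^ 2 + 2 * β) / ε)) ≤ η / 2)
    (hβ2 : β * (K.card * C.card + 1) ≤ η) (b : ℝ)
    (hp : (Fintype.card {p // (Sd E (cf s) (S.tau i)).ev p ≤ ε} : ℝ) ≤ b * S.d i)
    (hdη : 1 ≤ η * S.d i) :
    coverDim U Z ≤ (((b + 4 * η) * S.d i : ℝ) : EReal) := by
  classical
  have hd' : (0 : ℝ) < S.d i := by exact_mod_cast hd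
  have hR' : (1 : ℝ) ≤ R := by exact_mod_cast hR1
  have hR0 : (0 : ℝ) < R := by linarith
  have hn0 : (0 : ℝ) < n := by
    have : 0 < n := by omega
    exact_mod_cast this
  set p := Fintype.card {p // (Sd E (cf s) (S.tau i)).ev p ≤ ε} with hpdef
  have hpm : p ≤ S.d i * m := by
    have := Fintype.card_subtype_le (fun p => (Sd E (cf s) (S.tau i)).ev p ≤ ε)
    rwa [Fintype.card_prod, Fintype.card_fin, Fintype.card_fin] at this
  set q := ⌈η * S.d i⌉₊ with hq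
  have hq1 : η * S.d i ≤ q := Nat.le_ceil _
  have hq2 : (q : ℝ) ≤ η * S.d i + 1 := (Nat.ceil_lt_add_one (by positivity)).le
  have hPq : S.d i ≤ P * q := by
    have : (S.d i : ℝ) ≤ P * q := by
      calc (S.d i : ℝ) = 1 * S.d i := (one_mul _).symm
        _ ≤ (P * η) * S.d i := by gcongr
        _ = P * (η * S.d i) := by ring
        _ ≤ P * q := by gcongr
    exact_mod_cast this
  obtain ⟨Cen, hCen1, hCen2⟩ := exists_centers S i ρ F a E s hs hEF δ1 err B1 hδ0 herr hδ1 hB1' L hL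
    Z β hβ hd C ε (c0 / R) hε (by positivity)
  set rt : ℝ := C.card * ((c0 / R) ^ 2 * (S.d i * (m + 1)) +
            (s.card * S.d i * (4 * (B1 * err) ^ 2 + 2 * β)) / ε) with hrt
  set t : ℝ := 1 / (4 * R * n) with ht
  have ht0 : 0 < t := by positivity
  have hcb := card_bound (S.d i) m s.card C.card L p q P R c0 C2 hd hpm hc0 hc1 hC2 hR hR1 hPq
  obtain ⟨ξ, hξ0, hξ1, hξ⟩ := exists_walls
    ((fun z : Fin (S.d i) → Dual A => fun l : Fin (S.d i) × Fin m × C =>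
      ‖(z l.1).toFun (a l.2.1) - l.2.2.1‖) '' Z) Cen rt t ht0 (by
      rintro _ ⟨z, hz, rfl⟩
      obtain ⟨c, hc, hcz⟩ := hCen2 z hz
      exact ⟨c, hc, hcz⟩) R n (by omega) (by
      rw [ht]
      apply le_of_eq
      field_simp) (p + q) (by
      refine lt_of_le_of_lt ?_ hcb
      have : Fintype.card (Fin (S.d i) × Fin m × C) = S.d i * (m * C.card) := by
        simp [Fintype.card_prod]
      rw [this]
      gcongr)
  have hrt2 : rt / t ^ 2 ≤ η * S.d i := by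
    have e1 : rt / t ^ 2 = (16 * (n : ℝ) ^ 2 * (C.card * (c0 ^ 2 * (m + 1))) +
        16 * (R : ℝ) ^ 2 * n ^ 2 * (C.card * (s.card * (4 * (B1 * err) ^ 2 + 2 * β) / ε))) *
          S.d i := by
      rw [hrt, ht]
      field_simp
      ring
    rw [e1]
    gcongr
    linarith
  have hkey : ∀ z ∈ Z, {l : Fin (S.d i) × Fin m × C |
        dZ (n * ‖(z l.1).toFun (a l.2.1) - l.2.2.1‖ - ξ l) < 1 / (4 * R)}.ncard +
      (sbd ρ F (S.σ i) δ1 z).ncard * (K.card * C.card + 1) ≤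
      ⌊(b + 4 * η) * S.d i⌋₊ := by
    intro z hz
    apply Nat.le_floor
    push_cast
    have e1 := hξ _ ⟨z, hz, rfl⟩
    have e2 := hβ z hz
    have e3 : ((sbd ρ F (S.σ i) δ1 z).ncard : ℝ) * (K.card * C.card + 1) ≤ η * S.d i := by
      calc ((sbd ρ F (S.σ i) δ1 z).ncard : ℝ) * (K.card * C.card + 1)
          ≤ (β * S.d i) * (K.card * C.card + 1) := by gcongr
        _ = (β * (K.card * C.card + 1)) * S.d i := by ring
        _ ≤ η * S.d i := by gcongr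
    push_cast at e1
    have e4 : (b + 4 * η) * S.d i = b * S.d i + 4 * (η * S.d i) := by ring
    rw [e4]
    linarith
  have hcov := hasCover_of S i ρ F a U hU K ε0 hK C n hn hC lift hlift hliftF B1 hB1 δ1 err hδ0
    herr hδ1 h1 h2 Z ξ hξ0 hξ1 (1 / (4 * R)) (by positivity) (by
      rw [div_lt_div_iff₀ (by positivity) (by norm_num)]
      linarith) _ hkey
  refine (coverDim_le U Z _ hcov).trans ?_
  have hnn : 0 ≤ (b + 4 * η) * S.d i := by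
    have : (0 : ℝ) ≤ b * S.d i := le_trans (by positivity) hp
    have e4 : (b + 4 * η) * S.d i = b * S.d i + 4 * (η * S.d i) := by ring
    rw [e4]
    linarith
  exact_mod_cast Nat.floor_le hnn

end

end Pool.Agent.V11111.MD
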