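import Mathlib
import Pool.Agent.V11111.MD.Up4

/-! The upper bound for the mean dimension. -/

set_option autoImplicit false

open Filter Topology Set

noncomputable section

namespace Pool.Agent.V11111.MD

section
variable {Γ : Type} [Group Γ] [DecidableEq Γ] {m : ℕ} {A : Type} [AddCommGroup A]
  [Module (MonoidAlgebra ℤ Γ) A]

theorem up_one (S : Sofic Γ) (a : Fin m → A) (ha : Function.Surjective (phi (Γ := Γ) a))
    (ρ : CMetric (Dual A)) (U : Set (Set (Dual A))) (hU : IsFinOpenCover U) (η : ℝ) (hη : 0 < η) :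
    ∃ F : Finset Γ, ∃ δ : ℝ, 0 < δ ∧ ∀ᶠ i in atTop,
      coverDim U (ρ.Map dact F δ (S.σ i)) / ((S.d i : ℝ) : EReal) ≤
        ((bA Γ a + 6 * η : ℝ) : EReal) := by
  obtain ⟨K, ε0, hε0, hK⟩ := leb U hU
  choose lift hlift using ha
  obtain ⟨s, hs0, hsnu⟩ := exists_rows (Γ := Γ) a η hη
  set E : Finset Γ := s.biUnion fun v => v.support.image Prod.fst with hE
  have hsE : ∀ v ∈ s, v ∈ supE m E := by
    intro v hv
    rw [mem_supE]
    intro p hp
    exact Finset.mem_biUnion.2 ⟨v, hv, Finset.mem_image_of_mem _ hp⟩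
  have hs : ∀ v ∈ s, phi a v = 0 ∧ v ∈ supE m E := fun v hv => ⟨hs0 v hv, hsE v hv⟩
  have hlim := beta_lim E (cf s) (fun v : s => v.1) (fun q g l => rfl)
    (fun q p hp => (mem_supE E _).1 (hsE q.1 q.2) p hp)
  obtain ⟨nβ, hnβ⟩ := (hlim.eventually (gt_mem_nhds
    (show _ < bA Γ a + 2 * η by linarith))).exists
  obtain ⟨ε, hε, hsmall⟩ := small_upper S E (cf s) nβ _ hnβ
  set E' : Finset Γ := K.biUnion fun b => (lift b).support.image Prod.fst with hE'
  set F : Finset Γ := (E ∪ E').image (fun g => g⁻¹) with hF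
  have hEF : ∀ g ∈ E, g⁻¹ ∈ F := fun g hg =>
    Finset.mem_image_of_mem _ (Finset.mem_union_left _ hg)
  have hliftF : ∀ b ∈ K, ∀ p ∈ (lift b).support, p.1⁻¹ ∈ F := fun b hb p hp =>
    Finset.mem_image_of_mem _ (Finset.mem_union_right _
      (Finset.mem_biUnion.2 ⟨b, hb, Finset.mem_image_of_mem _ hp⟩))
  set B1 : ℝ := ∑ b ∈ K, n1 (lift b) + ∑ v ∈ s, n1 v + 1 with hB1d
  have hK0 : 0 ≤ ∑ b ∈ K, n1 (lift b) := Finset.sum_nonneg fun _ _ => n1_nonneg _
  have hs00 : 0 ≤ ∑ v ∈ s, n1 v := Finset.sum_nonneg fun _ _ => n1_nonneg _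
  have hB1 : ∀ b ∈ K, n1 (lift b) ≤ B1 := by
    intro b hb
    have := Finset.single_le_sum (f := fun b => n1 (lift b)) (fun b _ => n1_nonneg (lift b)) hb
    have h2 : n1 (lift b) ≤ ∑ b ∈ K, n1 (lift b) := this
    linarith
  have hB1' : ∀ v ∈ s, n1 v ≤ B1 := by
    intro v hv
    have := Finset.single_le_sum (f := fun v => n1 v) (fun v _ => n1_nonneg v) hv
    have h2 : n1 v ≤ ∑ v ∈ s, n1 v := this
    linarith
  have hB10 : 0 < B1 := by linarith
  clear_value B1 F E' E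
  obtain ⟨L, hL⟩ := exists_nat_ge (B1 + 1)
  -- the mesh
  obtain ⟨n, hn⟩ := exists_nat_gt (2 + 5 / ε0 + 6 * B1 / ε0)
  have hn2 : (2 : ℝ) < n := by
    have : 0 < 5 / ε0 := by positivity
    have : 0 < 6 * B1 / ε0 := by positivity
    linarith
  have hn' : 2 ≤ n := by
    have : (2 : ℝ) ≤ n := hn2.le
    exact_mod_cast this
  have hn0 : (0 : ℝ) < n := by linarith
  have h1 : 5 / (n : ℝ) < ε0 := by
    rw [div_lt_iff₀ hn0]
    have h5 : 5 / ε0 < n := by
      have : 0 < 6 * B1 / ε0 := by positivity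
      linarith
    rw [div_lt_iff₀ hε0] at h5
    linarith
  have h3 : B1 * (3 / (n : ℝ)) < ε0 / 2 := by
    have h6 : 6 * B1 / ε0 < n := by
      have : 0 < 5 / ε0 := by positivity
      linarith
    rw [div_lt_iff₀ hε0] at h6
    rw [← mul_div_assoc, div_lt_iff₀ hn0]
    linarith
  obtain ⟨C, hC⟩ := circle_net (1 / (n : ℝ)) (by positivity)
  -- the constant `c0`
  set c0 : ℝ := min 1 (η / (32 * (n : ℝ) ^ 2 * (C.card + 1) * (m + 1))) with hc0d
  have hc0 : 0 < c0 := lt_min one_pos (by positivity)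
  have hc1 : c0 ≤ 1 := min_le_left _ _
  have hc2 : 16 * (n : ℝ) ^ 2 * (C.card * (c0 ^ 2 * (m + 1))) ≤ η / 2 := by
    have e1 : c0 ≤ η / (32 * (n : ℝ) ^ 2 * (C.card + 1) * (m + 1)) := min_le_right _ _
    rw [le_div_iff₀ (by positivity)] at e1
    have e2 : c0 ^ 2 ≤ c0 := by
      rw [sq]
      calc c0 * c0 ≤ 1 * c0 := by gcongr
        _ = c0 := one_mul _
    calc 16 * (n : ℝ) ^ 2 * (C.card * (c0 ^ 2 * (m + 1)))
        ≤ 16 * (n : ℝ) ^ 2 * ((C.card + 1) * (c0 * (m + 1))) := by gcongr; linarith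
      _ = (c0 * (32 * (n : ℝ) ^ 2 * (C.card + 1) * (m + 1))) / 2 := by ring
      _ ≤ η / 2 := by linarith
  clear_value c0
  set C2 : ℝ := (2 * (L : ℝ) + 1) ^ s.card * (3 / c0) ^ m * 2 ^ (m * C.card) with hC2
  have hC20 : 0 < C2 := by positivity
  clear_value C2
  obtain ⟨P, hP⟩ := exists_nat_gt (1 / η)
  have hP1 : 1 ≤ P * η := by
    rw [div_lt_iff₀ hη] at hP
    exact hP.le
  obtain ⟨R, hRR⟩ := exists_nat_ge (1 + (C2 + 1) ^ P)
  have hpos : 0 < (C2 + 1) ^ P := by positivity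
  have hR1' : (1 : ℝ) ≤ R := by linarith
  have hR1 : 1 ≤ R := by exact_mod_cast hR1'
  have hR : (C2 + 1) ^ P ≤ (R : ℝ) := by linarith
  have hR0 : (0 : ℝ) < R := by linarith
  -- the errors
  set q0 : ℝ := ε * η / (32 * (R : ℝ) ^ 2 * n ^ 2 * (C.card + 1) * (s.card + 1)) with hq0d
  have hq0 : 0 < q0 := by positivity
  clear_value q0
  set β : ℝ := min (q0 / 4) (η / (K.card * C.card + 1)) with hβd
  have hβ0 : 0 < β := lt_min (by positivity) (by positivity)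
  have hβ1 : β ≤ q0 / 4 := min_le_left _ _
  have hβ2 : β * (K.card * C.card + 1) ≤ η := by
    have : β ≤ η / (K.card * C.card + 1) := min_le_right _ _
    rwa [le_div_iff₀ (by positivity)] at this
  clear_value β
  set err : ℝ := min 1 (min (ε0 / (8 * B1)) (q0 / (8 * B1 ^ 2))) with herrd
  have herr0 : 0 < err := lt_min one_pos (lt_min (by positivity) (by positivity))
  have herr1 : err ≤ 1 := min_le_left _ _
  have herr2 : err * (8 * B1) ≤ ε0 := by
    have : err ≤ ε0 / (8 * B1) := (min_le_right _ _).trans (min_le_left _ _)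
    rwa [le_div_iff₀ (by positivity)] at this
  have herr3 : err * (8 * B1 ^ 2) ≤ q0 := by
    have : err ≤ q0 / (8 * B1 ^ 2) := (min_le_right _ _).trans (min_le_right _ _)
    rwa [le_div_iff₀ (by positivity)] at this
  clear_value err
  have h2 : B1 * (2 * err + 3 / n) < ε0 := by
    have : B1 * (2 * err + 3 / n) = err * (8 * B1) / 4 + B1 * (3 / n) := by ring
    rw [this]
    linarith
  have hT0 : 4 * (B1 * err) ^ 2 + 2 * β ≤ q0 := by
    have e1 : 4 * (B1 * err) ^ 2 ≤ q0 / 2 := by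
      calc 4 * (B1 * err) ^ 2 = 4 * B1 ^ 2 * (err * err) := by ring
        _ ≤ 4 * B1 ^ 2 * (1 * err) := by gcongr
        _ = err * (8 * B1 ^ 2) / 2 := by ring
        _ ≤ q0 / 2 := by linarith
    linarith
  have hT : 16 * (R : ℝ) ^ 2 * n ^ 2 *
      (C.card * (s.card * (4 * (B1 * err) ^ 2 + 2 * β) / ε)) ≤ η / 2 := by
    calc 16 * (R : ℝ) ^ 2 * n ^ 2 * (C.card * (s.card * (4 * (B1 * err) ^ 2 + 2 * β) / ε))
        ≤ 16 * (R : ℝ) ^ 2 * n ^ 2 * ((C.card + 1) * ((s.card + 1) * q0 / ε)) := by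
          gcongr
          · linarith
          · linarith
      _ = η / 2 := by
          rw [hq0d]
          field_simp
          ring
  obtain ⟨δ1, hδ1, hδc⟩ := agree_of_close ρ (Set.finite_range a).toFinset err herr0
  have hδ1' : ∀ χ ψ : Dual A, ρ.ρ χ ψ < δ1 → ∀ l, ‖χ.toFun (a l) - ψ.toFun (a l)‖ < err :=
    fun χ ψ h l => hδc χ ψ h (a l) ((Set.finite_range a).mem_toFinset.2 ⟨l, rfl⟩)
  set δ : ℝ := min 1 (β * (δ1 / 2) ^ 2 / ((F.card : ℝ) ^ 2 + 1)) with hδd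
  have hδ0 : 0 < δ := lt_min one_pos (by positivity)
  have hδle : (F.card : ℝ) ^ 2 * δ ^ 2 ≤ β * (δ1 / 2) ^ 2 := by
    have e1 : δ ≤ β * (δ1 / 2) ^ 2 / ((F.card : ℝ) ^ 2 + 1) := min_le_right _ _
    rw [le_div_iff₀ (by positivity)] at e1
    have e2 : δ ^ 2 ≤ δ := by
      rw [sq]
      calc δ * δ ≤ 1 * δ := by gcongr; exact min_le_left _ _
        _ = δ := one_mul _
    calc (F.card : ℝ) ^ 2 * δ ^ 2 ≤ ((F.card : ℝ) ^ 2 + 1) * δ := by gcongr; linarith
      _ = δ * ((F.card : ℝ) ^ 2 + 1) := mul_comm _ _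
      _ ≤ _ := e1
  clear_value δ
  refine ⟨F, δ, hδ0, ?_⟩
  have hdη : ∀ᶠ i in atTop, 1 ≤ η * S.d i := by
    have : Tendsto (fun i => η * (S.d i : ℝ)) atTop atTop :=
      (tendsto_natCast_atTop_atTop.comp S.tendsto).const_mul_atTop hη
    exact this.eventually_ge_atTop 1
  filter_upwards [S.d_pos, hsmall, hdη] with i hi hp hde
  have hd : (0 : ℝ) < S.d i := by exact_mod_cast hi
  have hβi : ∀ z ∈ ρ.Map dact F δ (S.σ i),
      ((sbd ρ F (S.σ i) δ1 z).ncard : ℝ) ≤ β * S.d i := by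
    intro z hz
    have e1 := sbd_card ρ F hi (S.σ i) δ1 δ hδ1 hδ0 z hz
    have e2 : ((sbd ρ F (S.σ i) δ1 z).ncard : ℝ) * (δ1 / 2) ^ 2 ≤
        (β * S.d i) * (δ1 / 2) ^ 2 := by
      calc _ ≤ _ := e1
        _ ≤ (β * (δ1 / 2) ^ 2) * S.d i := by gcongr
        _ = _ := by ring
    exact le_of_mul_le_mul_right e2 (by positivity)
  have hfix := up_fix S i ρ F a U hU K ε0 hK C n hn' hC lift (fun b _ => hlift b) hliftF B1 hB1
    δ1 err hδ1 herr0.le hδ1' h1 h2 E s hs hEF hB1' L hL (ρ.Map dact F δ (S.σ i)) β hβi hi ε η hε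
    hη R P c0 C2 hc0 hc1 hC2 hR hR1 hP1 hc2 hT hβ2 _ hp hde
  have hd' : (0 : EReal) < ((S.d i : ℝ) : EReal) := by exact_mod_cast hd
  have hdt : ((S.d i : ℝ) : EReal) ≠ ⊤ := EReal.coe_ne_top _
  rw [EReal.div_le_iff_le_mul hd' hdt]
  refine hfix.trans ?_
  have e5 : (bA Γ a + 2 * η + 4 * η) * (S.d i : ℝ) = (bA Γ a + 6 * η) * S.d i := by ring
  rw [e5]
  have : (((bA Γ a + 6 * η) * S.d i : ℝ) : EReal) =
      ((S.d i : ℝ) : EReal) * ((bA Γ a + 6 * η : ℝ) : EReal) := by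
    rw [← EReal.coe_mul, mul_comm]
  rw [this]

theorem up_all (S : Sofic Γ) (a : Fin m → A) (ha : Function.Surjective (phi (Γ := Γ) a))
    (ρ : CMetric (Dual A)) : sMdim S (dact (A := A)) ρ ≤ ((bA Γ a : ℝ) : EReal) := by
  refine iSup_le fun U => ?_
  rw [← EReal.le_of_forall_lt_iff_le]
  intro z hz
  have hz' : bA Γ a < z := by exact_mod_cast hz
  obtain ⟨F, δ, hδ, h⟩ := up_one S a ha ρ U.1 U.2 ((z - bA Γ a) / 6) (by linarith)
  refine (iInf_le _ F).trans ((iInf_le _ ⟨δ, hδ⟩).trans ?_)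
  have e1 : bA Γ a + 6 * ((z - bA Γ a) / 6) = z := by ring
  rw [e1] at h
  exact limsup_le_of_le (by isBoundedDefault) h

end

end Pool.Agent.V11111.MD
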